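import Mathlib

/-!
# Spectral facts for unimodular irreducible Pisot matrices
-/

set_option autoImplicit false

namespace Pool.Agent.Helper94_Pisot

open Matrix Filter Topology

/-- Hypotheses on the incidence matrix. -/
structure PisotMat {d : ℕ} (M : Matrix (Fin d) (Fin d) ℤ) (r : ℝ) : Prop where
  nonneg : ∀ i j, 0 ≤ M i j
  one_lt : 1 < r
  root : Polynomial.aeval (r : ℂ) M.charpoly = 0
  other : ∀ μ : ℂ, Polynomial.aeval μ M.charpoly = 0 → μ ≠ (r : ℂ) → ‖μ‖ < 1
  irr : Irreducible (M.charpoly.map (Int.castRingHom ℚ))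
  det : M.det = 1 ∨ M.det = -1

variable {d : ℕ}

/-! ### Decay -/

theorem decay_aux (A : Matrix (Fin d) (Fin d) ℂ) (s : Multiset ℂ) (hs : ∀ μ ∈ s, ‖μ‖ < 1) :
    ∀ w : Fin d → ℂ,
      (Polynomial.aeval A ((s.map (fun μ => Polynomial.X - Polynomial.C μ)).prod)) *ᵥ w = 0 →
      ∃ C θ : ℝ, 0 ≤ C ∧ 0 < θ ∧ θ < 1 ∧ ∀ n : ℕ, ‖(A ^ n) *ᵥ w‖ ≤ C * θ ^ n := by
  induction s using Multiset.induction_on with
  | empty =>
    intro w hw
    simp at hw
    refine ⟨0, 1 / 2, le_rfl, by norm_num, by norm_num, fun n => ?_⟩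
    rw [hw]
    simp
  | cons μ s ih =>
    intro w hw
    have hμ : ‖μ‖ < 1 := hs μ (Multiset.mem_cons_self μ s)
    rw [Multiset.map_cons, Multiset.prod_cons, mul_comm, map_mul] at hw
    rw [← Matrix.mulVec_mulVec] at hw
    obtain ⟨C, θ, hC, hθ0, hθ1, hdec⟩ := ih (fun ν hν => hs ν (Multiset.mem_cons_of_mem hν)) _ hw
    -- choose a larger ratio
    obtain ⟨θ', h1, h2⟩ := exists_between (max_lt hθ1 hμ)
    have hθθ' : θ < θ' := lt_of_le_of_lt (le_max_left _ _) h1
    have hμθ' : ‖μ‖ < θ' := lt_of_le_of_lt (le_max_right _ _) h1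
    have hθ'0 : 0 < θ' := hθ0.trans hθθ'
    set w' := (Polynomial.aeval A (Polynomial.X - Polynomial.C μ)) *ᵥ w with hw'
    have hstep : ∀ n : ℕ, (A ^ (n + 1)) *ᵥ w = μ • ((A ^ n) *ᵥ w) + (A ^ n) *ᵥ w' := by
      intro n
      have h3 : w' = A *ᵥ w - μ • w := by
        rw [hw', map_sub, Polynomial.aeval_X, Polynomial.aeval_C, Matrix.sub_mulVec,
          Algebra.algebraMap_eq_smul_one, Matrix.smul_mulVec, Matrix.one_mulVec]
      rw [h3, Matrix.mulVec_sub, Matrix.mulVec_smul, pow_succ, ← Matrix.mulVec_mulVec]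
      abel
    set C' := max ‖w‖ (C / (θ' - ‖μ‖)) with hC'
    have hpos : 0 < θ' - ‖μ‖ := by linarith
    have hC'0 : 0 ≤ C' := le_max_of_le_left (norm_nonneg _)
    have hCC' : C ≤ C' * (θ' - ‖μ‖) := by
      have : C / (θ' - ‖μ‖) ≤ C' := le_max_right _ _
      rwa [div_le_iff₀ hpos] at this
    refine ⟨C', θ', hC'0, hθ'0, h2, fun n => ?_⟩
    induction n with
    | zero =>
      simp only [pow_zero, Matrix.one_mulVec, mul_one]
      exact le_max_left _ _
    | succ n ihn =>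
      rw [hstep]
      calc ‖μ • ((A ^ n) *ᵥ w) + (A ^ n) *ᵥ w'‖
          ≤ ‖μ‖ * ‖(A ^ n) *ᵥ w‖ + ‖(A ^ n) *ᵥ w'‖ := by
            refine (norm_add_le _ _).trans ?_
            rw [norm_smul]
        _ ≤ ‖μ‖ * (C' * θ' ^ n) + C * θ ^ n := by
            gcongr
            exact hdec n
        _ ≤ ‖μ‖ * (C' * θ' ^ n) + (C' * (θ' - ‖μ‖)) * θ' ^ n := by
            gcongr
        _ = C' * θ' ^ (n + 1) := by ring

/-- real and complex versions of the matrix -/
noncomputable def mR (M : Matrix (Fin d) (Fin d) ℤ) : Matrix (Fin d) (Fin d) ℝ :=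
  M.map (Int.castRingHom ℝ)

noncomputable def mC (M : Matrix (Fin d) (Fin d) ℤ) : Matrix (Fin d) (Fin d) ℂ :=
  M.map (Int.castRingHom ℂ)

theorem mC_eq (M : Matrix (Fin d) (Fin d) ℤ) : mC M = (mR M).map Complex.ofRealHom := by
  ext i j
  simp [mC, mR]

theorem mC_pow_mulVec (M : Matrix (Fin d) (Fin d) ℤ) (n : ℕ) (w : Fin d → ℝ) :
    (mC M ^ n) *ᵥ (fun i => (w i : ℂ)) = fun i => (((mR M ^ n) *ᵥ w) i : ℂ) := by
  have h : mC M ^ n = (mR M ^ n).map Complex.ofRealHom := by
    rw [mC_eq]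
    exact (map_pow Complex.ofRealHom.mapMatrix (mR M) n).symm
  rw [h]
  ext i
  simp [Matrix.mulVec, dotProduct]

theorem norm_ofReal_fun (w : Fin d → ℝ) : ‖(fun i => (w i : ℂ))‖ = ‖w‖ := by
  simp [Pi.norm_def]

theorem decay_real {M : Matrix (Fin d) (Fin d) ℤ} {r : ℝ} (hM : PisotMat M r) :
    ∀ v : Fin d → ℝ, ∃ C θ : ℝ, 0 ≤ C ∧ 0 < θ ∧ θ < 1 ∧
      ∀ n : ℕ, ‖(mR M ^ n) *ᵥ (mR M *ᵥ v - r • v)‖ ≤ C * θ ^ n := by
  intro v
  set χ := M.charpoly.map (Int.castRingHom ℂ) with hχ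
  have hχ' : χ = (mC M).charpoly := by
    rw [hχ, mC, Matrix.charpoly_map]
  have hmonic : χ.Monic := (Matrix.charpoly_monic M).map _
  have hsplit : χ.Splits := IsAlgClosed.splits χ
  have hsep : χ.Separable := by
    have h1 := hM.irr.separable
    have h2 : χ = (M.charpoly.map (Int.castRingHom ℚ)).map (algebraMap ℚ ℂ) := by
      rw [Polynomial.map_map]
      congr 1
    rw [h2]
    exact h1.map
  have hnodup : χ.roots.Nodup := Polynomial.nodup_roots hsep
  have hprod : χ = (χ.roots.map (fun a => Polynomial.X - Polynomial.C a)).prod :=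
    hsplit.eq_prod_roots_of_monic hmonic
  have hmemroots : ∀ μ : ℂ, μ ∈ χ.roots ↔ Polynomial.aeval μ M.charpoly = 0 := by
    intro μ
    rw [Polynomial.mem_roots hmonic.ne_zero, Polynomial.IsRoot, hχ, Polynomial.eval_map,
      Polynomial.aeval_def]
    rfl
  have hr : (r : ℂ) ∈ χ.roots := (hmemroots _).2 hM.root
  set s := χ.roots.erase (r : ℂ) with hs
  have hcons : χ.roots = (r : ℂ) ::ₘ s := (Multiset.cons_erase hr).symm
  have hsmall : ∀ μ ∈ s, ‖μ‖ < 1 := by
    intro μ hμ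
    have hne : μ ≠ (r : ℂ) := by
      rintro rfl
      rw [hcons] at hnodup
      exact (Multiset.nodup_cons.1 hnodup).1 hμ
    exact hM.other μ ((hmemroots μ).1 (Multiset.mem_of_mem_erase hμ)) hne
  have hCH : Polynomial.aeval (mC M) χ = 0 := by
    rw [hχ']
    exact Matrix.aeval_self_charpoly _
  have hkill : (Polynomial.aeval (mC M)
      ((s.map (fun μ => Polynomial.X - Polynomial.C μ)).prod)) *ᵥ
        (fun i => (((mR M *ᵥ v - r • v) i : ℝ) : ℂ)) = 0 := by
    have h1 : (fun i => (((mR M *ᵥ v - r • v) i : ℝ) : ℂ)) =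
        (Polynomial.aeval (mC M) (Polynomial.X - Polynomial.C (r : ℂ))) *ᵥ
          (fun i => (v i : ℂ)) := by
      rw [map_sub, Polynomial.aeval_X, Polynomial.aeval_C, Matrix.sub_mulVec,
          Algebra.algebraMap_eq_smul_one, Matrix.smul_mulVec, Matrix.one_mulVec]
      have h2 := mC_pow_mulVec M 1 v
      rw [pow_one, pow_one] at h2
      rw [h2]
      ext i
      simp
    rw [h1, Matrix.mulVec_mulVec, ← map_mul]
    have h3 : ((s.map (fun μ => Polynomial.X - Polynomial.C μ)).prod) *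
        (Polynomial.X - Polynomial.C (r : ℂ)) = χ := by
      rw [mul_comm]
      conv_rhs => rw [hprod, hcons, Multiset.map_cons, Multiset.prod_cons]
    rw [h3, hCH, Matrix.zero_mulVec]
  obtain ⟨C, θ, hC, h0, h1, hdec⟩ := decay_aux (mC M) s hsmall _ hkill
  refine ⟨C, θ, hC, h0, h1, fun n => ?_⟩
  have h2 := hdec n
  rw [mC_pow_mulVec, norm_ofReal_fun] at h2
  exact h2

/-! ### Rational independence of eigenvectors -/

theorem aeval_mulVec_eigen (N : Matrix (Fin d) (Fin d) ℝ) (v : Fin d → ℝ) (r : ℝ)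
    (hv : N *ᵥ v = r • v) (p : Polynomial ℝ) :
    (Polynomial.aeval N p) *ᵥ v = (p.eval r) • v := by
  induction p using Polynomial.induction_on' with
  | add p q hp hq => rw [map_add, Matrix.add_mulVec, hp, hq, Polynomial.eval_add, add_smul]
  | monomial n a =>
    have hpow : ∀ n : ℕ, (N ^ n) *ᵥ v = (r ^ n) • v := by
      intro n
      induction n with
      | zero => simp
      | succ n ih =>
        rw [pow_succ, ← Matrix.mulVec_mulVec, hv, Matrix.mulVec_smul, ih, smul_smul, pow_succ,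
          mul_comm]
    rw [Polynomial.aeval_monomial, Polynomial.eval_monomial, Algebra.algebraMap_eq_smul_one,
      smul_mul_assoc, one_mul, Matrix.smul_mulVec, hpow, smul_smul]

theorem indep {N : Matrix (Fin d) (Fin d) ℤ}
    (hirr : Irreducible (N.charpoly.map (Int.castRingHom ℚ))) {r : ℝ} {v : Fin d → ℝ}
    (hv : mR N *ᵥ v = r • v) (hv0 : v ≠ 0) (q : Fin d → ℤ)
    (hq : ∑ i, (q i : ℝ) * v i = 0) : q = 0 := by
  classical
  by_contra hq0
  set NQ : Matrix (Fin d) (Fin d) ℚ := N.map (Int.castRingHom ℚ) with hNQ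
  set qQ : Fin d → ℚ := fun i => (q i : ℚ) with hqQ
  have hqQ0 : qQ ≠ 0 := by
    intro h
    apply hq0
    ext i
    have := congrFun h i
    simpa [hqQ] using this
  set χ := N.charpoly.map (Int.castRingHom ℚ) with hχ
  have hχ' : χ = NQ.charpoly := by rw [hχ, hNQ, Matrix.charpoly_map]
  have hmonic : χ.Monic := (Matrix.charpoly_monic N).map _
  have hdeg : χ.degree = d := by
    rw [hχ', Matrix.charpoly_degree_eq_dim]
    simp
  have hCH : Polynomial.aeval NQ χ = 0 := by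
    rw [hχ']
    exact Matrix.aeval_self_charpoly _
  let L : Polynomial.degreeLT ℚ d →ₗ[ℚ] (Fin d → ℚ) :=
    { toFun := fun p => qQ ᵥ* (Polynomial.aeval NQ (p : Polynomial ℚ))
      map_add' := by
        intro p p'
        simp [Matrix.vecMul_add]
      map_smul' := by
        intro c p
        simp [Matrix.vecMul_smul] }
  have hinj : Function.Injective L := by
    rw [← LinearMap.ker_eq_bot, LinearMap.ker_eq_bot']
    rintro ⟨p, hp⟩ hLp
    have hLp' : qQ ᵥ* (Polynomial.aeval NQ p) = 0 := hLp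
    by_contra hne
    have hp0 : p ≠ 0 := by
      rintro rfl
      exact hne rfl
    have hpdeg : p.degree < χ.degree := by
      rw [hdeg]
      exact Polynomial.mem_degreeLT.1 hp
    have hcop : IsCoprime χ p := by
      rw [Irreducible.coprime_iff_not_dvd hirr]
      intro hdvd
      exact absurd (Polynomial.degree_le_of_dvd hdvd hp0) (not_le.2 hpdeg)
    obtain ⟨a, b, hab⟩ := hcop
    have h1 := congrArg (Polynomial.aeval NQ) hab
    rw [map_add, map_mul, map_mul, hCH, mul_zero, zero_add, map_one, ← map_mul, mul_comm b p,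
      map_mul] at h1
    have h2 : qQ ᵥ* (Polynomial.aeval NQ p * Polynomial.aeval NQ b) = qQ := by
      rw [h1, Matrix.vecMul_one]
    rw [← Matrix.vecMul_vecMul, hLp', Matrix.zero_vecMul] at h2
    exact hqQ0 h2.symm
  have hfin : Module.finrank ℚ (Polynomial.degreeLT ℚ d) = Module.finrank ℚ (Fin d → ℚ) := by
    rw [(Polynomial.degreeLTEquiv ℚ d).finrank_eq]
  have hsurj : Function.Surjective L :=
    (LinearMap.injective_iff_surjective_of_finrank_eq_finrank hfin).1 hinj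
  apply hv0
  ext i
  obtain ⟨⟨p, hp⟩, hLp⟩ := hsurj (Pi.single i 1)
  have hLp' : qQ ᵥ* (Polynomial.aeval NQ p) = Pi.single i 1 := hLp
  -- pass to the reals
  have hmap : Polynomial.aeval (mR N) (p.map (algebraMap ℚ ℝ)) =
      (Polynomial.aeval NQ p).map (algebraMap ℚ ℝ) := by
    have h1 : mR N = (Algebra.ofId ℚ ℝ).mapMatrix NQ := by
      ext i j
      simp [mR, hNQ]
    rw [Polynomial.aeval_map_algebraMap, h1, Polynomial.aeval_algHom_apply]
    rfl
  have h1 : (fun i => (q i : ℝ)) ᵥ* (Polynomial.aeval (mR N) (p.map (algebraMap ℚ ℝ))) =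
      fun k => ((qQ ᵥ* (Polynomial.aeval NQ p)) k : ℝ) := by
    rw [hmap]
    ext k
    simp [Matrix.vecMul, dotProduct, hqQ]
  have h2 : ((fun i => (q i : ℝ)) ᵥ* (Polynomial.aeval (mR N) (p.map (algebraMap ℚ ℝ)))) ⬝ᵥ v =
      0 := by
    rw [← Matrix.dotProduct_mulVec, aeval_mulVec_eigen _ _ _ hv, dotProduct_smul]
    have : (fun i => (q i : ℝ)) ⬝ᵥ v = 0 := hq
    rw [this, smul_zero]
  rw [h1, hLp'] at h2
  have h3 : (fun k => (((Pi.single i 1 : Fin d → ℚ) k : ℚ) : ℝ)) ⬝ᵥ v = v i := by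
    rw [dotProduct, Finset.sum_eq_single i]
    · simp
    · intro j _ hj
      simp [hj]
    · simp
  rw [h3] at h2
  simpa using h2

/-! ### The Perron data -/

theorem transpose_pisot {M : Matrix (Fin d) (Fin d) ℤ} {r : ℝ} (hM : PisotMat M r) :
    PisotMat Mᵀ r where
  nonneg i j := hM.nonneg j i
  one_lt := hM.one_lt
  root := by rw [Matrix.charpoly_transpose]; exact hM.root
  other := by rw [Matrix.charpoly_transpose]; exact hM.other
  irr := by rw [Matrix.charpoly_transpose]; exact hM.irr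
  det := by rw [Matrix.det_transpose]; exact hM.det

/-- the `j`-th basis vector -/
def bv (j : Fin d) : Fin d → ℝ := Pi.single j 1

theorem mR_mulVec_bv (M : Matrix (Fin d) (Fin d) ℤ) (n : ℕ) (i j : Fin d) :
    ((mR M ^ n) *ᵥ bv j) i = (((M ^ n) i j : ℤ) : ℝ) := by
  have h : mR M ^ n = (M ^ n).map (Int.castRingHom ℝ) := by
    exact (map_pow (Int.castRingHom ℝ).mapMatrix M n).symm
  rw [h, bv, Matrix.mulVec_single_one]
  simp

theorem pow_nonneg' {M : Matrix (Fin d) (Fin d) ℤ} (hM : ∀ i j, 0 ≤ M i j) (n : ℕ) (i j : Fin d) :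
    0 ≤ (M ^ n) i j := by
  induction n generalizing i j with
  | zero =>
    rw [pow_zero, Matrix.one_apply]
    split_ifs <;> norm_num
  | succ n ih =>
    rw [pow_succ, Matrix.mul_apply]
    exact Finset.sum_nonneg fun k _ => mul_nonneg (ih i k) (hM k j)

/-- Asymptotics of `M ^ n v`. -/
theorem limit_exists {M : Matrix (Fin d) (Fin d) ℤ} {r : ℝ} (hM : PisotMat M r) (v : Fin d → ℝ) :
    ∃ (P : Fin d → ℝ) (C θ : ℝ), 0 ≤ C ∧ 0 < θ ∧ θ < 1 ∧
      mR M *ᵥ P = r • P ∧
      ∀ n : ℕ, ‖(mR M ^ n) *ᵥ v - (r ^ n) • P‖ ≤ C * θ ^ n := by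
  obtain ⟨C, θ, hC, h0, h1, hdec⟩ := decay_real hM v
  have hr : 0 < r := by linarith [hM.one_lt]
  set u : ℕ → (Fin d → ℝ) := fun n => (r ^ n)⁻¹ • ((mR M ^ n) *ᵥ v) with hu
  have hθr : θ / r < 1 := by
    rw [div_lt_one hr]
    linarith [hM.one_lt]
  have hθr0 : 0 ≤ θ / r := by positivity
  have hrec : ∀ n, u (n + 1) - u n = (r ^ (n + 1))⁻¹ • ((mR M ^ n) *ᵥ (mR M *ᵥ v - r • v)) := by
    intro n
    simp only [hu]
    rw [Matrix.mulVec_sub, Matrix.mulVec_smul, Matrix.mulVec_mulVec, ← pow_succ, smul_sub,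
      smul_smul]
    congr 2
    rw [pow_succ]
    field_simp
  have hdist : ∀ n, dist (u n) (u (n + 1)) ≤ (C / r) * (θ / r) ^ n := by
    intro n
    rw [dist_comm, dist_eq_norm, hrec, norm_smul, norm_inv, norm_pow, Real.norm_of_nonneg hr.le]
    calc (r ^ (n + 1))⁻¹ * ‖(mR M ^ n) *ᵥ (mR M *ᵥ v - r • v)‖
        ≤ (r ^ (n + 1))⁻¹ * (C * θ ^ n) := by
          gcongr
          exact hdec n
      _ = (C / r) * (θ / r) ^ n := by
          rw [pow_succ, div_pow]
          field_simp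
  have hcauchy : CauchySeq u := cauchySeq_of_le_geometric (θ / r) (C / r) hθr hdist
  obtain ⟨P, hP⟩ := cauchySeq_tendsto_of_complete hcauchy
  have hbound := fun n => dist_le_of_le_geometric_of_tendsto (θ / r) (C / r) hθr hdist hP n
  have hPM : mR M *ᵥ P = r • P := by
    have h2 : Tendsto (fun n => mR M *ᵥ (u n)) atTop (𝓝 (mR M *ᵥ P)) := by
      have hc : Continuous (fun w : Fin d → ℝ => mR M *ᵥ w) :=
        (Matrix.mulVecLin (mR M)).continuous_of_finiteDimensional
      exact (hc.tendsto P).comp hP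
    have h3 : Tendsto (fun n => r • (u (n + 1))) atTop (𝓝 (r • P)) :=
      ((tendsto_add_atTop_iff_nat 1).2 hP).const_smul r
    have h4 : (fun n => mR M *ᵥ (u n)) = fun n => r • (u (n + 1)) := by
      funext n
      simp only [hu]
      rw [Matrix.mulVec_smul, Matrix.mulVec_mulVec, ← pow_succ', smul_smul]
      congr 1
      rw [pow_succ]
      field_simp
    rw [h4] at h2
    exact tendsto_nhds_unique h2 h3
  refine ⟨P, (C / r) / (1 - θ / r), θ, ?_, h0, h1, hPM, fun n => ?_⟩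
  · apply div_nonneg (by positivity)
    linarith
  · have h2 := hbound n
    rw [dist_eq_norm] at h2
    have h3 : (mR M ^ n) *ᵥ v - (r ^ n) • P = (r ^ n) • (u n - P) := by
      simp only [hu]
      rw [smul_sub, smul_smul, mul_inv_cancel₀ (by positivity), one_smul]
    rw [h3, norm_smul, norm_pow, Real.norm_of_nonneg hr.le]
    calc r ^ n * ‖u n - P‖ ≤ r ^ n * ((C / r) * (θ / r) ^ n / (1 - θ / r)) := by
          gcongr
      _ = (C / r) / (1 - θ / r) * θ ^ n := by
          rw [div_pow]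
          field_simp

/-- If `N v = r v` with `v` nonnegative and nonzero then `v` is positive. -/
theorem pos_of_eigen {N : Matrix (Fin d) (Fin d) ℤ} {r : ℝ} (hN : PisotMat N r) {v : Fin d → ℝ}
    (hv : mR N *ᵥ v = r • v) (hv0 : v ≠ 0) (hnn : ∀ i, 0 ≤ v i) : ∀ i, 0 < v i := by
  intro i
  rcases (hnn i).lt_or_eq with h | h
  · exact h
  · exfalso
    have h1 := indep hN.irr hv hv0 (Pi.single i 1) (by
      rw [Finset.sum_eq_single i]
      · simp [← h]
      · intro j _ hj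
        simp [hj]
      · simp)
    have := congrFun h1 i
    simp at this

/-- Perron data. -/
structure PerronData (M : Matrix (Fin d) (Fin d) ℤ) (r : ℝ) (f l : Fin d → ℝ) (C θ : ℝ) : Prop where
  hC : 0 ≤ C
  θ_pos : 0 < θ
  θ_lt : θ < 1
  f_pos : ∀ i, 0 < f i
  f_sum : ∑ i, f i = 1
  l_pos : ∀ i, 0 < l i
  hf : mR M *ᵥ f = r • f
  hl : l ᵥ* mR M = r • l
  bound : ∀ (n : ℕ) (j : Fin d), ‖(mR M ^ n) *ᵥ bv j - (r ^ n * l j) • f‖ ≤ C * θ ^ n

theorem perron_exists [NeZero d] {M : Matrix (Fin d) (Fin d) ℤ} {r : ℝ} (hM : PisotMat M r) :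
    ∃ (f l : Fin d → ℝ) (C θ : ℝ), PerronData M r f l C θ := by
  classical
  have hr : 0 < r := by linarith [hM.one_lt]
  choose P C θ hC h0 h1 hPM hb using fun j : Fin d => limit_exists hM (bv j)
  -- the limit vectors are nonnegative
  have hlim : ∀ i j, Tendsto (fun n : ℕ => (r ^ n)⁻¹ * (((M ^ n) i j : ℤ) : ℝ)) atTop
      (𝓝 (P j i)) := by
    intro i j
    rw [tendsto_iff_norm_sub_tendsto_zero]
    refine squeeze_zero (fun n => norm_nonneg _) (fun n => ?_)
      (g := fun n : ℕ => C j * (θ j / r) ^ n) ?_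
    · have h2 := (norm_le_pi_norm ((mR M ^ n) *ᵥ bv j - (r ^ n) • P j) i).trans (hb j n)
      rw [Pi.sub_apply, mR_mulVec_bv, Pi.smul_apply, smul_eq_mul] at h2
      have h3 : (r ^ n)⁻¹ * (((M ^ n) i j : ℤ) : ℝ) - P j i =
          (r ^ n)⁻¹ * ((((M ^ n) i j : ℤ) : ℝ) - r ^ n * P j i) := by
        field_simp
      rw [h3, norm_mul, norm_inv, norm_pow, Real.norm_of_nonneg hr.le]
      calc (r ^ n)⁻¹ * ‖(((M ^ n) i j : ℤ) : ℝ) - r ^ n * P j i‖ ≤ (r ^ n)⁻¹ * (C j * θ j ^ n) := by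
            gcongr
        _ = C j * (θ j / r) ^ n := by
            rw [div_pow]
            field_simp
    · have h2 : θ j / r < 1 := by
        rw [div_lt_one hr]
        linarith [h1 j, hM.one_lt]
      have h3 : 0 ≤ θ j / r := div_nonneg (h0 j).le hr.le
      simpa using (tendsto_pow_atTop_nhds_zero_of_lt_one h3 h2).const_mul (C j)
  have hPnn : ∀ i j, 0 ≤ P j i := by
    intro i j
    refine ge_of_tendsto' (hlim i j) fun n => ?_
    have := pow_nonneg' hM.nonneg n i j
    have h2 : (0 : ℝ) ≤ (((M ^ n) i j : ℤ) : ℝ) := by exact_mod_cast this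
    positivity
  -- some limit vector is nonzero
  have hex : ∃ j0, P j0 ≠ 0 := by
    by_contra hcon
    push Not at hcon
    have hsmall : ∀ j : Fin d, ∀ᶠ n : ℕ in atTop, ∀ i, (M ^ n) i j = 0 := by
      intro j
      have h2 : Tendsto (fun n : ℕ => C j * θ j ^ n) atTop (𝓝 0) := by
        simpa using (tendsto_pow_atTop_nhds_zero_of_lt_one (h0 j).le (h1 j)).const_mul (C j)
      filter_upwards [h2.eventually (gt_mem_nhds (show (0 : ℝ) < 1 by norm_num))] with n hn i
      have h3 := (norm_le_pi_norm ((mR M ^ n) *ᵥ bv j - (r ^ n) • P j) i).trans (hb j n)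
      rw [hcon j, smul_zero, sub_zero, mR_mulVec_bv] at h3
      have h4 : ‖(((M ^ n) i j : ℤ) : ℝ)‖ < 1 := lt_of_le_of_lt h3 hn
      rw [Real.norm_eq_abs, ← Int.cast_abs] at h4
      have h5 : |(M ^ n) i j| < 1 := by exact_mod_cast h4
      exact Int.abs_lt_one_iff.1 h5
    have hall : ∀ᶠ n : ℕ in atTop, ∀ j, ∀ i, (M ^ n) i j = 0 := Filter.eventually_all.2 hsmall
    obtain ⟨n, hn⟩ := hall.exists
    have hzero : M ^ n = 0 := by
      ext i j
      exact hn j i
    have hdet : (M ^ n).det = 0 := by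
      rw [hzero]
      exact Matrix.det_zero
    rw [Matrix.det_pow] at hdet
    rcases hM.det with h | h
    · rw [h] at hdet
      simp at hdet
    · rw [h] at hdet
      have : ((-1 : ℤ)) ^ n ≠ 0 := pow_ne_zero _ (by norm_num)
      exact this hdet
  obtain ⟨j0, hj0⟩ := hex
  have hpos0 := pos_of_eigen hM (hPM j0) hj0 (fun i => hPnn i j0)
  set S : ℝ := ∑ i, P j0 i with hS
  have hSpos : 0 < S := Finset.sum_pos (fun i _ => hpos0 i) ⟨0, Finset.mem_univ _⟩
  set f : Fin d → ℝ := S⁻¹ • P j0 with hf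
  have hfpos : ∀ i, 0 < f i := fun i => mul_pos (inv_pos.2 hSpos) (hpos0 i)
  have hfsum : ∑ i, f i = 1 := by
    simp only [hf, Pi.smul_apply, smul_eq_mul]
    rw [← Finset.mul_sum, ← hS, inv_mul_cancel₀ hSpos.ne']
  have hfM : mR M *ᵥ f = r • f := by
    rw [hf, Matrix.mulVec_smul, hPM, smul_comm]
  set l : Fin d → ℝ := fun j => ∑ i, P j i with hl
  have hPl : ∀ j, P j = l j • f := by
    intro j
    set c : ℝ := P j 0 / f 0 with hc
    have hdiff : P j - c • f = 0 := by
      by_contra hne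
      have heig : mR M *ᵥ (P j - c • f) = r • (P j - c • f) := by
        rw [Matrix.mulVec_sub, Matrix.mulVec_smul, hPM, hfM, smul_sub, smul_comm]
      have h2 := indep hM.irr heig hne (Pi.single 0 1) (by
        rw [Finset.sum_eq_single 0]
        · simp only [Pi.single_eq_same, Int.cast_one, Pi.sub_apply, Pi.smul_apply, smul_eq_mul,
            one_mul, hc]
          rw [div_mul_cancel₀ _ (hfpos 0).ne', sub_self]
        · intro j _ hj
          simp [hj]
        · simp)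
      have := congrFun h2 0
      simp at this
    have h2 : P j = c • f := sub_eq_zero.1 hdiff
    have h3 : l j = c := by
      simp only [hl]
      rw [h2]
      simp only [Pi.smul_apply, smul_eq_mul]
      rw [← Finset.mul_sum, hfsum, mul_one]
    rw [h3]
    exact h2
  have hlnn : ∀ j, 0 ≤ l j := fun j => Finset.sum_nonneg fun i _ => hPnn i j
  have hlne : l ≠ 0 := by
    intro h
    apply hj0
    rw [hPl j0, h]
    simp
  -- `l` is a left eigenvector
  have hPlin : ∀ j, ∑ k, ((M k j : ℤ) : ℝ) * l k = r * l j := by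
    intro j
    -- `P (M e_j) = r P e_j`
    have h2 : Tendsto (fun n : ℕ => ∑ k, ((M k j : ℤ) : ℝ) * ((r ^ n)⁻¹ * (((M ^ n) 0 k : ℤ) : ℝ)))
        atTop (𝓝 (∑ k, ((M k j : ℤ) : ℝ) * P k 0)) :=
      tendsto_finsetSum _ fun k _ => (hlim 0 k).const_mul _
    have h3 : Tendsto (fun n : ℕ => r * ((r ^ (n + 1))⁻¹ * (((M ^ (n + 1)) 0 j : ℤ) : ℝ))) atTop
        (𝓝 (r * P j 0)) :=
      ((tendsto_add_atTop_iff_nat 1).2 (hlim 0 j)).const_mul r
    have h4 : (fun n : ℕ => ∑ k, ((M k j : ℤ) : ℝ) * ((r ^ n)⁻¹ * (((M ^ n) 0 k : ℤ) : ℝ))) =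
        fun n : ℕ => r * ((r ^ (n + 1))⁻¹ * (((M ^ (n + 1)) 0 j : ℤ) : ℝ)) := by
      funext n
      rw [pow_succ M n, Matrix.mul_apply]
      push_cast
      rw [Finset.mul_sum, Finset.mul_sum]
      refine Finset.sum_congr rfl fun k _ => ?_
      rw [pow_succ]
      field_simp
    rw [h4] at h2
    have h5 := tendsto_nhds_unique h2 h3
    have h6 : ∀ k, P k 0 = l k * f 0 := by
      intro k
      rw [hPl k]
      rfl
    simp only [h6] at h5
    have h7 : (∑ k, ((M k j : ℤ) : ℝ) * l k) * f 0 = (r * l j) * f 0 := by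
      rw [Finset.sum_mul]
      rw [mul_assoc, ← h5]
      refine Finset.sum_congr rfl fun k _ => ?_
      ring
    exact mul_right_cancel₀ (hfpos 0).ne' h7
  have hlM : l ᵥ* mR M = r • l := by
    ext j
    rw [Matrix.vecMul, dotProduct]
    simp only [mR, Matrix.map_apply, Int.coe_castRingHom, Pi.smul_apply, smul_eq_mul]
    rw [← hPlin j]
    refine Finset.sum_congr rfl fun k _ => ?_
    ring
  have hlpos : ∀ i, 0 < l i := by
    have h2 : mR Mᵀ *ᵥ l = r • l := by
      have h3 : mR Mᵀ = (mR M)ᵀ := by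
        ext i j
        simp [mR]
      rw [h3, Matrix.mulVec_transpose]
      exact hlM
    exact pos_of_eigen (transpose_pisot hM) h2 hlne hlnn
  -- uniform constants
  set C' : ℝ := ∑ j, C j with hC'
  set θ' : ℝ := Finset.univ.sup' Finset.univ_nonempty θ with hθ'
  have hθle : ∀ j, θ j ≤ θ' := fun j => Finset.le_sup' θ (Finset.mem_univ j)
  refine ⟨f, l, C', θ', Finset.sum_nonneg fun j _ => hC j, lt_of_lt_of_le (h0 0) (hθle 0), ?_,
    hfpos, hfsum, hlpos, hfM, hlM, ?_⟩
  · rw [hθ', Finset.sup'_lt_iff]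
    intro j _
    exact h1 j
  · intro n j
    have h2 := hb j n
    rw [hPl j, smul_smul] at h2
    refine h2.trans ?_
    have h3 : C j ≤ C' := Finset.single_le_sum (fun i _ => hC i) (Finset.mem_univ j)
    have h4 : θ j ^ n ≤ θ' ^ n := pow_le_pow_left₀ (h0 j).le (hθle j) n
    have h5 : 0 ≤ θ j ^ n := pow_nonneg (h0 j).le n
    exact mul_le_mul h3 h4 h5 (Finset.sum_nonneg fun j _ => hC j)

end Pool.Agent.Helper94_Pisot
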