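import Mathlib
import Pool.Agent.Helper94_Pisot.Spectral

/-!
# Words, abelianization, iterates of a substitution
-/

set_option autoImplicit false

namespace Pool.Agent.Helper94_Pisot

open Matrix Filter Topology

variable {d : ℕ}

/-- abelianization of a word -/
def ab (w : List (Fin d)) : Fin d → ℤ := fun i => (w.count i : ℤ)

/-- the iterated substitution -/
def it (σ : Fin d → List (Fin d)) (n : ℕ) (w : List (Fin d)) : List (Fin d) :=
  (fun w : List (Fin d) => w.flatMap σ)^[n] w

/-- a word occurs in some `σ^n(a)`, `n ≥ 1` -/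
def Lang (σ : Fin d → List (Fin d)) (w : List (Fin d)) : Prop :=
  ∃ (n : ℕ) (a : Fin d), 1 ≤ n ∧ w <:+: it σ n [a]

@[simp] theorem ab_nil : ab ([] : List (Fin d)) = 0 := by
  ext i
  simp [ab]

theorem ab_append (u v : List (Fin d)) : ab (u ++ v) = ab u + ab v := by
  ext i
  simp [ab]

theorem ab_cons (a : Fin d) (v : List (Fin d)) : ab (a :: v) = Pi.single a 1 + ab v := by
  ext i
  simp only [ab, List.count_cons, Pi.add_apply, Pi.single_apply, beq_iff_eq]
  push_cast
  rw [add_comm]
  congr 1
  by_cases h : i = a
  · simp [h]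
  · simp [h, Ne.symm h]

theorem ab_singleton (a : Fin d) : ab [a] = Pi.single a 1 := by
  rw [ab_cons, ab_nil, add_zero]

theorem ab_nonneg (w : List (Fin d)) (i : Fin d) : 0 ≤ ab w i := by
  simp [ab]

theorem sum_ab (w : List (Fin d)) : ∑ i, ab w i = (w.length : ℤ) := by
  induction w with
  | nil => simp
  | cons a w ih =>
    rw [ab_cons]
    simp only [Pi.add_apply, Finset.sum_add_distrib, ih, List.length_cons]
    rw [Finset.sum_pi_single']
    simp
    ring

section iter

variable (σ : Fin d → List (Fin d))

@[simp] theorem it_zero (w : List (Fin d)) : it σ 0 w = w := rfl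

theorem it_succ (n : ℕ) (w : List (Fin d)) : it σ (n + 1) w = it σ n (w.flatMap σ) := rfl

theorem it_succ' (n : ℕ) (w : List (Fin d)) : it σ (n + 1) w = (it σ n w).flatMap σ := by
  simp [it, Function.iterate_succ_apply']

theorem it_add (m n : ℕ) (w : List (Fin d)) : it σ (m + n) w = it σ m (it σ n w) := by
  simp [it, Function.iterate_add_apply]

theorem it_append (n : ℕ) (u v : List (Fin d)) : it σ n (u ++ v) = it σ n u ++ it σ n v := by
  induction n generalizing u v with
  | zero => simp
  | succ n ih => rw [it_succ, it_succ, it_succ, List.flatMap_append, ih]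

@[simp] theorem it_nil (n : ℕ) : it σ n [] = [] := by
  induction n with
  | zero => simp
  | succ n ih => rw [it_succ]; simpa using ih

theorem it_cons (n : ℕ) (a : Fin d) (v : List (Fin d)) :
    it σ n (a :: v) = it σ n [a] ++ it σ n v := by
  rw [← it_append]
  rfl

theorem it_eq_flatMap (n : ℕ) (w : List (Fin d)) :
    it σ n w = w.flatMap (fun a => it σ n [a]) := by
  induction w with
  | nil => simp
  | cons a w ih => rw [it_cons, List.flatMap_cons, ih]

end iter

/-- Incidence matrix of a substitution -/
structure Sub (σ : Fin d → List (Fin d)) (M : Matrix (Fin d) (Fin d) ℤ) : Prop where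
  ne_nil : ∀ a, σ a ≠ []
  inc : ∀ i j, M i j = ((σ j).count i : ℤ)

section sub

variable {σ : Fin d → List (Fin d)} {M : Matrix (Fin d) (Fin d) ℤ} (hσ : Sub σ M)

include hσ

theorem ab_sigma (a : Fin d) : ab (σ a) = M *ᵥ (Pi.single a 1) := by
  ext i
  rw [Matrix.mulVec_single_one]
  simp [ab, hσ.inc]

theorem ab_flatMap (w : List (Fin d)) : ab (w.flatMap σ) = M *ᵥ ab w := by
  induction w with
  | nil => simp
  | cons a w ih =>
    rw [List.flatMap_cons, ab_append, ih, ab_cons, Matrix.mulVec_add, ab_sigma hσ]

theorem ab_it (n : ℕ) (w : List (Fin d)) : ab (it σ n w) = (M ^ n) *ᵥ ab w := by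
  induction n generalizing w with
  | zero => simp
  | succ n ih => rw [it_succ, ih, ab_flatMap hσ, Matrix.mulVec_mulVec, pow_succ]

theorem length_flatMap_ge (w : List (Fin d)) : w.length ≤ (w.flatMap σ).length := by
  induction w with
  | nil => simp
  | cons a w ih =>
    rw [List.flatMap_cons, List.length_append, List.length_cons]
    have := List.length_pos_iff.2 (hσ.ne_nil a)
    omega

theorem length_it_mono {m n : ℕ} (hmn : m ≤ n) (w : List (Fin d)) :
    (it σ m w).length ≤ (it σ n w).length := by
  induction n, hmn using Nat.le_induction with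
  | base => exact le_rfl
  | succ n _ ih =>
    refine ih.trans ?_
    rw [it_succ']
    exact length_flatMap_ge hσ _

theorem length_le_it (n : ℕ) (w : List (Fin d)) : w.length ≤ (it σ n w).length :=
  length_it_mono hσ (Nat.zero_le n) w

theorem it_pos (n : ℕ) (a : Fin d) : 0 < (it σ n [a]).length :=
  lt_of_lt_of_le (by simp) (length_le_it hσ n [a])

end sub

/-! ### Weights -/

/-- the weight `l · ab(w)` -/
noncomputable def wt (l : Fin d → ℝ) (w : List (Fin d)) : ℝ := ∑ i, l i * (ab w i : ℝ)

theorem wt_append (l : Fin d → ℝ) (u v : List (Fin d)) : wt l (u ++ v) = wt l u + wt l v := by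
  simp only [wt, ab_append, Pi.add_apply]
  push_cast
  rw [← Finset.sum_add_distrib]
  exact Finset.sum_congr rfl fun i _ => by ring

@[simp] theorem wt_nil (l : Fin d → ℝ) : wt l [] = 0 := by simp [wt]

theorem wt_singleton (l : Fin d → ℝ) (a : Fin d) : wt l [a] = l a := by
  simp only [wt, ab_singleton]
  rw [Finset.sum_eq_single a]
  · simp
  · intro j _ hj
    simp [hj]
  · simp

theorem wt_cons (l : Fin d → ℝ) (a : Fin d) (v : List (Fin d)) : wt l (a :: v) = l a + wt l v := by
  rw [← wt_singleton l a, ← wt_append]
  rfl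

theorem wt_flatMap {σ : Fin d → List (Fin d)} {M : Matrix (Fin d) (Fin d) ℤ} (hσ : Sub σ M)
    {l : Fin d → ℝ} {r : ℝ} (hl : l ᵥ* mR M = r • l) (w : List (Fin d)) :
    wt l (w.flatMap σ) = r * wt l w := by
  have h1 : ∀ j, ∑ i, l i * (M i j : ℝ) = r * l j := by
    intro j
    have h := congrFun hl j
    simpa [Matrix.vecMul, dotProduct, mR] using h
  simp only [wt, ab_flatMap hσ, Matrix.mulVec, dotProduct]
  push_cast
  simp only [Finset.mul_sum]
  rw [Finset.sum_comm]
  refine Finset.sum_congr rfl fun j _ => ?_
  rw [← mul_assoc, ← h1 j, Finset.sum_mul]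
  exact Finset.sum_congr rfl fun i _ => by ring

theorem wt_it {σ : Fin d → List (Fin d)} {M : Matrix (Fin d) (Fin d) ℤ} (hσ : Sub σ M)
    {l : Fin d → ℝ} {r : ℝ} (hl : l ᵥ* mR M = r • l) (n : ℕ) (w : List (Fin d)) :
    wt l (it σ n w) = r ^ n * wt l w := by
  induction n generalizing w with
  | zero => simp
  | succ n ih => rw [it_succ, ih, wt_flatMap hσ hl, pow_succ, mul_assoc]

theorem wt_le {l : Fin d → ℝ} {c : ℝ} (hc : ∀ i, l i ≤ c) (w : List (Fin d)) :
    wt l w ≤ c * w.length := by
  induction w with
  | nil => simp
  | cons a w ih =>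
    rw [wt_cons, List.length_cons]
    push_cast
    have := hc a
    linarith

theorem le_wt {l : Fin d → ℝ} {c : ℝ} (hc : ∀ i, c ≤ l i) (w : List (Fin d)) :
    c * w.length ≤ wt l w := by
  induction w with
  | nil => simp
  | cons a w ih =>
    rw [wt_cons, List.length_cons]
    push_cast
    have := hc a
    linarith

/-! ### Hamming distance of words -/

/-- number of positions (below the smaller length) in which two words differ -/
def ham : List (Fin d) → List (Fin d) → ℕ
  | a :: u, b :: v => (if a = b then 0 else 1) + ham u v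
  | [], _ => 0
  | _ :: _, [] => 0

@[simp] theorem ham_nil_left (v : List (Fin d)) : ham [] v = 0 := by
  cases v <;> rfl

@[simp] theorem ham_nil_right (v : List (Fin d)) : ham v [] = 0 := by
  cases v <;> rfl

@[simp] theorem ham_cons_cons (a b : Fin d) (u v : List (Fin d)) :
    ham (a :: u) (b :: v) = (if a = b then 0 else 1) + ham u v := rfl

@[simp] theorem ham_self (u : List (Fin d)) : ham u u = 0 := by
  induction u with
  | nil => rfl
  | cons a u ih => simp [ih]

theorem ham_append {u u' : List (Fin d)} (h : u.length = u'.length) (v v' : List (Fin d)) :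
    ham (u ++ v) (u' ++ v') = ham u u' + ham v v' := by
  induction u generalizing u' with
  | nil =>
    have : u' = [] := List.eq_nil_of_length_eq_zero (by simpa using h.symm)
    subst this
    simp
  | cons a u ih =>
    cases u' with
    | nil => simp at h
    | cons b u' =>
      simp only [List.length_cons, Nat.add_right_cancel_iff] at h
      simp only [List.cons_append, ham_cons_cons, ih h]
      ring

theorem ham_triangle (u v w : List (Fin d)) (h1 : u.length = v.length) (h2 : v.length = w.length) :
    ham u w ≤ ham u v + ham v w := by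
  induction u generalizing v w with
  | nil => simp
  | cons a u ih =>
    cases v with
    | nil => simp at h1
    | cons b v =>
      cases w with
      | nil => simp at h2
      | cons c w =>
        simp only [List.length_cons, Nat.add_right_cancel_iff] at h1 h2
        simp only [ham_cons_cons]
        have := ih v w h1 h2
        by_cases hab : a = b
        · by_cases hbc : b = c
          · simp [hab, hbc]
            omega
          · simp [hab, hbc]
            omega
        · have h3 : (if a = c then 0 else 1) ≤ 1 := by split_ifs <;> omega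
          simp only [hab, if_false]
          omega

theorem ham_le_length (u v : List (Fin d)) : ham u v ≤ u.length := by
  induction u generalizing v with
  | nil => simp
  | cons a u ih =>
    cases v with
    | nil => simp
    | cons b v =>
      simp only [ham_cons_cons, List.length_cons]
      have := ih v
      split_ifs <;> omega

/-- If `h` bounds the Hamming distances of `σ^J(ab)` and `σ^J(ba)` then it controls the Hamming
distance of images of permuted words. -/
theorem ham_perm (σ : Fin d → List (Fin d)) {u v : List (Fin d)}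
    (huv : u.Perm v) : ∃ c : ℕ, ∀ (J h : ℕ),
      (∀ a b, ham (it σ J [a, b]) (it σ J [b, a]) ≤ h) → ham (it σ J u) (it σ J v) ≤ c * h := by
  have hlen : ∀ {u v : List (Fin d)}, u.Perm v → ∀ J, (it σ J u).length = (it σ J v).length := by
    intro u v huv J
    rw [it_eq_flatMap, it_eq_flatMap]
    exact (huv.flatMap_right _).length_eq
  induction huv with
  | nil => exact ⟨0, fun J h _ => by simp⟩
  | @cons a l1 l2 _ ih =>
    obtain ⟨c, hc⟩ := ih
    refine ⟨c, fun J h hh => ?_⟩
    rw [it_cons σ J a l1, it_cons σ J a l2, ham_append rfl, ham_self, zero_add]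
    exact hc J h hh
  | swap a b l =>
    refine ⟨1, fun J h hh => ?_⟩
    have h1 : it σ J (b :: a :: l) = it σ J [b, a] ++ it σ J l := by
      rw [← it_append]; rfl
    have h2 : it σ J (a :: b :: l) = it σ J [a, b] ++ it σ J l := by
      rw [← it_append]; rfl
    rw [h1, h2, ham_append (hlen (List.Perm.swap a b []) J), ham_self, add_zero, one_mul]
    exact hh b a
  | trans h1 h2 ih1 ih2 =>
    obtain ⟨c1, hc1⟩ := ih1
    obtain ⟨c2, hc2⟩ := ih2
    refine ⟨c1 + c2, fun J h hh => ?_⟩
    rw [add_mul]
    exact (ham_triangle _ _ _ (hlen h1 J) (hlen h2 J)).trans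
      (add_le_add (hc1 J h hh) (hc2 J h hh))

theorem ham_perm_uniform (σ : Fin d → List (Fin d)) (n : ℕ) :
    ∃ c : ℕ, ∀ u v : List (Fin d), u.length ≤ n → u.Perm v → ∀ (J h : ℕ),
      (∀ a b, ham (it σ J [a, b]) (it σ J [b, a]) ≤ h) → ham (it σ J u) (it σ J v) ≤ c * h := by
  classical
  have hfin : {p : List (Fin d) × List (Fin d) | p.1.length ≤ n ∧ p.2.length ≤ n}.Finite := by
    have h1 := List.finite_length_le (Fin d) n
    exact (h1.prod h1).subset (fun p hp => hp)
  choose! c hc using fun (p : List (Fin d) × List (Fin d)) (hp : p.1.Perm p.2) => ham_perm σ hp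
  refine ⟨∑ p ∈ hfin.toFinset, c p, fun u v hu huv J h hh => ?_⟩
  refine (hc (u, v) huv J h hh).trans ?_
  refine Nat.mul_le_mul_right _ ?_
  refine Finset.single_le_sum (f := c) (fun _ _ => Nat.zero_le _) ?_
  rw [Set.Finite.mem_toFinset]
  exact ⟨hu, huv.length_eq ▸ hu⟩

theorem perm_of_ab {u v : List (Fin d)} (h : ab u = ab v) : u.Perm v := by
  rw [List.perm_iff_count]
  intro a
  have := congrFun h a
  simpa [ab] using this

end Pool.Agent.Helper94_Pisot
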