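import Mathlib
import Pool.Agent.Helper94_Pisot.Words

/-!
# Bounded discrepancy for words of the language
-/

set_option autoImplicit false

namespace Pool.Agent.Helper94_Pisot

open Matrix Filter Topology

variable {d : ℕ}

/-- All the standing data. -/
structure PData (σ : Fin d → List (Fin d)) (M : Matrix (Fin d) (Fin d) ℤ) (r : ℝ)
    (f l : Fin d → ℝ) (C θ : ℝ) : Prop where
  sub : Sub σ M
  pis : PisotMat M r
  per : PerronData M r f l C θ

/-- real abelianization -/
def abR (w : List (Fin d)) : Fin d → ℝ := fun i => (ab w i : ℝ)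

theorem abR_append (u v : List (Fin d)) : abR (u ++ v) = abR u + abR v := by
  ext i
  simp [abR, ab_append]

@[simp] theorem abR_nil : abR ([] : List (Fin d)) = 0 := by
  ext i
  simp [abR]

theorem abR_singleton (a : Fin d) : abR [a] = bv a := by
  ext i
  simp only [abR, ab_singleton, bv]
  by_cases h : i = a
  · subst h; simp
  · simp [h]

/-- the component of `ab w` along the contracting space -/
noncomputable def qv (l f : Fin d → ℝ) (w : List (Fin d)) : Fin d → ℝ := abR w - wt l w • f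

theorem qv_append (l f : Fin d → ℝ) (u v : List (Fin d)) :
    qv l f (u ++ v) = qv l f u + qv l f v := by
  simp only [qv, abR_append, wt_append, add_smul]
  abel

@[simp] theorem qv_nil (l f : Fin d → ℝ) : qv l f [] = 0 := by simp [qv]

theorem mR_pow (M : Matrix (Fin d) (Fin d) ℤ) (n : ℕ) :
    mR M ^ n = (M ^ n).map (Int.castRingHom ℝ) :=
  (map_pow (Int.castRingHom ℝ).mapMatrix M n).symm

theorem mR_mulVec_cast (M : Matrix (Fin d) (Fin d) ℤ) (n : ℕ) (v : Fin d → ℤ) :
    (mR M ^ n) *ᵥ (fun i => (v i : ℝ)) = fun i => (((M ^ n) *ᵥ v) i : ℝ) := by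
  rw [mR_pow]
  ext i
  simp [Matrix.mulVec, dotProduct]

theorem abR_it {σ : Fin d → List (Fin d)} {M : Matrix (Fin d) (Fin d) ℤ} (hσ : Sub σ M) (n : ℕ)
    (w : List (Fin d)) : abR (it σ n w) = (mR M ^ n) *ᵥ abR w := by
  have h := mR_mulVec_cast M n (ab w)
  change _ = (mR M ^ n) *ᵥ (fun i => ((ab w i : ℤ) : ℝ))
  rw [h]
  ext i
  simp [abR, ab_it hσ]

variable {σ : Fin d → List (Fin d)} {M : Matrix (Fin d) (Fin d) ℤ} {r : ℝ}
    {f l : Fin d → ℝ} {C θ : ℝ}

theorem norm_qv_it (D : PData σ M r f l C θ) (n : ℕ) (w : List (Fin d)) :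
    ‖qv l f (it σ n w)‖ ≤ w.length * (C * θ ^ n) := by
  induction w with
  | nil => simp
  | cons a w ih =>
    rw [it_cons, qv_append]
    refine (norm_add_le _ _).trans ?_
    have h1 : ‖qv l f (it σ n [a])‖ ≤ C * θ ^ n := by
      have h := D.per.bound n a
      rw [qv, abR_it D.sub, wt_it D.sub D.per.hl, wt_singleton, abR_singleton]
      exact h
    rw [List.length_cons]
    push_cast
    linarith

theorem prefix_append_split {β : Type*} {p u v : List β} (h : p <+: u ++ v) :
    p <+: u ∨ ∃ p', p = u ++ p' ∧ p' <+: v := by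
  rcases List.prefix_or_prefix_of_prefix h (List.prefix_append u v) with h1 | h1
  · exact Or.inl h1
  · right
    obtain ⟨p', hp'⟩ := h1
    refine ⟨p', hp'.symm, ?_⟩
    rw [← hp'] at h
    exact (List.prefix_append_right_inj u).1 h

/-- Prefixes of a concatenation of blocks. -/
theorem prefix_flatMap {α β : Type*} (g : α → List β) (w : List α) (p : List β)
    (h : p <+: w.flatMap g) :
    p = w.flatMap g ∨ ∃ u a v p', w = u ++ a :: v ∧ p = u.flatMap g ++ p' ∧ p' <+: g a := by
  induction w generalizing p with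
  | nil =>
    left
    simpa using h
  | cons b w ih =>
    rw [List.flatMap_cons] at h
    rcases prefix_append_split h with h1 | ⟨p2, hp2, h2⟩
    · right
      exact ⟨[], b, w, p, rfl, by simp, h1⟩
    · rcases ih p2 h2 with h3 | ⟨u, a, v, p', hw, hp, hp'⟩
      · left
        rw [hp2, h3, List.flatMap_cons]
      · right
        refine ⟨b :: u, a, v, p', ?_, ?_, hp'⟩
        · rw [hw]; rfl
        · rw [hp2, hp, List.flatMap_cons, List.append_assoc]

/-- a bound for the lengths of the images of the letters -/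
theorem exists_len_bound (σ : Fin d → List (Fin d)) : ∃ L : ℕ, 1 ≤ L ∧ ∀ a, (σ a).length ≤ L := by
  classical
  refine ⟨1 + ∑ a, (σ a).length, by omega, fun a => ?_⟩
  have := Finset.single_le_sum (f := fun a => (σ a).length) (fun _ _ => Nat.zero_le _)
    (Finset.mem_univ a)
  omega

theorem q_prefix_bound (D : PData σ M r f l C θ) {L : ℕ} (hL : ∀ a, (σ a).length ≤ L) (n : ℕ) :
    ∀ (a : Fin d) (p : List (Fin d)), p <+: it σ n [a] →
      ‖qv l f p‖ ≤ C + ∑ i ∈ Finset.range n, L * (C * θ ^ i) := by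
  induction n with
  | zero =>
    intro a p hp
    rw [it_zero] at hp
    have h0 : 0 ≤ C := D.per.hC
    have h1 := norm_qv_it D 0 p
    rw [it_zero, pow_zero, mul_one] at h1
    have h2 : p.length ≤ 1 := hp.length_le
    have h3 : (p.length : ℝ) ≤ 1 := by exact_mod_cast h2
    simp only [Finset.range_zero, Finset.sum_empty, add_zero]
    nlinarith
  | succ n ih =>
    intro a p hp
    have hC := D.per.hC
    have hθ := D.per.θ_pos
    rw [it_succ] at hp
    have hσa : ([a] : List (Fin d)).flatMap σ = σ a := by simp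
    rw [hσa, it_eq_flatMap] at hp
    rw [Finset.sum_range_succ, ← add_assoc]
    have hnn : 0 ≤ C + ∑ i ∈ Finset.range n, L * (C * θ ^ i) := by
      apply add_nonneg hC
      apply Finset.sum_nonneg
      intro i _
      positivity
    rcases prefix_flatMap _ _ _ hp with h1 | ⟨u, b, v, p', hw, hpe, hp'⟩
    · rw [h1, ← it_eq_flatMap]
      have h2 := norm_qv_it D n (σ a)
      have h3 : ((σ a).length : ℝ) ≤ L := by exact_mod_cast hL a
      have h4 : ((σ a).length : ℝ) * (C * θ ^ n) ≤ L * (C * θ ^ n) := by gcongr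
      linarith
    · rw [hpe, ← it_eq_flatMap, qv_append]
      refine (norm_add_le _ _).trans ?_
      have h2 := norm_qv_it D n u
      have h5 : u.length ≤ (σ a).length := by rw [hw]; simp
      have h3 : (u.length : ℝ) ≤ L := by exact_mod_cast h5.trans (hL a)
      have h4 : (u.length : ℝ) * (C * θ ^ n) ≤ L * (C * θ ^ n) := by gcongr
      have h6 := ih b p' hp'
      linarith

theorem q_bound (D : PData σ M r f l C θ) :
    ∃ C1 : ℝ, 0 ≤ C1 ∧ ∀ w, Lang σ w → ‖qv l f w‖ ≤ C1 := by
  obtain ⟨L, _, hL⟩ := exists_len_bound σ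
  have hC := D.per.hC
  have hθ := D.per.θ_pos
  have hθ1 := D.per.θ_lt
  set B : ℝ := C + L * (C * (1 - θ)⁻¹) with hB
  have hB0 : 0 ≤ B := by
    have : 0 ≤ (1 - θ)⁻¹ := inv_nonneg.2 (by linarith)
    positivity
  have hpre : ∀ (n : ℕ) (a : Fin d) (p : List (Fin d)), p <+: it σ n [a] → ‖qv l f p‖ ≤ B := by
    intro n a p hp
    refine (q_prefix_bound D hL n a p hp).trans ?_
    rw [hB, ← Finset.mul_sum, ← Finset.mul_sum]
    have h1 : ∑ i ∈ Finset.range n, θ ^ i ≤ (1 - θ)⁻¹ := by
      rw [← tsum_geometric_of_lt_one hθ.le hθ1]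
      exact (summable_geometric_of_lt_one hθ.le hθ1).sum_le_tsum _ (fun i _ => by positivity)
    gcongr
  refine ⟨B + B, by linarith, ?_⟩
  rintro w ⟨n, a, _, s, t, hst⟩
  have h1 : ‖qv l f (s ++ w)‖ ≤ B := hpre n a _ ⟨t, hst⟩
  have h2 : ‖qv l f s‖ ≤ B := hpre n a _ ⟨w ++ t, by rw [← List.append_assoc]; exact hst⟩
  rw [qv_append] at h1
  have h3 : qv l f w = (qv l f s + qv l f w) - qv l f s := by abel
  rw [h3]
  exact (norm_sub_le _ _).trans (add_le_add h1 h2)

theorem sum_abR (w : List (Fin d)) : ∑ i, abR w i = w.length := by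
  have := sum_ab w
  simp only [abR]
  exact_mod_cast this

theorem disc_bound (D : PData σ M r f l C θ) :
    ∃ C2 : ℝ, 0 ≤ C2 ∧ ∀ w, Lang σ w → ∀ i, |abR w i - w.length * f i| ≤ C2 := by
  obtain ⟨C1, hC1, hq⟩ := q_bound D
  refine ⟨C1 + d * C1, by positivity, fun w hw i => ?_⟩
  have h1 := hq w hw
  have hfi : f i ≤ 1 := by
    rw [← D.per.f_sum]
    exact Finset.single_le_sum (fun j _ => (D.per.f_pos j).le) (Finset.mem_univ i)
  have hf0 := D.per.f_pos i
  have hsum : ∑ j, qv l f w j = w.length - wt l w := by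
    simp only [qv, Pi.sub_apply, Pi.smul_apply, smul_eq_mul, Finset.sum_sub_distrib]
    rw [sum_abR, ← Finset.mul_sum, D.per.f_sum, mul_one]
  have hcomp : ∀ j, |qv l f w j| ≤ C1 := fun j => (norm_le_pi_norm (qv l f w) j).trans h1
  have heq : abR w i - w.length * f i = qv l f w i - (∑ j, qv l f w j) * f i := by
    rw [hsum]
    simp only [qv, Pi.sub_apply, Pi.smul_apply, smul_eq_mul]
    ring
  rw [heq]
  have h2 : |∑ j, qv l f w j| ≤ d * C1 := by
    refine (Finset.abs_sum_le_sum_abs _ _).trans ?_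
    refine (Finset.sum_le_sum fun j _ => hcomp j).trans ?_
    simp
  calc |qv l f w i - (∑ j, qv l f w j) * f i|
      ≤ |qv l f w i| + |(∑ j, qv l f w j) * f i| := abs_sub _ _
    _ ≤ C1 + d * C1 := by
      rw [abs_mul, abs_of_pos hf0]
      have h3 : |∑ j, qv l f w j| * f i ≤ (d * C1) * 1 := by
        gcongr
      linarith [hcomp i]

/-! ### Lengths of iterates -/

theorem length_bounds [NeZero d] (D : PData σ M r f l C θ) :
    ∃ c1 c2 : ℝ, 0 < c1 ∧ 0 < c2 ∧ ∀ (n : ℕ) (a : Fin d),
      c1 * r ^ n ≤ (it σ n [a]).length ∧ ((it σ n [a]).length : ℝ) ≤ c2 * r ^ n := by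
  classical
  set mx : ℝ := Finset.univ.sup' Finset.univ_nonempty l with hmx
  set mn : ℝ := Finset.univ.inf' Finset.univ_nonempty l with hmn
  have h1 : ∀ i, l i ≤ mx := fun i => Finset.le_sup' l (Finset.mem_univ i)
  have h2 : ∀ i, mn ≤ l i := fun i => Finset.inf'_le l (Finset.mem_univ i)
  have hmn0 : 0 < mn := by
    obtain ⟨i, _, hi⟩ := Finset.exists_mem_eq_inf' Finset.univ_nonempty l
    rw [hmn, hi]
    exact D.per.l_pos i
  have hmx0 : 0 < mx := hmn0.trans_le ((h2 0).trans (h1 0))
  have hr : 0 < r := by linarith [D.pis.one_lt]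
  refine ⟨mn / mx, mx / mn, by positivity, by positivity, fun n a => ⟨?_, ?_⟩⟩
  · have h3 := wt_le h1 (it σ n [a])
    rw [wt_it D.sub D.per.hl, wt_singleton] at h3
    rw [div_mul_eq_mul_div, div_le_iff₀ hmx0]
    have h4 : mn * r ^ n ≤ r ^ n * l a := by
      rw [mul_comm]
      gcongr
      exact h2 a
    linarith
  · have h3 := le_wt h2 (it σ n [a])
    rw [wt_it D.sub D.per.hl, wt_singleton] at h3
    rw [div_mul_eq_mul_div, le_div_iff₀ hmn0]
    have h4 : r ^ n * l a ≤ mx * r ^ n := by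
      rw [mul_comm]
      gcongr
      exact h1 a
    linarith

/-- Primitivity. -/
theorem primitive [NeZero d] (D : PData σ M r f l C θ) :
    ∃ N : ℕ, ∀ n, N ≤ n → ∀ i j : Fin d, i ∈ it σ n [j] := by
  have hr : 1 < r := D.pis.one_lt
  have hpt : ∀ i j : Fin d, ∀ᶠ n : ℕ in atTop, i ∈ it σ n [j] := by
    intro i j
    have hpos : 0 < l j * f i := mul_pos (D.per.l_pos j) (D.per.f_pos i)
    have h1 : Tendsto (fun n : ℕ => r ^ n * (l j * f i)) atTop atTop :=
      (tendsto_pow_atTop_atTop_of_one_lt hr).atTop_mul_const hpos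
    filter_upwards [h1.eventually (eventually_gt_atTop C)] with n hn
    have h2 := (norm_le_pi_norm _ i).trans (D.per.bound n j)
    have h3 : C * θ ^ n ≤ C := by
      have : θ ^ n ≤ 1 := pow_le_one₀ D.per.θ_pos.le D.per.θ_lt.le
      nlinarith [D.per.hC]
    rw [Pi.sub_apply, Pi.smul_apply, smul_eq_mul, Real.norm_eq_abs] at h2
    have h4 := (abs_le.1 h2).1
    have h5 : 0 < ((mR M ^ n) *ᵥ bv j) i := by
      nlinarith
    rw [← abR_singleton, ← abR_it D.sub] at h5
    simp only [abR, ab] at h5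
    have h6 : 0 < (it σ n [j]).count i := by exact_mod_cast h5
    exact List.count_pos_iff.1 h6
  have hall : ∀ᶠ n : ℕ in atTop, ∀ i j : Fin d, i ∈ it σ n [j] :=
    eventually_all.2 fun i => eventually_all.2 fun j => hpt i j
  exact eventually_atTop.1 hall

end Pool.Agent.Helper94_Pisot
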