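import Mathlib
import Pool.Agent.Helper94_Pisot.Discrepancy

/-!
# The subshift: windows, uniform recurrence, desubstitution
-/

set_option autoImplicit false

namespace Pool.Agent.Helper94_Pisot

open Matrix Filter Topology

variable {d : ℕ}

/-! ### Windows -/

/-- the window of length `k` starting at `i` -/
def win (x : ℤ → Fin d) (i : ℤ) (k : ℕ) : List (Fin d) :=
  List.ofFn (fun j : Fin k => x (i + ((j : ℕ) : ℤ)))

@[simp] theorem win_length (x : ℤ → Fin d) (i : ℤ) (k : ℕ) : (win x i k).length = k := by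
  simp [win]

@[simp] theorem win_zero (x : ℤ → Fin d) (i : ℤ) : win x i 0 = [] := by
  simp [win]

theorem win_getElem (x : ℤ → Fin d) (i : ℤ) (k j : ℕ) (hj : j < (win x i k).length) :
    (win x i k)[j] = x (i + j) := by
  simp [win]

theorem eq_win_iff (x : ℤ → Fin d) (i : ℤ) (w : List (Fin d)) :
    win x i w.length = w ↔ ∀ (j : ℕ) (hj : j < w.length), x (i + j) = w[j] := by
  constructor
  · intro h j hj
    have h1 := win_getElem x i w.length j (by simpa using hj)
    rw [← h1]
    simp only [h]
  · intro h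
    apply List.ext_getElem
    · simp
    · intro j h1 h2
      rw [win_getElem]
      exact h j h2

theorem win_congr {x y : ℤ → Fin d} {i i' : ℤ} {k : ℕ}
    (h : ∀ j : ℕ, j < k → x (i + j) = y (i' + j)) : win x i k = win y i' k := by
  apply List.ext_getElem
  · simp
  · intro j h1 h2
    rw [win_getElem, win_getElem]
    exact h j (by simpa using h1)

theorem win_congr_iff {x y : ℤ → Fin d} {i i' : ℤ} {k : ℕ} :
    win x i k = win y i' k ↔ ∀ j : ℕ, j < k → x (i + j) = y (i' + j) := by
  constructor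
  · intro h j hj
    have h1 := win_getElem x i k j (by simpa using hj)
    have h2 := win_getElem y i' k j (by simpa using hj)
    rw [← h1, ← h2]
    simp only [h]
  · exact win_congr

theorem win_add (x : ℤ → Fin d) (i : ℤ) (k m : ℕ) :
    win x i (k + m) = win x i k ++ win x (i + k) m := by
  apply List.ext_getElem
  · simp
  · intro j h1 h2
    rw [win_getElem, List.getElem_append]
    split_ifs with h
    · rw [win_getElem]
    · rw [win_getElem]
      congr 1
      simp only [win_length, not_lt] at h ⊢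
      omega

theorem win_one (x : ℤ → Fin d) (i : ℤ) : win x i 1 = [x i] := by
  simp [win]

theorem win_succ (x : ℤ → Fin d) (i : ℤ) (k : ℕ) : win x i (k + 1) = win x i k ++ [x (i + k)] := by
  rw [win_add, win_one]

theorem win_infix (x : ℤ → Fin d) {i : ℤ} {k : ℕ} {i' : ℤ} {k' : ℕ} (h1 : i ≤ i')
    (h2 : i' + k' ≤ i + k) : win x i' k' <:+: win x i k := by
  obtain ⟨a, ha⟩ := Int.le.dest h1
  obtain ⟨b, hb⟩ := Int.le.dest h2
  have hk : k = a + (k' + b) := by omega
  subst hk
  rw [win_add, win_add, ha]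
  exact ⟨win x i a, win x (i' + k') b, by simp⟩

theorem infix_win {x : ℤ → Fin d} {i : ℤ} {k : ℕ} {w : List (Fin d)} (h : w <:+: win x i k) :
    ∃ p : ℤ, i ≤ p ∧ p + w.length ≤ i + k ∧ win x p w.length = w := by
  obtain ⟨s, t, hst⟩ := h
  have hlen : s.length + w.length + t.length = k := by
    have := congrArg List.length hst
    simp only [List.length_append, win_length] at this
    omega
  refine ⟨i + s.length, by omega, by omega, ?_⟩
  have h1 : win x i k = win x i s.length ++ win x (i + s.length) w.length ++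
      win x (i + s.length + w.length) t.length := by
    rw [← win_add, ← hlen, win_add]
    push_cast
    rw [add_assoc]
  rw [h1] at hst
  have h2 := List.append_inj hst (by simp)
  have h3 := List.append_inj h2.1 (by simp)
  exact h3.2.symm

/-! ### The subshift -/

/-- the substitution subshift -/
def XS (σ : Fin d → List (Fin d)) : Set (ℤ → Fin d) :=
  {x | ∀ (i : ℤ) (k : ℕ), Lang σ (win x i k)}

/-- the shift by `n` -/
def sh (n : ℤ) (x : ℤ → Fin d) : ℤ → Fin d := fun i => x (i + n)

theorem win_sh (n : ℤ) (x : ℤ → Fin d) (i : ℤ) (k : ℕ) : win (sh n x) i k = win x (i + n) k := by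
  apply win_congr
  intro j _
  simp only [sh]
  congr 1
  ring

theorem sh_sh (m n : ℤ) (x : ℤ → Fin d) : sh m (sh n x) = sh (m + n) x := by
  funext i
  simp only [sh, add_assoc]

theorem sh_zero (x : ℤ → Fin d) : sh 0 x = x := by
  funext i
  simp [sh]

variable {σ : Fin d → List (Fin d)}

theorem sh_mem {x : ℤ → Fin d} (hx : x ∈ XS σ) (n : ℤ) : sh n x ∈ XS σ := by
  intro i k
  rw [win_sh]
  exact hx _ _

theorem Lang.of_sub {u w : List (Fin d)} (hw : Lang σ w) (h : u <:+: w) : Lang σ u := by
  obtain ⟨n, a, hn, hi⟩ := hw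
  exact ⟨n, a, hn, h.trans hi⟩

theorem infix_it {u v : List (Fin d)} (h : u <:+: v) (J : ℕ) : it σ J u <:+: it σ J v := by
  obtain ⟨s, t, rfl⟩ := h
  rw [it_append, it_append]
  exact ⟨_, _, rfl⟩

theorem Lang.it {w : List (Fin d)} (hw : Lang σ w) (J : ℕ) : Lang σ (it σ J w) := by
  obtain ⟨n, a, hn, hi⟩ := hw
  refine ⟨J + n, a, by omega, ?_⟩
  rw [it_add]
  exact infix_it hi J

theorem closed_of_windows (A : Set (ℤ → Fin d))
    (h : ∀ x, (∀ N : ℕ, ∃ y ∈ A, ∀ i : ℤ, |i| ≤ N → y i = x i) → x ∈ A) : IsClosed A := by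
  apply isClosed_of_closure_subset
  intro x hx
  apply h x
  intro N
  have hopen : IsOpen {y : ℤ → Fin d | ∀ i ∈ Finset.Icc (-(N : ℤ)) N, y i = x i} := by
    have h1 : {y : ℤ → Fin d | ∀ i ∈ Finset.Icc (-(N : ℤ)) N, y i = x i} =
        (Finset.Icc (-(N : ℤ)) N : Set ℤ).pi (fun i => {x i}) := by
      ext y
      simp [Set.mem_pi]
    rw [h1]
    exact isOpen_set_pi (Finset.finite_toSet _) (fun i _ => isOpen_discrete _)
  obtain ⟨y, hy, hyA⟩ := mem_closure_iff.1 hx _ hopen (by intro i _; rfl)
  refine ⟨y, hyA, fun i hi => hy i ?_⟩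
  rw [Finset.mem_Icc]
  exact abs_le.1 hi

theorem isClosed_XS : IsClosed (XS σ) := by
  apply closed_of_windows
  intro x hx i k
  obtain ⟨y, hy, hyx⟩ := hx (i.natAbs + k)
  have h1 : win x i k = win y i k := by
    apply win_congr
    intro j hj
    rw [hyx]
    push_cast
    have h2 := neg_abs_le i
    have h3 := le_abs_self i
    rw [abs_le]
    constructor <;> omega
  rw [h1]
  exact hy i k

theorem isCompact_XS : IsCompact (XS σ) := isClosed_XS.isCompact

section data

variable [NeZero d] {M : Matrix (Fin d) (Fin d) ℤ} {r : ℝ} {f l : Fin d → ℝ} {C θ : ℝ}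

theorem long_words (D : PData σ M r f l C θ) (K : ℕ) :
    ∃ n : ℕ, 1 ≤ n ∧ ∀ a : Fin d, K ≤ (it σ n [a]).length := by
  obtain ⟨c1, c2, hc1, _, hb⟩ := length_bounds D
  have h1 : Tendsto (fun n : ℕ => c1 * r ^ n) atTop atTop :=
    (tendsto_pow_atTop_atTop_of_one_lt D.pis.one_lt).const_mul_atTop hc1
  obtain ⟨n, hn, hn1⟩ := ((h1.eventually (eventually_ge_atTop (K : ℝ))).and
    (eventually_ge_atTop 1)).exists
  refine ⟨n, hn1, fun a => ?_⟩
  have h2 := (hb n a).1
  exact_mod_cast hn.trans h2

theorem XS_nonempty (D : PData σ M r f l C θ) : (XS σ).Nonempty := by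
  set A : ℕ → Set (ℤ → Fin d) := fun N => {x | Lang σ (win x (-(N : ℤ)) (2 * N + 1))} with hA
  have hclosed : ∀ N, IsClosed (A N) := by
    intro N
    apply closed_of_windows
    intro x hx
    obtain ⟨y, hy, hyx⟩ := hx N
    have h1 : win x (-(N : ℤ)) (2 * N + 1) = win y (-(N : ℤ)) (2 * N + 1) := by
      apply win_congr
      intro j hj
      rw [hyx]
      rw [abs_le]
      constructor <;> omega
    change Lang σ _
    rw [h1]
    exact hy
  have hmono : ∀ N, A (N + 1) ⊆ A N := by
    intro N x hx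
    refine Lang.of_sub hx (win_infix x ?_ ?_)
    · push_cast; omega
    · push_cast; omega
  have hne : ∀ N, (A N).Nonempty := by
    intro N
    obtain ⟨n, hn1, hn⟩ := long_words D (2 * N + 1)
    set w := it σ n [(0 : Fin d)] with hw
    refine ⟨fun i => w.getD (i + N).toNat 0, ⟨n, 0, hn1, ?_⟩⟩
    have hlen := hn 0
    rw [← hw] at hlen ⊢
    have h1 : win (fun i => w.getD (i + N).toNat 0) (-(N : ℤ)) (2 * N + 1) =
        w.take (2 * N + 1) := by
      apply List.ext_getElem
      · simp [hlen]
      · intro j h1 h2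
        rw [win_getElem, List.getElem_take]
        have hj : j < 2 * N + 1 := by simpa using h1
        have h3 : (-(N : ℤ) + j + N).toNat = j := by omega
        rw [h3, List.getD_eq_getElem]
    rw [h1]
    exact (List.take_prefix _ _).isInfix
  obtain ⟨x, hx⟩ := IsCompact.nonempty_iInter_of_sequence_nonempty_isCompact_isClosed A hmono hne
    (hclosed 0).isCompact hclosed
  rw [Set.mem_iInter] at hx
  refine ⟨x, fun i k => ?_⟩
  have h2 := neg_abs_le i
  have h3 := le_abs_self i
  refine Lang.of_sub (hx (i.natAbs + k)) (win_infix x ?_ ?_)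
  · push_cast; omega
  · push_cast; omega

/-! ### Uniform recurrence -/

omit [NeZero d] in
theorem block_in_window {α : Type*} (g : Fin d → List α) {L : ℕ} (hL : ∀ a, (g a).length ≤ L)
    (hL1 : 1 ≤ L) (u : List (Fin d)) (v s t : List α) (h : s ++ v ++ t = u.flatMap g)
    (hv : 2 * L ≤ v.length) : ∃ b, g b <:+: v := by
  induction u generalizing s with
  | nil =>
    simp only [List.flatMap_nil, List.append_eq_nil_iff] at h
    rw [h.1.2] at hv
    simp at hv
    omega
  | cons b u ih =>
    rw [List.flatMap_cons, List.append_assoc] at h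
    rcases List.append_eq_append_iff.1 h with ⟨a', h1, h2⟩ | ⟨c', h1, h2⟩
    · -- `g b = s ++ a'`, `v ++ t = a' ++ u.flatMap g`
      have ha' : a'.length ≤ L := by
        have := hL b
        rw [h1, List.length_append] at this
        omega
      rcases List.append_eq_append_iff.1 h2 with ⟨a2, h3, h4⟩ | ⟨c2, h3, h4⟩
      · -- a' = v ++ a2 : impossible by length
        rw [h3, List.length_append] at ha'
        omega
      · -- v = a' ++ c2, u.flatMap g = c2 ++ t
        cases u with
        | nil =>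
          simp only [List.flatMap_nil] at h4
          have hc2 : c2 = [] := (List.append_eq_nil_iff.1 h4.symm).1
          rw [h3, hc2, List.append_nil] at hv
          omega
        | cons b' u' =>
          rw [List.flatMap_cons] at h4
          have hc2 : L ≤ c2.length := by
            rw [h3, List.length_append] at hv
            omega
          have hp1 : g b' <+: c2 ++ t := by
            rw [← h4]
            exact List.prefix_append _ _
          have hp : g b' <+: c2 :=
            List.prefix_of_prefix_length_le hp1 (List.prefix_append _ _) ((hL b').trans hc2)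
          refine ⟨b', ?_⟩
          obtain ⟨e, he⟩ := hp
          exact ⟨a', e, by rw [h3, ← he, List.append_assoc]⟩
    · -- s = g b ++ c'
      exact ih c' (by rw [List.append_assoc]; exact h2.symm)

theorem uniform_recurrence (D : PData σ M r f l C θ) {w : List (Fin d)} (hw : Lang σ w) :
    ∃ R : ℕ, ∀ x ∈ XS σ, ∀ i : ℤ, ∃ p : ℤ, i ≤ p ∧ p + w.length ≤ i + R ∧
      win x p w.length = w := by
  obtain ⟨n, a, hn, hi⟩ := hw
  obtain ⟨N, hN⟩ := primitive D
  set K := n + N with hK
  have hin : ∀ j : Fin d, w <:+: it σ K [j] := by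
    intro j
    refine hi.trans ?_
    rw [hK, it_add]
    apply infix_it
    obtain ⟨s, t, hst⟩ := List.append_of_mem (hN N le_rfl a j)
    exact ⟨s, t, by rw [hst]; simp⟩
  obtain ⟨L, hL1, hL⟩ := exists_len_bound (fun a => it σ K [a])
  refine ⟨2 * L, fun x hx i => ?_⟩
  obtain ⟨n', a', hn', s, t, hst⟩ := hx i (2 * L)
  have hKn : K ≤ n' := by
    by_contra hcon
    push Not at hcon
    have h1 : (it σ n' [a']).length ≤ L :=
      (length_it_mono D.sub hcon.le [a']).trans (hL a')
    have h2 := congrArg List.length hst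
    simp at h2
    omega
  obtain ⟨m, rfl⟩ := Nat.exists_eq_add_of_le hKn
  rw [it_add, it_eq_flatMap] at hst
  obtain ⟨b, hb⟩ := block_in_window (fun a => it σ K [a]) hL hL1 _ _ _ _ hst (by simp)
  have h3 : w <:+: win x i (2 * L) := (hin b).trans hb
  exact infix_win h3

/-- every word of the language occurs in every point of the subshift, arbitrarily far to the
right. -/
theorem exists_occurrence (D : PData σ M r f l C θ) {w : List (Fin d)} (hw : Lang σ w)
    {x : ℤ → Fin d} (hx : x ∈ XS σ) (i : ℤ) : ∃ p : ℤ, i ≤ p ∧ win x p w.length = w := by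
  obtain ⟨R, hR⟩ := uniform_recurrence D hw
  obtain ⟨p, h1, _, h2⟩ := hR x hx i
  exact ⟨p, h1, h2⟩

end data

/-! ### Cumulative sums over `ℤ` -/

/-- the cumulative sum, vanishing at `0` -/
noncomputable def cum {A : Type*} [AddCommGroup A] (g : ℤ → A) (n : ℤ) : A :=
  ∑ i ∈ Finset.Ico 0 n, g i - ∑ i ∈ Finset.Ico n 0, g i

@[simp] theorem cum_zero {A : Type*} [AddCommGroup A] (g : ℤ → A) : cum g 0 = 0 := by
  simp [cum]

theorem cum_succ {A : Type*} [AddCommGroup A] (g : ℤ → A) (n : ℤ) :
    cum g (n + 1) = cum g n + g n := by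
  rcases le_or_gt 0 n with h | h
  · have h1 : Finset.Ico 0 (n + 1) = insert n (Finset.Ico 0 n) := by
      ext i
      simp only [Finset.mem_Ico, Finset.mem_insert]
      omega
    have h2 : Finset.Ico n 0 = ∅ := by
      rw [Finset.Ico_eq_empty_iff]; omega
    have h3 : Finset.Ico (n + 1) 0 = ∅ := by
      rw [Finset.Ico_eq_empty_iff]; omega
    rw [cum, cum, h1, h2, h3, Finset.sum_insert (by simp)]
    simp
    abel
  · have h1 : Finset.Ico n 0 = insert n (Finset.Ico (n + 1) 0) := by
      ext i
      simp only [Finset.mem_Ico, Finset.mem_insert]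
      omega
    have h2 : Finset.Ico 0 n = ∅ := by
      rw [Finset.Ico_eq_empty_iff]; omega
    have h3 : Finset.Ico 0 (n + 1) = ∅ := by
      rw [Finset.Ico_eq_empty_iff]; omega
    rw [cum, cum, h1, h2, h3, Finset.sum_insert (by simp)]
    simp

theorem eq_of_rec {A : Type*} [AddCommGroup A] {g : ℤ → A} {u v : ℤ → A}
    (hu : ∀ n, u (n + 1) = u n + g n) (hv : ∀ n, v (n + 1) = v n + g n) (h0 : u 0 = v 0) (n : ℤ) :
    u n = v n := by
  induction n using Int.induction_on with
  | zero => exact h0
  | succ n ih => rw [hu, hv, ih]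
  | pred n ih =>
    have h1 := hu (-(n : ℤ) - 1)
    have h2 := hv (-(n : ℤ) - 1)
    rw [sub_add_cancel] at h1 h2
    rw [h1, h2] at ih
    exact add_right_cancel ih

theorem exists_block {t : ℤ → ℤ} (ht : ∀ n, t n + 1 ≤ t (n + 1)) (p : ℤ) :
    ∃ n, t n ≤ p ∧ p < t (n + 1) := by
  have h1 : ∀ n : ℕ, t 0 + n ≤ t n := by
    intro n
    induction n with
    | zero => simp
    | succ n ih =>
      have := ht n
      push_cast
      omega
  have h2 : ∀ n : ℕ, t (-(n : ℤ)) ≤ t 0 - n := by
    intro n
    induction n with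
    | zero => simp
    | succ n ih =>
      have := ht (-(n : ℤ) - 1)
      rw [sub_add_cancel] at this
      push_cast
      have h3 : (-(n : ℤ) - 1) = -((n : ℤ) + 1) := by ring
      rw [h3] at this
      omega
  obtain ⟨n, hn, hmax⟩ := Int.exists_greatest_of_bdd (P := fun n => t n ≤ p)
    ⟨(p - t 0).toNat, fun z hz => by
      by_contra hcon
      push Not at hcon
      have hz0 : 0 ≤ z := by omega
      obtain ⟨k, hk⟩ := Int.eq_ofNat_of_zero_le hz0
      have := h1 k
      rw [hk] at hz hcon
      omega⟩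
    ⟨-((t 0 - p).toNat : ℤ), by
      have := h2 (t 0 - p).toNat
      omega⟩
  refine ⟨n, hn, ?_⟩
  by_contra hcon
  push Not at hcon
  have := hmax (n + 1) hcon
  omega

theorem strictMono_of_step {t : ℤ → ℤ} (ht : ∀ n, t n + 1 ≤ t (n + 1)) : StrictMono t :=
  strictMono_int_of_lt_succ fun n => by have := ht n; omega

theorem block_unique {t : ℤ → ℤ} (ht : ∀ n, t n + 1 ≤ t (n + 1)) {p n m : ℤ}
    (h1 : t n ≤ p) (h2 : p < t (n + 1)) (h3 : t m ≤ p) (h4 : p < t (m + 1)) : n = m := by
  have hs := strictMono_of_step ht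
  have h5 : n < m + 1 := hs.lt_iff_lt.1 (by omega)
  have h6 : m < n + 1 := hs.lt_iff_lt.1 (by omega)
  omega

/-! ### Desubstitution -/

/-- `x` is the image of `x'` under `τ`, the block of `x' n` starting at position `T n` of `x`. -/
structure Desub (τ : Fin d → List (Fin d)) (x x' : ℤ → Fin d) (T : ℤ → ℤ) : Prop where
  succ : ∀ n, T (n + 1) = T n + (τ (x' n)).length
  block : ∀ n, win x (T n) (τ (x' n)).length = τ (x' n)

theorem Desub.window {τ : Fin d → List (Fin d)} {x x' : ℤ → Fin d} {T : ℤ → ℤ}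
    (h : Desub τ x x' T) (n : ℤ) (m : ℕ) :
    T (n + m) = T n + ((win x' n m).flatMap τ).length ∧
      win x (T n) ((win x' n m).flatMap τ).length = (win x' n m).flatMap τ := by
  induction m with
  | zero => simp
  | succ m ih =>
    obtain ⟨ih1, ih2⟩ := ih
    have h1 : (win x' n (m + 1)).flatMap τ = (win x' n m).flatMap τ ++ τ (x' (n + m)) := by
      rw [win_succ, List.flatMap_append]
      simp
    constructor
    · rw [h1, List.length_append]
      push_cast
      rw [← add_assoc n, h.succ, ih1]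
      ring
    · rw [h1, List.length_append, win_add, ih2, ← ih1, h.block]

/-- the bi-infinite image of a sequence under `τ`, origin at the start of the image of `x' 0` -/
theorem exists_image [NeZero d] (τ : Fin d → List (Fin d)) (hτ : ∀ a, τ a ≠ []) (x' : ℤ → Fin d) :
    ∃ y, Desub τ y x' (cum (fun n => ((τ (x' n)).length : ℤ))) := by
  set t := cum (fun n => ((τ (x' n)).length : ℤ)) with ht
  have hstep : ∀ n, t n + 1 ≤ t (n + 1) := by
    intro n
    rw [ht, cum_succ]
    have := List.length_pos_iff.2 (hτ (x' n))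
    omega
  choose b hb1 hb2 using exists_block hstep
  refine ⟨fun p => (τ (x' (b p))).getD (p - t (b p)).toNat 0, ?_, ?_⟩
  · intro n
    rw [ht, cum_succ]
  · intro n
    rw [eq_win_iff]
    intro j hj
    have h1 : b (t n + j) = n := by
      apply block_unique hstep (hb1 _) (hb2 _)
      · omega
      · rw [ht, cum_succ, ← ht]; omega
    simp only [h1]
    have h2 : (t n + (j : ℤ) - t n).toNat = j := by omega
    rw [h2, List.getD_eq_getElem]

theorem image_mem {τ : Fin d → List (Fin d)} (hτ : ∀ a, τ a ≠ []) {J : ℕ}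
    (hJ : ∀ a, τ a = it σ J [a]) {x x' : ℤ → Fin d} {T : ℤ → ℤ} (h : Desub τ x x' T)
    (hx' : x' ∈ XS σ) : x ∈ XS σ := by
  intro i k
  have hstep : ∀ n, T n + 1 ≤ T (n + 1) := by
    intro n
    rw [h.succ]
    have := List.length_pos_iff.2 (hτ (x' n))
    omega
  obtain ⟨n, hn1, hn2⟩ := exists_block hstep i
  obtain ⟨m, hm1, hm2⟩ := exists_block hstep (i + k)
  have hnm : n ≤ m := by
    have hs := strictMono_of_step hstep
    have : n < m + 1 := hs.lt_iff_lt.1 (by omega)
    omega
  obtain ⟨e, he⟩ := Int.le.dest hnm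
  obtain ⟨w1, w2⟩ := h.window n (e + 1)
  have h1 : (win x' n (e + 1)).flatMap τ = it σ J (win x' n (e + 1)) := by
    rw [it_eq_flatMap]
    congr 1
    funext a
    exact hJ a
  have h2 : Lang σ ((win x' n (e + 1)).flatMap τ) := by
    rw [h1]
    exact (hx' n (e + 1)).it J
  rw [← w2] at h2
  refine h2.of_sub (win_infix x hn1 ?_)
  rw [← w1]
  push_cast
  rw [← add_assoc, he]
  omega

theorem tendsto_coord {ι : Type*} {F : Filter ι} {u : ι → (ℤ → Fin d)} {x : ℤ → Fin d}
    (h : Tendsto u F (𝓝 x)) (i : ℤ) : ∀ᶠ k in F, u k i = x i := by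
  have h1 := tendsto_pi_nhds.1 h i
  rw [nhds_discrete] at h1
  exact tendsto_pure.1 h1

/-- every point of the subshift desubstitutes -/
theorem desub_exists [NeZero d] {M : Matrix (Fin d) (Fin d) ℤ} {r : ℝ} {f l : Fin d → ℝ}
    {C θ : ℝ} (D : PData σ M r f l C θ) (J : ℕ) {x : ℤ → Fin d} (hx : x ∈ XS σ) :
    ∃ x' ∈ XS σ, ∃ T : ℤ → ℤ, Desub (fun a => it σ J [a]) x x' T ∧ T 0 ≤ 0 ∧ 0 < T 1 := by
  set τ : Fin d → List (Fin d) := fun a => it σ J [a] with hτdef
  have hτ : ∀ a, τ a ≠ [] := fun a => List.length_pos_iff.1 (it_pos D.sub J a)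
  obtain ⟨L, hL1, hL⟩ := exists_len_bound τ
  obtain ⟨z0, hz0⟩ := XS_nonempty D
  obtain ⟨y0, hy0⟩ := exists_image τ hτ z0
  set t := cum (fun n => ((τ (z0 n)).length : ℤ)) with ht
  have hy0mem : y0 ∈ XS σ := image_mem hτ (fun a => rfl) hy0 hz0
  have hstep : ∀ n, t n + 1 ≤ t (n + 1) := by
    intro n
    rw [hy0.succ]
    have := List.length_pos_iff.2 (hτ (z0 n))
    omega
  -- approximate `x` by shifts of `y0`
  have happ : ∀ N : ℕ, ∃ p n : ℤ, t n ≤ p ∧ p < t (n + 1) ∧
      ∀ i : ℤ, |i| ≤ N → y0 (p + i) = x i := by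
    intro N
    obtain ⟨q, _, hq⟩ := exists_occurrence D (hx (-(N : ℤ)) (2 * N + 1)) hy0mem 0
    obtain ⟨n, hn1, hn2⟩ := exists_block hstep (q + N)
    refine ⟨q + N, n, hn1, hn2, fun i hi => ?_⟩
    rw [win_length, win_congr_iff] at hq
    have hi' := abs_le.1 hi
    have := hq (i + N).toNat (by omega)
    have h1 : (((i + N).toNat : ℕ) : ℤ) = i + N := by omega
    rw [h1] at this
    have h2 : q + (i + (N : ℤ)) = q + N + i := by ring
    have h3 : -(N : ℤ) + (i + (N : ℤ)) = i := by ring
    rw [h2, h3] at this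
    exact this
  choose p n hp1 hp2 hpx using happ
  -- a convergent subsequence of the desubstituted points
  obtain ⟨x', hx', φ, hφ, hlim⟩ := isCompact_XS.tendsto_subseq (x := fun N => sh (n N) z0)
    (fun N => sh_mem hz0 (n N))
  have hlt : ∀ N, (p N - t (n N)).toNat < L := by
    intro N
    have h1 := hp2 N
    rw [hy0.succ] at h1
    have h2 := hL (z0 (n N))
    have h3 := hp1 N
    omega
  obtain ⟨j, hj⟩ : ∃ j : Fin L, ∃ᶠ k in atTop,
      (⟨(p (φ k) - t (n (φ k))).toNat, hlt _⟩ : Fin L) = j := by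
    by_contra hcon
    push Not at hcon
    have h1 := (eventually_all.2 hcon).exists
    obtain ⟨k, hk⟩ := h1
    exact hk _ rfl
  set T : ℤ → ℤ := fun m => cum (fun i => ((τ (x' i)).length : ℤ)) m - (j : ℕ) with hT
  -- eventually the cut points agree
  have hcut : ∀ m : ℤ, ∀ᶠ k in atTop, cum (fun i => ((τ (sh (n (φ k)) z0 i)).length : ℤ)) m =
      cum (fun i => ((τ (x' i)).length : ℤ)) m := by
    intro m
    have h1 : ∀ᶠ k in atTop, ∀ i ∈ Finset.Ico 0 m ∪ Finset.Ico m 0,
        sh (n (φ k)) z0 i = x' i := by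
      rw [Filter.eventually_all_finset]
      intro i _
      exact tendsto_coord hlim i
    filter_upwards [h1] with k hk
    simp only [cum]
    congr 1
    · refine Finset.sum_congr rfl fun i hi => ?_
      rw [hk i (Finset.mem_union_left _ hi)]
    · refine Finset.sum_congr rfl fun i hi => ?_
      rw [hk i (Finset.mem_union_right _ hi)]
  have hcumsh : ∀ N m, cum (fun i => ((τ (sh (n N) z0 i)).length : ℤ)) m =
      t (n N + m) - t (n N) := by
    intro N m
    apply eq_of_rec (g := fun i => ((τ (sh (n N) z0 i)).length : ℤ))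
      (v := fun m => t (n N + m) - t (n N)) (cum_succ _) _ (by simp) m
    intro i
    rw [← add_assoc, hy0.succ]
    simp only [sh]
    rw [add_comm i (n N)]
    ring
  refine ⟨x', hx', T, ⟨?_, ?_⟩, ?_, ?_⟩
  · intro m
    simp only [hT, cum_succ]
    ring
  · intro m
    -- pick a good index
    have hbig : ∀ᶠ k in atTop, |T m| + (τ (x' m)).length ≤ (φ k : ℤ) := by
      have h1 : Tendsto (fun k => (φ k : ℤ)) atTop atTop :=
        tendsto_natCast_atTop_atTop.comp hφ.tendsto_atTop
      exact h1.eventually (eventually_ge_atTop _)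
    obtain ⟨k, hk1, hk2, hk3, hk4⟩ :=
      (hj.and_eventually ((hcut m).and (hbig.and (tendsto_coord hlim m)))).exists
    have hjk : ((j : ℕ) : ℤ) = p (φ k) - t (n (φ k)) := by
      have h := congrArg Fin.val hk1
      have h' : (p (φ k) - t (n (φ k))).toNat = (j : ℕ) := h
      have := hp1 (φ k)
      omega
    have hTm : T m = t (n (φ k) + m) - p (φ k) := by
      simp only [hT]
      rw [← hk2, hcumsh, hjk]
      ring
    have hblock := hy0.block (n (φ k) + m)
    have hz : z0 (n (φ k) + m) = x' m := by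
      rw [← hk4]
      change _ = z0 (m + n (φ k))
      rw [add_comm]
    rw [hz] at hblock
    refine Eq.trans ?_ hblock
    apply win_congr
    intro i hi
    have hi : i < (τ (x' m)).length := hi
    rw [← hpx (φ k) (T m + i)]
    · rw [hTm]
      congr 1
      ring
    · rw [abs_le]
      have h5 := abs_le.1 (le_refl |T m|)
      constructor <;> omega
  · simp only [hT, cum_zero]
    omega
  · obtain ⟨k, hk1, hk2⟩ := (hj.and_eventually (hcut 1)).exists
    have hjk : ((j : ℕ) : ℤ) = p (φ k) - t (n (φ k)) := by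
      have h := congrArg Fin.val hk1
      have h' : (p (φ k) - t (n (φ k))).toNat = (j : ℕ) := h
      have := hp1 (φ k)
      omega
    simp only [hT]
    rw [← hk2, hcumsh, hjk]
    have := hp2 (φ k)
    omega

end Pool.Agent.Helper94_Pisot
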