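import Mathlib
import Pool.Agent.Helper94_Pisot.Subshift

/-!
# The cocycle primitive `F`
-/

set_option autoImplicit false

namespace Pool.Agent.Helper94_Pisot

open Matrix Filter Topology

variable {d : ℕ}

/-- cumulative abelianization of a bi-infinite sequence -/
noncomputable def U (x : ℤ → Fin d) (n : ℤ) : Fin d → ℤ :=
  cum (fun i => (Pi.single (x i) 1 : Fin d → ℤ)) n

@[simp] theorem U_zero (x : ℤ → Fin d) : U x 0 = 0 := by simp [U]

theorem U_succ (x : ℤ → Fin d) (n : ℤ) : U x (n + 1) = U x n + Pi.single (x n) 1 := by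
  simp [U, cum_succ]

theorem U_add_nat (x : ℤ → Fin d) (n : ℤ) (k : ℕ) : U x (n + k) = U x n + ab (win x n k) := by
  induction k with
  | zero => simp
  | succ k ih =>
    rw [win_succ, ab_append, ab_singleton]
    push_cast
    rw [← add_assoc, U_succ, ih, add_assoc]

theorem U_sh (n : ℤ) (x : ℤ → Fin d) (m : ℤ) : U (sh n x) m = U x (n + m) - U x n := by
  apply eq_of_rec (g := fun i => (Pi.single (sh n x i) 1 : Fin d → ℤ))
    (v := fun m => U x (n + m) - U x n) (U_succ _) _ (by simp) m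
  intro i
  rw [← add_assoc, U_succ]
  simp only [sh]
  rw [add_comm i n]
  abel

theorem sum_U (x : ℤ → Fin d) (n : ℤ) : ∑ i, U x n i = n := by
  apply eq_of_rec (g := fun _ => (1 : ℤ)) (u := fun n => ∑ i, U x n i) (v := fun n => n)
    _ (fun _ => rfl) (by simp) n
  intro i
  rw [U_succ]
  simp [Finset.sum_add_distrib]

/-- the discrepancy -/
noncomputable def disc (f : Fin d → ℝ) (x : ℤ → Fin d) (n : ℤ) (a : Fin d) : ℝ :=
  (U x n a : ℝ) - n * f a

@[simp] theorem disc_zero (f : Fin d → ℝ) (x : ℤ → Fin d) (a : Fin d) : disc f x 0 a = 0 := by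
  simp [disc]

theorem disc_sh (f : Fin d → ℝ) (n : ℤ) (x : ℤ → Fin d) (m : ℤ) (a : Fin d) :
    disc f (sh n x) m a = disc f x (n + m) a - disc f x n a := by
  simp only [disc, U_sh, Pi.sub_apply]
  push_cast
  ring

theorem disc_add_nat (f : Fin d → ℝ) (x : ℤ → Fin d) (n : ℤ) (k : ℕ) (a : Fin d) :
    disc f x (n + k) a = disc f x n a + (abR (win x n k) a - k * f a) := by
  simp only [disc, U_add_nat, Pi.add_apply, abR]
  push_cast
  ring

theorem disc_local (f : Fin d → ℝ) {x y : ℤ → Fin d} {p q : ℤ} {L : ℕ}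
    (h : ∀ j : ℕ, j < L → x (p + j) = y (q + j)) (i : ℕ) (hi : i ≤ L) (a : Fin d) :
    disc f x (p + i) a - disc f x p a = disc f y (q + i) a - disc f y q a := by
  rw [disc_add_nat, disc_add_nat, win_congr (y := y) (i' := q) (fun j hj => h j (by omega))]
  ring

/-- the primitive of the cocycle -/
noncomputable def F (f : Fin d → ℝ) (x : ℤ → Fin d) (a : Fin d) : ℝ := -⨆ n : ℤ, disc f x n a

variable {σ : Fin d → List (Fin d)} {M : Matrix (Fin d) (Fin d) ℤ} {r : ℝ} {f l : Fin d → ℝ}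
  {C θ : ℝ}

theorem disc_diff_bound (D : PData σ M r f l C θ) :
    ∃ C2 : ℝ, 0 ≤ C2 ∧ ∀ x ∈ XS σ, ∀ (m n : ℤ) (a : Fin d),
      |disc f x m a - disc f x n a| ≤ C2 := by
  obtain ⟨C2, h0, hb⟩ := disc_bound D
  refine ⟨C2, h0, fun x hx m n a => ?_⟩
  have key : ∀ (n m : ℤ), n ≤ m → |disc f x m a - disc f x n a| ≤ C2 := by
    intro n m hnm
    obtain ⟨k, rfl⟩ := Int.le.dest hnm
    rw [disc_add_nat]
    have h1 := hb _ (hx n k) a
    rw [win_length] at h1
    rw [add_sub_cancel_left]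
    exact h1
  rcases le_total n m with h | h
  · exact key n m h
  · rw [abs_sub_comm]
    exact key m n h

theorem disc_bdd (D : PData σ M r f l C θ) {x : ℤ → Fin d} (hx : x ∈ XS σ) (a : Fin d) :
    BddAbove (Set.range fun n : ℤ => disc f x n a) := by
  obtain ⟨C2, _, hb⟩ := disc_diff_bound D
  refine ⟨C2, ?_⟩
  rintro _ ⟨n, rfl⟩
  have := hb x hx n 0 a
  rw [disc_zero, sub_zero] at this
  exact (le_abs_self _).trans this

theorem F_bound (D : PData σ M r f l C θ) :
    ∃ C2 : ℝ, 0 ≤ C2 ∧ ∀ x ∈ XS σ, ∀ a, |F f x a| ≤ C2 := by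
  obtain ⟨C2, h0, hb⟩ := disc_diff_bound D
  refine ⟨C2, h0, fun x hx a => ?_⟩
  have h1 : ∀ n, disc f x n a ≤ C2 := by
    intro n
    have := hb x hx n 0 a
    rw [disc_zero, sub_zero] at this
    exact (le_abs_self _).trans this
  have h2 : (⨆ n : ℤ, disc f x n a) ≤ C2 := ciSup_le h1
  have h3 : 0 ≤ ⨆ n : ℤ, disc f x n a := by
    have := le_ciSup (disc_bdd D hx a) 0
    simpa using this
  rw [F, abs_neg, abs_of_nonneg h3]
  exact h2

theorem F_sh (D : PData σ M r f l C θ) {x : ℤ → Fin d} (hx : x ∈ XS σ) (n : ℤ) (a : Fin d) :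
    F f (sh n x) a = F f x a + disc f x n a := by
  have h1 := disc_bdd D hx a
  have h2 := disc_bdd D (sh_mem hx n) a
  have h3 : (⨆ m : ℤ, disc f (sh n x) m a) = (⨆ m : ℤ, disc f x m a) - disc f x n a := by
    apply le_antisymm
    · apply ciSup_le
      intro m
      rw [disc_sh]
      have := le_ciSup h1 (n + m)
      linarith
    · rw [sub_le_iff_le_add]
      apply ciSup_le
      intro m
      have h4 : disc f (sh n x) (m - n) a ≤ ⨆ m : ℤ, disc f (sh n x) m a := le_ciSup h2 (m - n)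
      rw [disc_sh] at h4
      have h5 : n + (m - n) = m := by ring
      rw [h5] at h4
      linarith
  rw [F, F, h3]
  ring

theorem approx_sup [NeZero d] (D : PData σ M r f l C θ) (a : Fin d) {ε : ℝ} (hε : 0 < ε) :
    ∃ R : ℕ, ∀ x ∈ XS σ, ∃ q : ℕ, q ≤ R ∧ ∀ n, disc f x n a ≤ disc f x q a + ε := by
  obtain ⟨C2, h0, hb⟩ := disc_diff_bound D
  set A : Set ℝ := {t | ∃ x ∈ XS σ, ∃ m n : ℤ, t = disc f x n a - disc f x m a} with hA
  have hAbdd : BddAbove A := by
    refine ⟨C2, ?_⟩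
    rintro t ⟨x, hx, m, n, rfl⟩
    exact (le_abs_self _).trans (hb x hx n m a)
  obtain ⟨x1, hx1⟩ := XS_nonempty D
  have hAne : A.Nonempty := ⟨_, x1, hx1, 0, 0, rfl⟩
  obtain ⟨t, ⟨x0, hx0, m, n, rfl⟩, ht⟩ := exists_lt_of_lt_csSup hAne
    (show sSup A - ε < sSup A by linarith)
  have hle : ∀ x ∈ XS σ, ∀ i j : ℤ, disc f x i a - disc f x j a ≤ sSup A :=
    fun x hx i j => le_csSup hAbdd ⟨x, hx, j, i, rfl⟩
  -- the window of `x0` between `m` and `n`
  set lo := min m n with hlo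
  obtain ⟨km, hkm⟩ := Int.le.dest (min_le_left m n)
  obtain ⟨kn, hkn⟩ := Int.le.dest (min_le_right m n)
  set Lw := km + kn with hLw
  obtain ⟨R, hR⟩ := uniform_recurrence D (hx0 lo Lw)
  refine ⟨R, fun x hx => ?_⟩
  obtain ⟨p, hp1, hp2, hp3⟩ := hR x hx 0
  rw [win_length, win_congr_iff] at hp3
  rw [win_length] at hp2
  have hm := disc_local f hp3 km (by omega) a
  have hn := disc_local f hp3 kn (by omega) a
  rw [hkm] at hm
  rw [hkn] at hn
  -- `q = p + kn` works
  refine ⟨(p + kn).toNat, by omega, fun i => ?_⟩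
  have h1 : (((p + kn).toNat : ℕ) : ℤ) = p + kn := by omega
  rw [h1]
  have h2 := hle x hx i (p + km)
  linarith

theorem F_unif [NeZero d] (D : PData σ M r f l C θ) {ε : ℝ} (hε : 0 < ε) :
    ∃ R : ℕ, ∀ x ∈ XS σ, ∀ y ∈ XS σ, (∀ j : ℕ, j < R → x j = y j) →
      ∀ a, |F f x a - F f y a| ≤ ε := by
  classical
  choose R hR using fun a => approx_sup D a hε
  refine ⟨∑ a, R a, fun x hx y hy hxy a => ?_⟩
  have key : ∀ x ∈ XS σ, ∀ y ∈ XS σ, (∀ j : ℕ, j < ∑ a, R a → x j = y j) →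
      F f x a - F f y a ≤ ε := by
    intro x hx y hy hxy
    obtain ⟨q, hq, hqn⟩ := hR a y hy
    have hqR : q ≤ ∑ a, R a :=
      hq.trans (Finset.single_le_sum (f := R) (fun _ _ => Nat.zero_le _) (Finset.mem_univ a))
    have h1 : disc f x q a = disc f y q a := by
      have := disc_local f (x := x) (y := y) (p := 0) (q := 0) (L := ∑ a, R a)
        (fun j hj => by simpa using hxy j hj) q hqR a
      simpa using this
    have h2 : (⨆ n : ℤ, disc f y n a) ≤ disc f y q a + ε := ciSup_le hqn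
    have h3 : disc f x q a ≤ ⨆ n : ℤ, disc f x n a := le_ciSup (disc_bdd D hx a) (q : ℤ)
    rw [F, F]
    linarith
  rw [abs_le]
  constructor
  · have := key y hy x hx (fun j hj => (hxy j hj).symm)
    linarith
  · exact key x hx y hy hxy

theorem sum_disc (D : PData σ M r f l C θ) (x : ℤ → Fin d) (n : ℤ) :
    ∑ a, disc f x n a = 0 := by
  simp only [disc, Finset.sum_sub_distrib]
  rw [← Finset.mul_sum, D.per.f_sum]
  have := sum_U x n
  have h2 : ∑ a, (U x n a : ℝ) = (n : ℝ) := by exact_mod_cast congrArg (Int.cast : ℤ → ℝ) this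
  rw [h2]
  ring

/-- a match of long windows anywhere to the right -/
theorem exists_match [NeZero d] (D : PData σ M r f l C θ) {x y : ℤ → Fin d} (hx : x ∈ XS σ)
    (hy : y ∈ XS σ) (i : ℤ) (R : ℕ) (j0 : ℤ) :
    ∃ p : ℤ, j0 ≤ p ∧ ∀ j : ℕ, j < R → x (p + j) = y (i + j) := by
  obtain ⟨p, hp1, hp2⟩ := exists_occurrence D (hy i R) hx j0
  rw [win_length, win_congr_iff] at hp2
  exact ⟨p, hp1, hp2⟩

theorem sumF_const [NeZero d] (D : PData σ M r f l C θ) {x y : ℤ → Fin d} (hx : x ∈ XS σ)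
    (hy : y ∈ XS σ) : ∑ a, F f x a = ∑ a, F f y a := by
  have key : ∀ ε : ℝ, 0 < ε → |∑ a, F f x a - ∑ a, F f y a| ≤ d * ε := by
    intro ε hε
    obtain ⟨R, hR⟩ := F_unif D hε
    obtain ⟨p, _, hp⟩ := exists_match D hx hy 0 R 0
    have h1 := hR (sh p x) (sh_mem hx p) y hy (fun j hj => by
      have := hp j hj
      simp only [sh]
      rw [add_comm, this]
      simp)
    have h2 : ∑ a, F f (sh p x) a = ∑ a, F f x a := by
      have : ∀ a, F f (sh p x) a = F f x a + disc f x p a := fun a => F_sh D hx p a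
      simp only [this, Finset.sum_add_distrib, sum_disc D, add_zero]
    rw [← h2, ← Finset.sum_sub_distrib]
    refine (Finset.abs_sum_le_sum_abs _ _).trans ?_
    refine (Finset.sum_le_sum fun a _ => h1 a).trans ?_
    simp
  have h3 : |∑ a, F f x a - ∑ a, F f y a| ≤ 0 := by
    apply le_of_forall_pos_le_add
    intro ε hε
    have hd : (0 : ℝ) < d := by exact_mod_cast Nat.pos_of_ne_zero (NeZero.ne d)
    have := key (ε / d) (by positivity)
    rw [mul_div_cancel₀ _ hd.ne'] at this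
    linarith
  have h4 := abs_nonpos_iff.1 h3
  linarith

end Pool.Agent.Helper94_Pisot
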