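import Mathlib
import Pool.Agent.Helper94_Pisot.Cocycle

/-!
# Transfer of the cocycle primitive under desubstitution
-/

set_option autoImplicit false

namespace Pool.Agent.Helper94_Pisot

open Matrix Filter Topology

variable {d : ℕ}

/-- projection onto the contracting space -/
noncomputable def Qp (l f v : Fin d → ℝ) : Fin d → ℝ := v - (l ⬝ᵥ v) • f

theorem Qp_add (l f v w : Fin d → ℝ) : Qp l f (v + w) = Qp l f v + Qp l f w := by
  simp only [Qp, dotProduct_add, add_smul]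
  abel

theorem Qp_sub (l f v w : Fin d → ℝ) : Qp l f (v - w) = Qp l f v - Qp l f w := by
  simp only [Qp, dotProduct_sub, sub_smul]
  abel

variable {σ : Fin d → List (Fin d)} {M : Matrix (Fin d) (Fin d) ℤ} {r : ℝ} {f l : Fin d → ℝ}
  {C θ : ℝ}

theorem pow_mulVec_f (D : PData σ M r f l C θ) (n : ℕ) : (mR M ^ n) *ᵥ f = (r ^ n) • f := by
  induction n with
  | zero => simp
  | succ n ih =>
    rw [pow_succ, ← Matrix.mulVec_mulVec, D.per.hf, Matrix.mulVec_smul, ih, smul_smul, pow_succ,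
      mul_comm]

theorem vecMul_pow_l (D : PData σ M r f l C θ) (n : ℕ) : l ᵥ* (mR M ^ n) = (r ^ n) • l := by
  induction n with
  | zero => simp
  | succ n ih =>
    rw [pow_succ, ← Matrix.vecMul_vecMul, ih, Matrix.smul_vecMul, D.per.hl, smul_smul, pow_succ]

theorem dot_pow (D : PData σ M r f l C θ) (n : ℕ) (v : Fin d → ℝ) :
    l ⬝ᵥ ((mR M ^ n) *ᵥ v) = r ^ n * (l ⬝ᵥ v) := by
  rw [Matrix.dotProduct_mulVec, vecMul_pow_l D, smul_dotProduct, smul_eq_mul]

theorem dot_abR (l : Fin d → ℝ) (w : List (Fin d)) : l ⬝ᵥ abR w = wt l w := rfl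

theorem l_dot_f [NeZero d] (D : PData σ M r f l C θ) : l ⬝ᵥ f = 1 := by
  have hr : 1 < r := D.pis.one_lt
  by_contra hne
  have h0 : 0 < |l 0 * (1 - l ⬝ᵥ f)| := by
    apply abs_pos.2
    apply mul_ne_zero (D.per.l_pos 0).ne'
    intro h
    apply hne
    linarith
  have hb : ∀ n : ℕ, r ^ n * |l 0 * (1 - l ⬝ᵥ f)| ≤ (∑ i, l i) * C := by
    intro n
    have h1 := D.per.bound n 0
    have h2 : l ⬝ᵥ ((mR M ^ n) *ᵥ bv 0 - (r ^ n * l 0) • f) = r ^ n * (l 0 * (1 - l ⬝ᵥ f)) := by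
      rw [dotProduct_sub, dot_pow D, dotProduct_smul]
      have h3 : l ⬝ᵥ bv 0 = l 0 := by
        rw [← abR_singleton, dot_abR, wt_singleton]
      rw [h3, smul_eq_mul]
      ring
    have h4 : |l ⬝ᵥ ((mR M ^ n) *ᵥ bv 0 - (r ^ n * l 0) • f)| ≤ (∑ i, l i) * C := by
      rw [dotProduct]
      refine (Finset.abs_sum_le_sum_abs _ _).trans ?_
      rw [Finset.sum_mul]
      refine Finset.sum_le_sum fun i _ => ?_
      rw [abs_mul, abs_of_pos (D.per.l_pos i)]
      have h5 := (norm_le_pi_norm ((mR M ^ n) *ᵥ bv 0 - (r ^ n * l 0) • f) i).trans h1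
      have h6 : C * θ ^ n ≤ C := by
        have : θ ^ n ≤ 1 := pow_le_one₀ D.per.θ_pos.le D.per.θ_lt.le
        nlinarith [D.per.hC]
      rw [Real.norm_eq_abs] at h5
      have := D.per.l_pos i
      gcongr
      exact h5.trans h6
    rw [h2, abs_mul, abs_of_pos (by positivity)] at h4
    exact h4
  have hlim : Tendsto (fun n : ℕ => r ^ n * |l 0 * (1 - l ⬝ᵥ f)|) atTop atTop :=
    (tendsto_pow_atTop_atTop_of_one_lt hr).atTop_mul_const h0
  obtain ⟨n, hn⟩ := (hlim.eventually (eventually_gt_atTop ((∑ i, l i) * C))).exists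
  have := hb n
  linarith

theorem Qp_f [NeZero d] (D : PData σ M r f l C θ) (c : ℝ) : Qp l f (c • f) = 0 := by
  rw [Qp, dotProduct_smul, l_dot_f D, smul_eq_mul, mul_one, sub_self]

theorem Qp_pow (D : PData σ M r f l C θ) (n : ℕ) (v : Fin d → ℝ) :
    Qp l f ((mR M ^ n) *ᵥ v) = (mR M ^ n) *ᵥ Qp l f v := by
  rw [Qp, Qp, dot_pow D, Matrix.mulVec_sub, Matrix.mulVec_smul, pow_mulVec_f D, smul_smul, mul_comm]

theorem abs_dot_le (D : PData σ M r f l C θ) (v : Fin d → ℝ) :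
    |l ⬝ᵥ v| ≤ (∑ i, l i) * ‖v‖ := by
  rw [dotProduct]
  refine (Finset.abs_sum_le_sum_abs _ _).trans ?_
  rw [Finset.sum_mul]
  refine Finset.sum_le_sum fun i _ => ?_
  rw [abs_mul, abs_of_pos (D.per.l_pos i)]
  have := norm_le_pi_norm v i
  rw [Real.norm_eq_abs] at this
  have := D.per.l_pos i
  gcongr

theorem norm_f_le (D : PData σ M r f l C θ) : ‖f‖ ≤ 1 := by
  rw [pi_norm_le_iff_of_nonneg zero_le_one]
  intro i
  rw [Real.norm_eq_abs, abs_of_pos (D.per.f_pos i), ← D.per.f_sum]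
  exact Finset.single_le_sum (fun j _ => (D.per.f_pos j).le) (Finset.mem_univ i)

theorem norm_Qp_le (D : PData σ M r f l C θ) (v : Fin d → ℝ) :
    ‖Qp l f v‖ ≤ (1 + ∑ i, l i) * ‖v‖ := by
  rw [Qp]
  refine (norm_sub_le _ _).trans ?_
  rw [norm_smul, Real.norm_eq_abs]
  have h1 := abs_dot_le D v
  have h2 := norm_f_le D
  have h3 : |l ⬝ᵥ v| * ‖f‖ ≤ ((∑ i, l i) * ‖v‖) * 1 := by
    have h4 : 0 ≤ |l ⬝ᵥ v| := abs_nonneg _
    exact mul_le_mul h1 h2 (norm_nonneg _) (h4.trans h1)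
  linarith

/-- real version of `U` -/
noncomputable def UR (x : ℤ → Fin d) (n : ℤ) : Fin d → ℝ := fun i => (U x n i : ℝ)

@[simp] theorem UR_zero (x : ℤ → Fin d) : UR x 0 = 0 := by
  funext i
  simp [UR]

theorem UR_add_nat (x : ℤ → Fin d) (n : ℤ) (k : ℕ) : UR x (n + k) = UR x n + abR (win x n k) := by
  funext i
  simp [UR, U_add_nat, abR]

theorem disc_eq (f : Fin d → ℝ) (x : ℤ → Fin d) (n : ℤ) :
    disc f x n = UR x n - (n : ℝ) • f := by
  funext a
  simp [disc, UR]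

theorem F_sh' (D : PData σ M r f l C θ) {x : ℤ → Fin d} (hx : x ∈ XS σ) (n : ℤ) :
    F f (sh n x) = F f x + (UR x n - (n : ℝ) • f) := by
  funext a
  rw [F_sh D hx, ← disc_eq]
  rfl

theorem Qp_F_sh [NeZero d] (D : PData σ M r f l C θ) {x : ℤ → Fin d} (hx : x ∈ XS σ) (n : ℤ) :
    Qp l f (F f (sh n x)) = Qp l f (F f x) + Qp l f (UR x n) := by
  rw [F_sh' D hx, Qp_add, Qp_sub, Qp_f D, sub_zero]

/-- the defect -/
noncomputable def Hd (M : Matrix (Fin d) (Fin d) ℤ) (l f : Fin d → ℝ) (J : ℕ) (x x' : ℤ → Fin d)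
    (T : ℤ → ℤ) (n : ℤ) : Fin d → ℝ :=
  Qp l f (F f x) + Qp l f (UR x (T n)) - (mR M ^ J) *ᵥ (Qp l f (F f x') + Qp l f (UR x' n))

theorem Hd_const (D : PData σ M r f l C θ) {J : ℕ} {x x' : ℤ → Fin d} {T : ℤ → ℤ}
    (h : Desub (fun a => it σ J [a]) x x' T) (n : ℤ) :
    Hd M l f J x x' T n = Hd M l f J x x' T 0 := by
  have hstep : ∀ n, Hd M l f J x x' T (n + 1) = Hd M l f J x x' T n := by
    intro n
    have h1 : UR x (T (n + 1)) = UR x (T n) + abR (it σ J [x' n]) := by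
      have h2 := h.succ n
      rw [h2, UR_add_nat]
      have h3 := h.block n
      rw [h3]
    have h2 : UR x' (n + 1) = UR x' n + abR [x' n] := by
      have := UR_add_nat x' n 1
      rw [win_one] at this
      exact_mod_cast this
    rw [Hd, Hd, h1, h2, Qp_add, Qp_add, abR_it D.sub, Qp_pow D, Matrix.mulVec_add,
      Matrix.mulVec_add, Matrix.mulVec_add]
    abel
  exact eq_of_rec (g := fun _ => (0 : Fin d → ℝ)) (u := fun n => Hd M l f J x x' T n)
    (v := fun _ => Hd M l f J x x' T 0) (fun n => by rw [hstep n, add_zero])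
    (fun n => by rw [add_zero]) rfl n

theorem Hd_eq [NeZero d] (D : PData σ M r f l C θ) {J : ℕ} {x x' : ℤ → Fin d} {T : ℤ → ℤ}
    (hx : x ∈ XS σ) (hx' : x' ∈ XS σ) (n : ℤ) :
    Hd M l f J x x' T n =
      Qp l f (F f (sh (T n) x)) - (mR M ^ J) *ᵥ Qp l f (F f (sh n x')) := by
  rw [Hd, Qp_F_sh D hx, Qp_F_sh D hx']

/-- The defect does not depend on the pair. -/
theorem Hd_univ [NeZero d] (D : PData σ M r f l C θ) {J : ℕ} {x x' y y' : ℤ → Fin d}
    {T S : ℤ → ℤ} (hx : x ∈ XS σ) (hx' : x' ∈ XS σ) (hy : y ∈ XS σ) (hy' : y' ∈ XS σ)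
    (h : Desub (fun a => it σ J [a]) x x' T) (h' : Desub (fun a => it σ J [a]) y y' S) :
    Hd M l f J x x' T 0 = Hd M l f J y y' S 0 := by
  set A := (Matrix.mulVecLin (mR M ^ J)).toContinuousLinearMap with hA
  have hAv : ∀ v, (mR M ^ J) *ᵥ v = A v := fun v => rfl
  set c : ℝ := 1 + ∑ i, l i with hc
  have hc0 : 0 ≤ c := by
    have : 0 ≤ ∑ i, l i := Finset.sum_nonneg fun i _ => (D.per.l_pos i).le
    linarith
  have key : ∀ ε : ℝ, 0 < ε →
      ‖Hd M l f J x x' T 0 - Hd M l f J y y' S 0‖ ≤ (c + ‖A‖ * c) * ε := by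
    intro ε hε
    obtain ⟨R, hR⟩ := F_unif D hε
    obtain ⟨p, _, hp⟩ := exists_match D hx' hy' 0 R 0
    rw [← Hd_const D h p, Hd_eq D hx hx', Hd_eq D hy hy']
    have h1 : ∀ a, |F f (sh p x') a - F f (sh 0 y') a| ≤ ε := by
      apply hR _ (sh_mem hx' p) _ (sh_mem hy' 0)
      intro j hj
      have := hp j hj
      simp only [sh]
      rw [add_comm, this]
      congr 1
      ring
    have h2 : ∀ a, |F f (sh (T p) x) a - F f (sh (S 0) y) a| ≤ ε := by
      apply hR _ (sh_mem hx _) _ (sh_mem hy _)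
      intro j hj
      have w1 := (h.window p R).2
      have w2 := (h'.window 0 R).2
      have w3 : win x' p R = win y' 0 R := win_congr hp
      rw [w3, ← w2] at w1
      rw [w2] at w1
      have w4 := w1.trans w2.symm
      rw [win_congr_iff] at w4
      have hlen : R ≤ ((win y' 0 R).flatMap fun a => it σ J [a]).length := by
        rw [← it_eq_flatMap]
        have := length_le_it D.sub J (win y' 0 R)
        simpa using this
      have := w4 j (by omega)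
      simp only [sh]
      rw [add_comm, this, add_comm]
    have h3 : ‖F f (sh p x') - F f (sh 0 y')‖ ≤ ε := by
      rw [pi_norm_le_iff_of_nonneg hε.le]
      exact h1
    have h4 : ‖F f (sh (T p) x) - F f (sh (S 0) y)‖ ≤ ε := by
      rw [pi_norm_le_iff_of_nonneg hε.le]
      exact h2
    have h5 : Qp l f (F f (sh (T p) x)) - (mR M ^ J) *ᵥ Qp l f (F f (sh p x')) -
        (Qp l f (F f (sh (S 0) y)) - (mR M ^ J) *ᵥ Qp l f (F f (sh 0 y'))) =
        Qp l f (F f (sh (T p) x) - F f (sh (S 0) y)) -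
          A (Qp l f (F f (sh p x') - F f (sh 0 y'))) := by
      rw [Qp_sub, Qp_sub, map_sub, ← hAv, ← hAv]
      abel
    rw [h5]
    refine (norm_sub_le _ _).trans ?_
    have h6 := norm_Qp_le D (F f (sh (T p) x) - F f (sh (S 0) y))
    have h7 := norm_Qp_le D (F f (sh p x') - F f (sh 0 y'))
    have h8 := A.le_opNorm (Qp l f (F f (sh p x') - F f (sh 0 y')))
    have h9 : ‖A‖ * ‖Qp l f (F f (sh p x') - F f (sh 0 y'))‖ ≤ ‖A‖ * (c * ε) := by
      apply mul_le_mul_of_nonneg_left _ (norm_nonneg _)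
      exact h7.trans (mul_le_mul_of_nonneg_left h3 hc0)
    have h10 : ‖Qp l f (F f (sh (T p) x) - F f (sh (S 0) y))‖ ≤ c * ε :=
      h6.trans (mul_le_mul_of_nonneg_left h4 hc0)
    calc _ ≤ c * ε + ‖A‖ * (c * ε) := add_le_add h10 (h8.trans h9)
      _ = (c + ‖A‖ * c) * ε := by ring
  have hfin : ‖Hd M l f J x x' T 0 - Hd M l f J y y' S 0‖ ≤ 0 := by
    apply le_of_forall_pos_le_add
    intro ε hε
    have hpos : 0 < c + ‖A‖ * c + 1 := by positivity
    have h1 := key (ε / (c + ‖A‖ * c + 1)) (by positivity)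
    have h2 : (c + ‖A‖ * c) * (ε / (c + ‖A‖ * c + 1)) ≤ ε := by
      rw [mul_div_assoc', div_le_iff₀ hpos]
      nlinarith
    linarith
  exact sub_eq_zero.1 (norm_le_zero_iff.1 hfin)

theorem isUnit_det_pow (hM : PisotMat M r) (J : ℕ) : IsUnit (M ^ J).det := by
  rw [Matrix.det_pow]
  apply IsUnit.pow
  rcases hM.det with h | h
  · rw [h]; exact isUnit_one
  · rw [h]; exact isUnit_one.neg

theorem mR_pow_injective (hM : PisotMat M r) (J : ℕ) {v : Fin d → ℝ}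
    (h : (mR M ^ J) *ᵥ v = 0) : v = 0 := by
  have h1 : IsUnit (mR M ^ J).det := by
    rw [mR_pow]
    have h2 : ((M ^ J).map (Int.castRingHom ℝ)).det = Int.castRingHom ℝ (M ^ J).det :=
      (RingHom.map_det (Int.castRingHom ℝ) (M ^ J)).symm
    rw [h2]
    exact (isUnit_det_pow hM J).map _
  have h2 : (mR M ^ J)⁻¹ *ᵥ ((mR M ^ J) *ᵥ v) = 0 := by rw [h, Matrix.mulVec_zero]
  rw [Matrix.mulVec_mulVec, Matrix.nonsing_inv_mul _ h1, Matrix.one_mulVec] at h2
  exact h2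

theorem z_exists [NeZero d] (D : PData σ M r f l C θ) :
    ∃ Cz : ℝ, 0 ≤ Cz ∧ ∀ (J : ℕ) (x y x' y' : ℤ → Fin d) (T S : ℤ → ℤ) (k : Fin d → ℤ),
      x ∈ XS σ → y ∈ XS σ → x' ∈ XS σ → y' ∈ XS σ →
      (∀ a, F f x a - F f y a = k a) →
      Desub (fun a => it σ J [a]) x x' T → Desub (fun a => it σ J [a]) y y' S →
      T 0 ≤ 0 → 0 < T 1 → S 0 ≤ 0 → 0 < S 1 →
      ∃ z : Fin d → ℤ, (M ^ J) *ᵥ z = k + U x (T 0) - U y (S 0) ∧ ∀ i, |(z i : ℝ)| ≤ Cz := by
  obtain ⟨CF, hCF, hF⟩ := F_bound D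
  obtain ⟨c1, c2, hc1, hc2, hlen⟩ := length_bounds D
  set c : ℝ := 1 + ∑ i, l i with hc
  have hl0 : 0 ≤ ∑ i, l i := Finset.sum_nonneg fun i _ => (D.per.l_pos i).le
  have hc0 : 0 ≤ c := by linarith
  refine ⟨c * (2 * CF) + ((∑ i, l i) * (2 * CF) + 2 * ((∑ i, l i) * c2)), by positivity, ?_⟩
  intro J x y x' y' T S k hx hy hx' hy' hk hdx hdy hT0 hT1 hS0 hS1
  have hdet := isUnit_det_pow D.pis J
  have hr : 0 < r := by linarith [D.pis.one_lt]
  set w : Fin d → ℤ := k + U x (T 0) - U y (S 0) with hw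
  set z : Fin d → ℤ := (M ^ J)⁻¹ *ᵥ w with hz
  have hzw : (M ^ J) *ᵥ z = w := by
    rw [hz, Matrix.mulVec_mulVec, Matrix.mul_nonsing_inv _ hdet, Matrix.one_mulVec]
  refine ⟨z, hzw, ?_⟩
  -- real versions
  set zR : Fin d → ℝ := fun i => (z i : ℝ) with hzR
  have hMz : (mR M ^ J) *ᵥ zR = fun i => (w i : ℝ) := by
    rw [hzR, mR_mulVec_cast, hzw]
  have hwR : (fun i => (w i : ℝ)) = (F f x - F f y) + (UR x (T 0) - UR y (S 0)) := by
    funext i
    simp only [hw, Pi.sub_apply, Pi.add_apply, UR, hk i]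
    push_cast
    ring
  -- contracting component
  have hH := Hd_univ D hx hx' hy hy' hdx hdy
  simp only [Hd, UR_zero] at hH
  have hQ0 : Qp l f (0 : Fin d → ℝ) = 0 := by simp [Qp]
  rw [hQ0, add_zero, add_zero] at hH
  have hQz : Qp l f zR = Qp l f (F f x' - F f y') := by
    have h1 : (mR M ^ J) *ᵥ (Qp l f zR - Qp l f (F f x' - F f y')) = 0 := by
      rw [Matrix.mulVec_sub, ← Qp_pow D, hMz, hwR, Qp_add, Qp_sub, Qp_sub, Qp_sub,
        Matrix.mulVec_sub]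
      have h2 : Qp l f (F f x) + Qp l f (UR x (T 0)) - (Qp l f (F f y) + Qp l f (UR y (S 0))) =
          mR M ^ J *ᵥ Qp l f (F f x') - mR M ^ J *ᵥ Qp l f (F f y') := by
        rw [sub_eq_sub_iff_add_eq_add] at hH ⊢
        rw [add_comm (mR M ^ J *ᵥ Qp l f (F f x')), ← hH, add_comm]
      rw [← h2]
      abel
    exact sub_eq_zero.1 (mR_pow_injective D.pis J h1)
  have hFd : ∀ u ∈ XS σ, ∀ v ∈ XS σ, ‖F f u - F f v‖ ≤ 2 * CF := by
    intro u hu v hv
    rw [pi_norm_le_iff_of_nonneg (by positivity)]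
    intro a
    rw [Pi.sub_apply, Real.norm_eq_abs]
    have h1 := hF u hu a
    have h2 := hF v hv a
    calc |F f u a - F f v a| ≤ |F f u a| + |F f v a| := abs_sub _ _
      _ ≤ 2 * CF := by linarith
  have hQb : ‖Qp l f zR‖ ≤ c * (2 * CF) := by
    rw [hQz]
    exact (norm_Qp_le D _).trans (mul_le_mul_of_nonneg_left (hFd x' hx' y' hy') hc0)
  -- expanding component
  have hcut : ∀ (x x' : ℤ → Fin d) (T : ℤ → ℤ), Desub (fun a => it σ J [a]) x x' T →
      T 0 ≤ 0 → 0 < T 1 → |l ⬝ᵥ UR x (T 0)| ≤ r ^ J * ((∑ i, l i) * c2) := by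
    intro x x' T h h0 h1
    have h2 := h.succ 0
    simp only [zero_add] at h2
    obtain ⟨m, hm⟩ := Int.le.dest h0
    have h3 := UR_add_nat x (T 0) m
    rw [hm, UR_zero] at h3
    have h4 : UR x (T 0) = -abR (win x (T 0) m) := by
      rw [eq_neg_iff_add_eq_zero, ← h3]
    rw [h4, dotProduct_neg, abs_neg, dot_abR]
    have h5 : (m : ℝ) ≤ c2 * r ^ J := by
      have h6 : m ≤ (it σ J [x' 0]).length := by omega
      have h7 : (m : ℝ) ≤ ((it σ J [x' 0]).length : ℝ) := by exact_mod_cast h6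
      exact h7.trans (hlen J (x' 0)).2
    have h6 : ∀ i, l i ≤ ∑ i, l i := fun i =>
      Finset.single_le_sum (fun j _ => (D.per.l_pos j).le) (Finset.mem_univ i)
    have h7 := wt_le h6 (win x (T 0) m)
    have h8 := le_wt (fun i => (D.per.l_pos i).le) (win x (T 0) m)
    rw [win_length] at h7 h8
    rw [zero_mul] at h8
    rw [abs_of_nonneg h8]
    calc wt l (win x (T 0) m) ≤ (∑ i, l i) * m := h7
      _ ≤ (∑ i, l i) * (c2 * r ^ J) := by gcongr
      _ = r ^ J * ((∑ i, l i) * c2) := by ring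
  have hdotz : |l ⬝ᵥ zR| ≤ (∑ i, l i) * (2 * CF) + 2 * ((∑ i, l i) * c2) := by
    have h1 : r ^ J * (l ⬝ᵥ zR) = l ⬝ᵥ (F f x - F f y) + (l ⬝ᵥ UR x (T 0) - l ⬝ᵥ UR y (S 0)) := by
      rw [← dot_pow D, hMz, hwR, dotProduct_add, dotProduct_sub l (UR x (T 0))]
    have h2 := hcut x x' T hdx hT0 hT1
    have h3 := hcut y y' S hdy hS0 hS1
    have h4 := (abs_dot_le D (F f x - F f y)).trans
      (mul_le_mul_of_nonneg_left (hFd x hx y hy) hl0)
    have hrJ : 1 ≤ r ^ J := one_le_pow₀ D.pis.one_lt.le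
    have h5 : r ^ J * |l ⬝ᵥ zR| ≤
        r ^ J * ((∑ i, l i) * (2 * CF) + 2 * ((∑ i, l i) * c2)) := by
      rw [← abs_of_pos (show 0 < r ^ J by positivity), ← abs_mul, h1,
        abs_of_pos (show 0 < r ^ J by positivity)]
      have h6 : |l ⬝ᵥ (F f x - F f y) + (l ⬝ᵥ UR x (T 0) - l ⬝ᵥ UR y (S 0))| ≤
          |l ⬝ᵥ (F f x - F f y)| + (|l ⬝ᵥ UR x (T 0)| + |l ⬝ᵥ UR y (S 0)|) :=
        (abs_add_le _ _).trans (add_le_add le_rfl (abs_sub _ _))
      have h7 : (∑ i, l i) * (2 * CF) ≤ r ^ J * ((∑ i, l i) * (2 * CF)) :=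
        le_mul_of_one_le_left (by positivity) hrJ
      linarith
    exact le_of_mul_le_mul_left h5 (by positivity)
  intro i
  have h1 : zR = Qp l f zR + (l ⬝ᵥ zR) • f := by
    rw [Qp]
    abel
  have h2 : ‖zR‖ ≤ ‖Qp l f zR‖ + |l ⬝ᵥ zR| := by
    conv_lhs => rw [h1]
    refine (norm_add_le _ _).trans ?_
    rw [norm_smul, Real.norm_eq_abs]
    have := norm_f_le D
    have h3 : |l ⬝ᵥ zR| * ‖f‖ ≤ |l ⬝ᵥ zR| * 1 :=
      mul_le_mul_of_nonneg_left this (abs_nonneg _)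
    linarith
  have h3 := norm_le_pi_norm zR i
  rw [Real.norm_eq_abs] at h3
  exact h3.trans (h2.trans (add_le_add hQb hdotz))

end Pool.Agent.Helper94_Pisot
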