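import Mathlib
import Pool.Agent.Helper94_Pisot.Transfer

/-!
# Fibres: finiteness, and mismatches of density zero
-/

set_option autoImplicit false

namespace Pool.Agent.Helper94_Pisot

open Matrix Filter Topology

variable {d : ℕ}

/-- two points lie in the same fibre -/
def Fib (f : Fin d → ℝ) (x y : ℤ → Fin d) : Prop := ∀ a, ∃ k : ℤ, F f x a - F f y a = k

variable {σ : Fin d → List (Fin d)} {M : Matrix (Fin d) (Fin d) ℤ} {r : ℝ} {f l : Fin d → ℝ}
  {C θ : ℝ}

/-- The combined consequence of the transfer lemma. -/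
theorem fib_data [NeZero d] (D : PData σ M r f l C θ) :
    ∃ Cz : ℕ, ∀ (J : ℕ) (x y x' y' : ℤ → Fin d) (T S : ℤ → ℤ),
      x ∈ XS σ → y ∈ XS σ → x' ∈ XS σ → y' ∈ XS σ → Fib f x y →
      Desub (fun a => it σ J [a]) x x' T → Desub (fun a => it σ J [a]) y y' S →
      T 0 ≤ 0 → 0 < T 1 → S 0 ≤ 0 → 0 < S 1 →
      ∃ z : Fin d → ℤ, (∀ i, |z i| ≤ Cz) ∧ T 0 - S 0 = ∑ i, ((M ^ J) *ᵥ z) i := by
  obtain ⟨Cz, hCz0, hCz⟩ := z_exists D
  refine ⟨⌈Cz⌉₊, ?_⟩
  intro J x y x' y' T S hx hy hx' hy' hfib hdx hdy hT0 hT1 hS0 hS1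
  choose k hk using hfib
  obtain ⟨z, hz1, hz2⟩ := hCz J x y x' y' T S k hx hy hx' hy' hk hdx hdy hT0 hT1 hS0 hS1
  refine ⟨z, fun i => ?_, ?_⟩
  · have h1 := (hz2 i).trans (Nat.le_ceil Cz)
    rw [← Int.cast_abs] at h1
    exact_mod_cast h1
  · rw [hz1]
    simp only [Pi.add_apply, Pi.sub_apply, Finset.sum_sub_distrib, Finset.sum_add_distrib, sum_U]
    have h1 : ∑ a, k a = 0 := by
      have h2 : ((∑ a, k a : ℤ) : ℝ) = 0 := by
        push_cast
        simp only [← hk]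
        rw [Finset.sum_sub_distrib, sumF_const D hx hy, sub_self]
      exact_mod_cast h2
    rw [h1]
    ring

/-! ### Finiteness of fibres -/

theorem Desub.window_neg {τ : Fin d → List (Fin d)} {x x' : ℤ → Fin d} {T : ℤ → ℤ}
    (h : Desub τ x x' T) : T (-1) = T 0 - (τ (x' (-1))).length := by
  have := h.succ (-1)
  simp only [neg_add_cancel] at this
  omega

theorem fiber_code [NeZero d] (D : PData σ M r f l C θ) {x : ℤ → Fin d} (hx : x ∈ XS σ) :
    ∃ P : Finset ((Fin d → ℤ) × (Fin d × Fin d × Fin d)), ∀ N : ℕ,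
      ∃ g : (ℤ → Fin d) → (Fin d → ℤ) × (Fin d × Fin d × Fin d),
        (∀ y ∈ XS σ, Fib f x y → g y ∈ P) ∧
        (∀ y ∈ XS σ, ∀ w ∈ XS σ, Fib f x y → Fib f x w → g y = g w →
          ∀ i : ℤ, |i| ≤ N → y i = w i) := by
  classical
  obtain ⟨Cz, hCz⟩ := fib_data D
  refine ⟨(Fintype.piFinset fun _ : Fin d => Finset.Icc (-(Cz : ℤ)) Cz) ×ˢ Finset.univ, ?_⟩
  intro N
  obtain ⟨J, _, hJ⟩ := long_words D (N + 1)
  set τ : Fin d → List (Fin d) := fun a => it σ J [a] with hτ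
  obtain ⟨x', hx', T, hdx, hT0, hT1⟩ := desub_exists D J hx
  have hall : ∀ y : ℤ → Fin d, ∃ (z : Fin d → ℤ) (y' : ℤ → Fin d) (S : ℤ → ℤ),
      y ∈ XS σ → Fib f x y → (Desub τ y y' S ∧ S 0 ≤ 0 ∧ 0 < S 1 ∧ (∀ i, |z i| ≤ Cz) ∧
        T 0 - S 0 = ∑ i, ((M ^ J) *ᵥ z) i) := by
    intro y
    by_cases hy : y ∈ XS σ ∧ Fib f x y
    · obtain ⟨y', hy', S, hdy, hS0, hS1⟩ := desub_exists D J hy.1
      obtain ⟨z, hz1, hz2⟩ := hCz J x y x' y' T S hx hy.1 hx' hy' hy.2 hdx hdy hT0 hT1 hS0 hS1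
      exact ⟨z, y', S, fun _ _ => ⟨hdy, hS0, hS1, hz1, hz2⟩⟩
    · exact ⟨0, y, id, fun h1 h2 => absurd ⟨h1, h2⟩ hy⟩
  choose z y' S hS using hall
  refine ⟨fun y => (z y, (y' y (-1), y' y 0, y' y 1)), ?_, ?_⟩
  · intro y hy hfib
    obtain ⟨_, _, _, h1, _⟩ := hS y hy hfib
    rw [Finset.mem_product]
    refine ⟨?_, Finset.mem_univ _⟩
    rw [Fintype.mem_piFinset]
    intro i
    rw [Finset.mem_Icc]
    exact abs_le.1 (h1 i)
  · intro y hy w hw hfy hfw hg i hi
    obtain ⟨hdy, hy0, hy1, _, hyz⟩ := hS y hy hfy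
    obtain ⟨hdw, hw0, hw1, _, hwz⟩ := hS w hw hfw
    have hz : z y = z w := congrArg Prod.fst hg
    have h3 := congrArg Prod.snd hg
    have hm1 : y' y (-1) = y' w (-1) := congrArg Prod.fst h3
    have h4 := congrArg Prod.snd h3
    have hm2 : y' y 0 = y' w 0 := congrArg Prod.fst h4
    have hm3 : y' y 1 = y' w 1 := congrArg Prod.snd h4
    have hS0 : S y 0 = S w 0 := by
      rw [hz] at hyz
      omega
    have hneg : S y (-1) = S w (-1) := by
      rw [hdy.window_neg, hdw.window_neg, hS0, hm1]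
    have hwin : win (y' y) (-1) 3 = win (y' w) (-1) 3 := by
      apply win_congr
      intro j hj
      interval_cases j
      · simpa using hm1
      · simpa using hm2
      · simpa using hm3
    obtain ⟨a1, a2⟩ := hdy.window (-1) 3
    obtain ⟨b1, b2⟩ := hdw.window (-1) 3
    rw [hwin, hneg] at a2
    have h5 := a2.trans b2.symm
    rw [win_congr_iff] at h5
    -- the relevant position
    have hi' := abs_le.1 hi
    have e1 := hdy.window_neg
    have e2 := hJ (y' y (-1))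
    have e3 : S y 2 = S y 1 + (τ (y' y 1)).length := hdy.succ 1
    have e4 := hJ (y' y 1)
    have e5 : (τ (y' y (-1))).length = (it σ J [y' y (-1)]).length := rfl
    have e6 : (τ (y' y 1)).length = (it σ J [y' y 1]).length := rfl
    have e7 : S y (-1 + (3 : ℕ)) = S y 2 := by norm_num
    rw [e7, hwin] at a1
    have h6 := h5 (i - S w (-1)).toNat (by omega)
    have h7 : (((i - S w (-1)).toNat : ℕ) : ℤ) = i - S w (-1) := by omega
    rw [h7] at h6
    have h8 : S w (-1) + (i - S w (-1)) = i := by ring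
    rw [h8] at h6
    exact h6

theorem fiber_finite [NeZero d] (D : PData σ M r f l C θ) {x : ℤ → Fin d} (hx : x ∈ XS σ) :
    {y | y ∈ XS σ ∧ Fib f x y}.Finite := by
  classical
  obtain ⟨P, hP⟩ := fiber_code D hx
  by_contra hinf
  obtain ⟨A, hA, hcard⟩ := Set.Infinite.exists_subset_card_eq hinf (P.card + 1)
  -- a window separating the elements of `A`
  have hsep : ∃ N : ℕ, ∀ y ∈ A, ∀ w ∈ A, (∀ i : ℤ, |i| ≤ N → y i = w i) → y = w := by
    have h1 : ∀ y w : ℤ → Fin d, ∃ n : ℕ, (∀ i : ℤ, |i| ≤ n → y i = w i) → y = w := by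
      intro y w
      by_cases h : y = w
      · exact ⟨0, fun _ => h⟩
      · obtain ⟨i, hi⟩ := Function.ne_iff.1 h
        refine ⟨i.natAbs, fun h2 => absurd (h2 i ?_) hi⟩
        rw [Int.abs_eq_natAbs]
    choose n hn using h1
    refine ⟨∑ y ∈ A, ∑ w ∈ A, n y w, fun y hy w hw h => hn y w fun i hi => h i ?_⟩
    refine hi.trans ?_
    have h2 : n y w ≤ ∑ w ∈ A, n y w :=
      Finset.single_le_sum (f := fun w => n y w) (fun _ _ => Nat.zero_le _) hw
    have h3 : ∑ w ∈ A, n y w ≤ ∑ y ∈ A, ∑ w ∈ A, n y w :=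
      Finset.single_le_sum (f := fun y => ∑ w ∈ A, n y w) (fun _ _ => Nat.zero_le _) hy
    exact_mod_cast h2.trans h3
  obtain ⟨N, hN⟩ := hsep
  obtain ⟨g, hg1, hg2⟩ := hP N
  have hle : A.card ≤ P.card := by
    apply Finset.card_le_card_of_injOn g
    · intro y hy
      have := hA hy
      exact hg1 y this.1 this.2
    · intro y hy w hw hgy
      have h1 := hA hy
      have h2 := hA hw
      exact hN y hy w hw (hg2 y h1.1 w h2.1 h1.2 h2.2 hgy)
  omega

/-! ### Words with a given abelianization -/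

theorem exists_word (v : Fin d → ℤ) (hv : ∀ i, 0 ≤ v i) : ∃ w : List (Fin d), ab w = v := by
  classical
  refine ⟨(∑ i, (v i).toNat • ({i} : Multiset (Fin d))).toList, ?_⟩
  funext i
  simp only [ab]
  rw [← Multiset.coe_count, Multiset.coe_toList, Multiset.count_sum']
  simp only [Multiset.count_nsmul, Multiset.count_singleton]
  rw [Finset.sum_eq_single i]
  · simp [hv i]
  · intro j _ hj
    simp [Ne.symm hj]
  · simp

theorem exists_pair (z : Fin d → ℤ) (B : ℕ) (hz : ∀ i, |z i| ≤ B) :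
    ∃ α β : List (Fin d), ab α - ab β = z ∧ α.length ≤ d * B ∧ β.length ≤ d * B := by
  obtain ⟨α, hα⟩ := exists_word (fun i => max (z i) 0) (fun i => le_max_right _ _)
  obtain ⟨β, hβ⟩ := exists_word (fun i => max (-z i) 0) (fun i => le_max_right _ _)
  refine ⟨α, β, ?_, ?_, ?_⟩
  · rw [hα, hβ]
    funext i
    simp only [Pi.sub_apply]
    omega
  · have h1 := sum_ab α
    rw [hα] at h1
    have h2 : ∑ i, max (z i) 0 ≤ ∑ _i : Fin d, (B : ℤ) := by
      apply Finset.sum_le_sum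
      intro i _
      have := abs_le.1 (hz i)
      omega
    rw [h1] at h2
    simp at h2
    exact_mod_cast h2
  · have h1 := sum_ab β
    rw [hβ] at h1
    have h2 : ∑ i, max (-z i) 0 ≤ ∑ _i : Fin d, (B : ℤ) := by
      apply Finset.sum_le_sum
      intro i _
      have := abs_le.1 (hz i)
      omega
    rw [h1] at h2
    simp at h2
    exact_mod_cast h2

/-! ### Mismatches -/

/-- The hypothesis on the substitution: `σ^J(ab)` and `σ^J(ba)` agree up to `o(r^J)` letters. -/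
def SwapSmall (σ : Fin d → List (Fin d)) (r : ℝ) : Prop :=
  ∀ ε : ℝ, 0 < ε → ∃ J : ℕ, ∀ a b : Fin d,
    (ham (it σ J [a, b]) (it σ J [b, a]) : ℝ) ≤ ε * r ^ J

theorem ham_mid {P1 P2 P3 Q1 Q2 Q3 : List (Fin d)} (h1 : P1.length = Q1.length)
    (h2 : P2.length = Q2.length) : ham P2 Q2 ≤ ham (P1 ++ P2 ++ P3) (Q1 ++ Q2 ++ Q3) := by
  rw [ham_append (by simp [h1, h2]), ham_append h1]
  omega

theorem sum_mulVec_ab (hσ : Sub σ M) (J : ℕ) (w : List (Fin d)) :
    ∑ i, ((M ^ J) *ᵥ ab w) i = ((it σ J w).length : ℤ) := by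
  rw [← ab_it hσ, sum_ab]

theorem block_mismatch [NeZero d] (D : PData σ M r f l C θ) (hyp : SwapSmall σ r) {ε : ℝ}
    (hε : 0 < ε) : ∃ Tmax : ℕ, ∀ x ∈ XS σ, ∀ y ∈ XS σ, Fib f x y →
      ∃ T : ℕ, 1 ≤ T ∧ T ≤ Tmax ∧ (ham (win x 0 T) (win y 0 T) : ℝ) ≤ ε * T := by
  classical
  obtain ⟨Cz, hCz⟩ := fib_data D
  obtain ⟨c1, c2, hc1, hc2, hlen⟩ := length_bounds D
  set n := d * Cz + 2 + d * (Cz + 2) with hn
  obtain ⟨c, hc⟩ := ham_perm_uniform σ n
  have hr : 0 < r := by linarith [D.pis.one_lt]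
  obtain ⟨J, hJ⟩ := hyp (ε * c1 / (c + 1)) (by positivity)
  set h : ℕ := ⌊(ε * c1 / (c + 1)) * r ^ J⌋₊ with hh
  have hJh : ∀ a b : Fin d, ham (it σ J [a, b]) (it σ J [b, a]) ≤ h := by
    intro a b
    exact Nat.le_floor (hJ a b)
  obtain ⟨L, hL1, hL⟩ := exists_len_bound (fun a => it σ J [a])
  refine ⟨2 * L, fun x hx y hy hfib => ?_⟩
  obtain ⟨x', hx', T, hdx, hT0, hT1⟩ := desub_exists D J hx
  obtain ⟨y', hy', S, hdy, hS0, hS1⟩ := desub_exists D J hy
  obtain ⟨z, hz1, hz2⟩ := hCz J x y x' y' T S hx hy hx' hy' hfib hdx hdy hT0 hT1 hS0 hS1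
  set u := win x' 0 2 with hu
  set v := win y' 0 2 with hv
  have hulen : u.length = 2 := by rw [hu]; simp
  have hvlen : v.length = 2 := by rw [hv]; simp
  set z2 : Fin d → ℤ := z + ab u - ab v with hz2def
  have habbd : ∀ (w : List (Fin d)), w.length = 2 → ∀ i, 0 ≤ ab w i ∧ ab w i ≤ 2 := by
    intro w hw i
    refine ⟨ab_nonneg w i, ?_⟩
    have : w.count i ≤ w.length := List.count_le_length
    simp only [ab]
    omega
  have hz2b : ∀ i, |z2 i| ≤ ((Cz + 2 : ℕ) : ℤ) := by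
    intro i
    have h1 := abs_le.1 (hz1 i)
    have h2 := habbd u hulen i
    have h3 := habbd v hvlen i
    simp only [hz2def, Pi.sub_apply, Pi.add_apply]
    rw [abs_le]
    push_cast
    constructor <;> omega
  obtain ⟨α, β, hαβ, hα, hβ⟩ := exists_pair z Cz hz1
  obtain ⟨α', β', hαβ', hα', hβ'⟩ := exists_pair z2 (Cz + 2) hz2b
  have hperm : (α ++ u ++ β').Perm (β ++ v ++ α') := by
    apply perm_of_ab
    simp only [ab_append]
    have h1 : ab α = z + ab β := by rw [← hαβ]; abel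
    have h2 : ab α' = z2 + ab β' := by rw [← hαβ']; abel
    rw [h1, h2, hz2def]
    abel
  have hlenle : (α ++ u ++ β').length ≤ n := by
    simp only [List.length_append, hulen, hn]
    omega
  have hham := hc _ _ hlenle hperm J h hJh
  -- cut positions
  have hw1 := hdx.window 0 2
  have hw2 := hdy.window 0 2
  rw [← it_eq_flatMap, ← hu] at hw1
  rw [← it_eq_flatMap, ← hv] at hw2
  obtain ⟨hw1a, hw1b⟩ := hw1
  obtain ⟨hw2a, hw2b⟩ := hw2
  have hcast : ((2 : ℕ) : ℤ) = 2 := rfl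
  rw [hcast, zero_add] at hw1a hw2a
  -- lengths of connecting words
  have hoff : (it σ J α).length - T 0 = (it σ J β).length - S 0 := by
    have h1 : ∑ i, ((M ^ J) *ᵥ z) i = ((it σ J α).length : ℤ) - (it σ J β).length := by
      rw [← sum_mulVec_ab D.sub, ← sum_mulVec_ab D.sub, ← hαβ, Matrix.mulVec_sub]
      simp
    omega
  have hTs : T 2 = T 1 + (it σ J [x' 1]).length := hdx.succ 1
  have hSs : S 2 = S 1 + (it σ J [y' 1]).length := hdy.succ 1
  have hT1s : T 1 = T 0 + (it σ J [x' 0]).length := hdx.succ 0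
  have hS1s : S 1 = S 0 + (it σ J [y' 0]).length := hdy.succ 0
  set Tn : ℕ := (min (T 2) (S 2)).toNat with hTn
  have hL0 : (it σ J [x' 0]).length ≤ L := hL (x' 0)
  have hL1' : (it σ J [x' 1]).length ≤ L := hL (x' 1)
  have hposx := it_pos D.sub J (x' 1)
  have hposy := it_pos D.sub J (y' 1)
  refine ⟨Tn, by omega, by omega, ?_⟩
  -- decomposition of the two words
  have hX : it σ J (α ++ u ++ β') = (it σ J α ++ win x (T 0) (-T 0).toNat) ++ win x 0 Tn ++
      (win x Tn (T 2 - Tn).toNat ++ it σ J β') := by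
    rw [it_append, it_append, ← hw1b]
    have h1 : (it σ J u).length = (-T 0).toNat + Tn + (T 2 - Tn).toNat := by omega
    rw [h1, win_add, win_add]
    have h2 : T 0 + ((-T 0).toNat : ℤ) = 0 := by omega
    have h3 : T 0 + (((-T 0).toNat + Tn : ℕ) : ℤ) = Tn := by push_cast; omega
    rw [h2, h3]
    simp only [List.append_assoc]
  have hY : it σ J (β ++ v ++ α') = (it σ J β ++ win y (S 0) (-S 0).toNat) ++ win y 0 Tn ++
      (win y Tn (S 2 - Tn).toNat ++ it σ J α') := by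
    rw [it_append, it_append, ← hw2b]
    have h1 : (it σ J v).length = (-S 0).toNat + Tn + (S 2 - Tn).toNat := by omega
    rw [h1, win_add, win_add]
    have h2 : S 0 + ((-S 0).toNat : ℤ) = 0 := by omega
    have h3 : S 0 + (((-S 0).toNat + Tn : ℕ) : ℤ) = Tn := by push_cast; omega
    rw [h2, h3]
    simp only [List.append_assoc]
  rw [hX, hY] at hham
  have hmid : ham (win x 0 Tn) (win y 0 Tn) ≤ c * h := by
    refine le_trans (ham_mid ?_ (by simp)) hham
    simp only [List.length_append, win_length]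
    omega
  have h1 : (ham (win x 0 Tn) (win y 0 Tn) : ℝ) ≤ c * ((ε * c1 / (c + 1)) * r ^ J) := by
    calc (ham (win x 0 Tn) (win y 0 Tn) : ℝ) ≤ ((c * h : ℕ) : ℝ) := by exact_mod_cast hmid
      _ = c * (h : ℝ) := by push_cast; ring
      _ ≤ c * ((ε * c1 / (c + 1)) * r ^ J) := by
        gcongr
        exact Nat.floor_le (by positivity)
  have h2 : c1 * r ^ J ≤ (Tn : ℝ) := by
    have h3 : ((it σ J [x' 1]).length : ℤ) ≤ Tn ∨ ((it σ J [y' 1]).length : ℤ) ≤ Tn := by
      omega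
    rcases h3 with h3 | h3
    · have h4 : ((it σ J [x' 1]).length : ℝ) ≤ Tn := by exact_mod_cast h3
      exact (hlen J (x' 1)).1.trans h4
    · have h4 : ((it σ J [y' 1]).length : ℝ) ≤ Tn := by exact_mod_cast h3
      exact (hlen J (y' 1)).1.trans h4
  refine h1.trans ?_
  have h3 : (c : ℝ) * ((ε * c1 / (c + 1)) * r ^ J) ≤ ε * (c1 * r ^ J) := by
    have h4 : (c : ℝ) / (c + 1) ≤ 1 := by
      rw [div_le_one (by positivity)]
      linarith
    calc (c : ℝ) * ((ε * c1 / (c + 1)) * r ^ J) = (c / (c + 1)) * (ε * (c1 * r ^ J)) := by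
          field_simp
      _ ≤ 1 * (ε * (c1 * r ^ J)) := by
          gcongr
      _ = ε * (c1 * r ^ J) := one_mul _
  exact h3.trans (by gcongr)

theorem Fib.sh (D : PData σ M r f l C θ) {x y : ℤ → Fin d} (hx : x ∈ XS σ) (hy : y ∈ XS σ)
    (h : Fib f x y) (n : ℤ) : Fib f (sh n x) (sh n y) := by
  intro a
  obtain ⟨k, hk⟩ := h a
  refine ⟨k + U x n a - U y n a, ?_⟩
  rw [F_sh D hx, F_sh D hy]
  simp only [disc]
  push_cast
  linarith

theorem density [NeZero d] (D : PData σ M r f l C θ) (hyp : SwapSmall σ r) {ε : ℝ}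
    (hε : 0 < ε) : ∃ K : ℕ, ∀ (N : ℕ), ∀ x ∈ XS σ, ∀ y ∈ XS σ, Fib f x y →
      (ham (win x 0 N) (win y 0 N) : ℝ) ≤ ε * N + K := by
  obtain ⟨Tmax, hT⟩ := block_mismatch D hyp hε
  refine ⟨Tmax, fun N => ?_⟩
  induction N using Nat.strong_induction_on with
  | _ N ih =>
    intro x hx y hy hfib
    obtain ⟨T, hT1, hT2, hT3⟩ := hT x hx y hy hfib
    rcases le_or_gt N T with hNT | hNT
    · have h1 := ham_le_length (win x 0 N) (win y 0 N)
      rw [win_length] at h1
      have h2 : (ham (win x 0 N) (win y 0 N) : ℝ) ≤ N := by exact_mod_cast h1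
      have h3 : (N : ℝ) ≤ Tmax := by exact_mod_cast hNT.trans hT2
      have h4 : 0 ≤ ε * N := by positivity
      linarith
    · obtain ⟨m, rfl⟩ := Nat.exists_eq_add_of_le hNT.le
      have h1 := ih m (by omega) (Helper94_Pisot.sh T x) (sh_mem hx _) (Helper94_Pisot.sh T y)
        (sh_mem hy _) (hfib.sh D hx hy T)
      rw [win_sh, win_sh] at h1
      rw [win_add, win_add, ham_append (by simp)]
      push_cast
      rw [add_comm (0 : ℤ)] at h1 ⊢
      linarith

end Pool.Agent.Helper94_Pisot
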