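import Mathlib

/-!
# Equidistribution of translation orbits on the torus
-/

set_option autoImplicit false

namespace Pool.Agent.Helper94_Pisot

open Filter Topology MeasureTheory UnitAddTorus

variable {m : ℕ}

theorem mFourier_add_arg (k : Fin m → ℤ) (x y : Fin m → UnitAddCircle) :
    mFourier k (x + y) = mFourier k x * mFourier k y := by
  simp only [mFourier, ContinuousMap.coe_mk, Pi.add_apply, fourier_apply, smul_add,
    AddCircle.toCircle_add, Circle.coe_mul, Finset.prod_mul_distrib]

theorem mFourier_nsmul (k : Fin m → ℤ) (n : ℕ) (x : Fin m → UnitAddCircle) :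
    mFourier k (n • x) = (mFourier k x) ^ n := by
  induction n with
  | zero =>
    rw [zero_smul, pow_zero]
    simp [mFourier]
  | succ n ih => rw [succ_nsmul, mFourier_add_arg, ih, pow_succ]

theorem norm_mFourier_apply (k : Fin m → ℤ) (x : Fin m → UnitAddCircle) :
    ‖mFourier k x‖ = 1 := by
  simp only [mFourier, ContinuousMap.coe_mk, fourier_apply, norm_prod, Circle.norm_coe,
    Finset.prod_const_one]

instance prob_circle : IsProbabilityMeasure (volume : Measure UnitAddCircle) :=
  ⟨UnitAddCircle.measure_univ⟩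

instance inv_torus : (volume : Measure (Fin m → UnitAddCircle)).IsAddLeftInvariant := by
  rw [volume_pi]
  infer_instance

theorem integral_mFourier {γ : Fin m → UnitAddCircle} {k : Fin m → ℤ} (h : mFourier k γ ≠ 1) :
    ∫ x : Fin m → UnitAddCircle, mFourier k x = 0 := by
  have h1 : ∫ x : Fin m → UnitAddCircle, mFourier k (γ + x) = ∫ x, mFourier k x :=
    integral_add_left_eq_self (fun x : Fin m → UnitAddCircle => mFourier k x) γ
  simp only [mFourier_add_arg] at h1
  rw [integral_const_mul] at h1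
  have h2 : (mFourier k γ - 1) * ∫ x : Fin m → UnitAddCircle, mFourier k x = 0 := by
    rw [sub_mul, h1, one_mul, sub_self]
  exact (mul_eq_zero.1 h2).resolve_left (sub_ne_zero.2 h)

/-- Birkhoff averages -/
noncomputable def avg (γ y : Fin m → UnitAddCircle) (g : (Fin m → UnitAddCircle) → ℂ) (N : ℕ) : ℂ :=
  ((N : ℂ))⁻¹ * ∑ n ∈ Finset.range N, g (y + n • γ)

theorem avg_mFourier {γ : Fin m → UnitAddCircle} (y : Fin m → UnitAddCircle) {k : Fin m → ℤ}
    (h : mFourier k γ ≠ 1) : Tendsto (avg γ y (mFourier k)) atTop (𝓝 0) := by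
  set c := mFourier k γ with hc
  have hc1 : ‖c‖ = 1 := norm_mFourier_apply k γ
  have hne : 0 < ‖c - 1‖ := norm_pos_iff.2 (sub_ne_zero.2 h)
  have hb : ∀ N : ℕ, ‖avg γ y (mFourier k) N‖ ≤ (2 / ‖c - 1‖) * ((N : ℝ))⁻¹ := by
    intro N
    rw [avg, norm_mul, norm_inv, Complex.norm_natCast, mul_comm]
    gcongr
    have h1 : ∀ n : ℕ, mFourier k (y + n • γ) = mFourier k y * c ^ n := by
      intro n
      rw [mFourier_add_arg, mFourier_nsmul]
    simp only [h1]
    rw [← Finset.mul_sum, norm_mul, norm_mFourier_apply, one_mul, geom_sum_eq h, norm_div]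
    gcongr
    refine (norm_sub_le _ _).trans ?_
    rw [norm_pow, hc1, one_pow, norm_one]
    norm_num
  rw [tendsto_zero_iff_norm_tendsto_zero]
  refine squeeze_zero (fun _ => norm_nonneg _) hb ?_
  have h2 : Tendsto (fun N : ℕ => ((N : ℝ))⁻¹) atTop (𝓝 0) :=
    tendsto_inv_atTop_zero.comp tendsto_natCast_atTop_atTop
  simpa using h2.const_mul (2 / ‖c - 1‖)

theorem avg_span {γ : Fin m → UnitAddCircle} (hγ : ∀ k : Fin m → ℤ, k ≠ 0 → mFourier k γ ≠ 1)
    (y : Fin m → UnitAddCircle) (g : C(Fin m → UnitAddCircle, ℂ))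
    (hg : g ∈ Submodule.span ℂ (Set.range <| mFourier (d := Fin m))) :
    Tendsto (avg γ y g) atTop (𝓝 (∫ x, g x)) := by
  induction hg using Submodule.span_induction with
  | mem g hg =>
    obtain ⟨k, rfl⟩ := hg
    by_cases hk : k = 0
    · subst hk
      rw [mFourier_zero]
      have h1 : ∀ᶠ N : ℕ in atTop,
          avg γ y (⇑(1 : C(Fin m → UnitAddCircle, ℂ))) N = 1 := by
        filter_upwards [eventually_gt_atTop 0] with N hN
        rw [avg]
        simp only [ContinuousMap.one_apply, Finset.sum_const, Finset.card_range, nsmul_eq_mul,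
          mul_one]
        exact inv_mul_cancel₀ (by exact_mod_cast hN.ne')
      have h2 : ∫ x : Fin m → UnitAddCircle, (1 : C(Fin m → UnitAddCircle, ℂ)) x = 1 := by
        simp
      rw [h2]
      exact tendsto_const_nhds.congr' (h1.mono fun N hN => hN.symm)
    · rw [integral_mFourier (hγ k hk)]
      exact avg_mFourier y (hγ k hk)
  | zero =>
    have h1 : avg γ y (⇑(0 : C(Fin m → UnitAddCircle, ℂ))) = fun _ => 0 := by
      funext N
      simp [avg]
    rw [h1]
    simp
  | add g g' _ _ ih ih' =>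
    have h1 : avg γ y (⇑(g + g')) = fun N => avg γ y g N + avg γ y g' N := by
      funext N
      simp only [avg, ContinuousMap.add_apply, Finset.sum_add_distrib, mul_add]
    have h2 : ∫ x, (g + g') x = (∫ x, g x) + ∫ x, g' x := by
      simp only [ContinuousMap.add_apply]
      exact integral_add (g.continuous.integrable_of_hasCompactSupport
        (HasCompactSupport.of_compactSpace _)) (g'.continuous.integrable_of_hasCompactSupport
        (HasCompactSupport.of_compactSpace _))
    rw [h1, h2]
    exact ih.add ih'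
  | smul c g _ ih =>
    have h1 : avg γ y (⇑(c • g)) = fun N => c * avg γ y g N := by
      funext N
      simp only [avg, ContinuousMap.smul_apply, smul_eq_mul, ← Finset.mul_sum]
      ring
    have h2 : ∫ x, (c • g) x = c * ∫ x, g x := by
      simp only [ContinuousMap.smul_apply, smul_eq_mul]
      exact integral_const_mul _ _
    rw [h1, h2]
    exact ih.const_mul c

theorem norm_avg_le (γ y : Fin m → UnitAddCircle) (g : C(Fin m → UnitAddCircle, ℂ)) (N : ℕ) :
    ‖avg γ y g N‖ ≤ ‖g‖ := by
  rcases Nat.eq_zero_or_pos N with hN | hN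
  · subst hN
    simp [avg]
  · rw [avg, norm_mul, norm_inv, Complex.norm_natCast, inv_mul_le_iff₀ (by exact_mod_cast hN)]
    refine (norm_sum_le _ _).trans ?_
    refine (Finset.sum_le_sum fun n _ => g.norm_coe_le_norm _).trans ?_
    simp

/-- Weyl's equidistribution theorem. -/
theorem weyl {γ : Fin m → UnitAddCircle} (hγ : ∀ k : Fin m → ℤ, k ≠ 0 → mFourier k γ ≠ 1)
    (y : Fin m → UnitAddCircle) (g : C(Fin m → UnitAddCircle, ℂ)) :
    Tendsto (avg γ y g) atTop (𝓝 (∫ x, g x)) := by
  rw [Metric.tendsto_atTop]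
  intro ε hε
  have hg : g ∈ (Submodule.span ℂ (Set.range <| mFourier (d := Fin m))).topologicalClosure := by
    rw [span_mFourier_closure_eq_top]
    trivial
  have hg' : g ∈ closure ((Submodule.span ℂ (Set.range <| mFourier (d := Fin m)) :
      Submodule ℂ C(Fin m → UnitAddCircle, ℂ)) : Set C(Fin m → UnitAddCircle, ℂ)) := hg
  obtain ⟨p, hp, hgp⟩ := Metric.mem_closure_iff.1 hg' (ε / 3) (by positivity)
  rw [dist_eq_norm] at hgp
  obtain ⟨N0, hN0⟩ := Metric.tendsto_atTop.1 (avg_span hγ y p hp) (ε / 3) (by positivity)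
  refine ⟨N0, fun N hN => ?_⟩
  have h1 := hN0 N hN
  rw [dist_eq_norm] at h1 ⊢
  have h2 : avg γ y g N - avg γ y p N = avg γ y (⇑(g - p)) N := by
    simp only [avg, ContinuousMap.sub_apply, Finset.sum_sub_distrib, mul_sub]
  have h3 : ‖avg γ y g N - avg γ y p N‖ ≤ ‖g - p‖ := by
    rw [h2]
    exact norm_avg_le γ y (g - p) N
  have h4 : ‖(∫ x, p x) - ∫ x, g x‖ ≤ ‖g - p‖ := by
    have h5 : (∫ x, p x) - ∫ x, g x = ∫ x, (p x - g x) := by
      rw [integral_sub]
      · exact p.continuous.integrable_of_hasCompactSupport (HasCompactSupport.of_compactSpace _)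
      · exact g.continuous.integrable_of_hasCompactSupport (HasCompactSupport.of_compactSpace _)
    rw [h5]
    have h6 := norm_integral_le_of_norm_le_const (μ := (volume : Measure (Fin m → UnitAddCircle)))
      (f := fun x => p x - g x) (C := ‖g - p‖) (Eventually.of_forall fun x => by
        rw [norm_sub_rev]
        exact (g - p).norm_coe_le_norm x)
    simpa using h6
  have h5 : avg γ y g N - ∫ x, g x = (avg γ y g N - avg γ y p N) + (avg γ y p N - ∫ x, p x) +
      ((∫ x, p x) - ∫ x, g x) := by ring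
  rw [h5]
  calc _ ≤ ‖avg γ y g N - avg γ y p N‖ + ‖avg γ y p N - ∫ x, p x‖ + ‖(∫ x, p x) - ∫ x, g x‖ :=
        norm_add₃_le
    _ < ε := by linarith

/-- Density of orbits. -/
theorem orbit_dense {γ : Fin m → UnitAddCircle}
    (hγ : ∀ k : Fin m → ℤ, k ≠ 0 → mFourier k γ ≠ 1) (y : Fin m → UnitAddCircle) :
    Dense (Set.range (fun n : ℤ => y + n • γ)) := by
  by_contra hcon
  set K := closure (Set.range (fun n : ℤ => y + n • γ)) with hK
  have hKne : K.Nonempty := ⟨y + (0 : ℤ) • γ, subset_closure ⟨0, rfl⟩⟩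
  obtain ⟨z, hz⟩ : ∃ z, z ∉ K := by
    by_contra h
    push Not at h
    exact hcon h
  have hcont : Continuous fun x : Fin m → UnitAddCircle => Metric.infDist x K :=
    Metric.continuous_infDist_pt K
  have hpos : 0 < Metric.infDist z K :=
    (isClosed_closure.notMem_iff_infDist_pos hKne).1 hz
  have hcontC : Continuous fun x : Fin m → UnitAddCircle => ((Metric.infDist x K : ℝ) : ℂ) :=
    Complex.continuous_ofReal.comp hcont
  have h1 := weyl hγ y ⟨_, hcontC⟩
  have h2 : avg γ y (⇑(⟨_, hcontC⟩ : C(Fin m → UnitAddCircle, ℂ))) = fun _ => 0 := by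
    funext N
    rw [avg, Finset.sum_eq_zero, mul_zero]
    intro n _
    have h3 : y + n • γ ∈ K := subset_closure ⟨(n : ℤ), by simp⟩
    simp only [ContinuousMap.coe_mk]
    rw [Metric.infDist_zero_of_mem h3]
    simp
  rw [h2] at h1
  have h3 := tendsto_nhds_unique h1 tendsto_const_nhds
  simp only [ContinuousMap.coe_mk] at h3
  rw [integral_complex_ofReal] at h3
  have h4 : ∫ x : Fin m → UnitAddCircle, Metric.infDist x K = 0 := by exact_mod_cast h3
  have h5 : 0 < ∫ x : Fin m → UnitAddCircle, Metric.infDist x K := by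
    apply hcont.integral_pos_of_hasCompactSupport_nonneg_nonzero
      (HasCompactSupport.of_compactSpace _) (fun x => Metric.infDist_nonneg) hpos.ne'
  linarith

/-- Weyl criterion, translation vector with real coordinates -/
theorem mFourier_ne_one {c : Fin m → ℝ} {k : Fin m → ℤ}
    (h : ∀ q : ℤ, ∑ i, (k i : ℝ) * c i ≠ q) :
    mFourier k (fun i => ((c i : ℝ) : UnitAddCircle)) ≠ 1 := by
  intro h1
  have h2 : mFourier k (fun i => ((c i : ℝ) : UnitAddCircle)) =
      Complex.exp (2 * Real.pi * Complex.I * ((∑ i, (k i : ℝ) * c i : ℝ) : ℂ)) := by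
    simp only [mFourier, ContinuousMap.coe_mk, fourier_coe_apply]
    rw [← Complex.exp_sum]
    congr 1
    push_cast
    rw [Finset.mul_sum]
    refine Finset.sum_congr rfl fun i _ => ?_
    ring
  rw [h2, Complex.exp_eq_one_iff] at h1
  obtain ⟨n, hn⟩ := h1
  apply h n
  have hpi : (2 * Real.pi * Complex.I : ℂ) ≠ 0 := Complex.two_pi_I_ne_zero
  have h3 : ((∑ i, (k i : ℝ) * c i : ℝ) : ℂ) = n := by
    apply mul_left_cancel₀ hpi
    rw [hn]
    ring
  exact_mod_cast h3

end Pool.Agent.Helper94_Pisot
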