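import Mathlib
import Pool.Agent.Helper94_Pisot.Fibers
import Pool.Agent.Helper94_Pisot.Torus

/-!
# The criterion
-/

set_option autoImplicit false

namespace Pool.Agent.Helper94_Pisot

open Matrix Filter Topology MeasureTheory

/-! ### Null sets -/

theorem null_of_zero_density {m : ℕ} (γ : Fin m → UnitAddCircle)
    (O : Set (Fin m → UnitAddCircle)) (hO : MeasurableSet O)
    (h : ∀ τ : Fin m → UnitAddCircle, ∀ ε : ℝ, 0 < ε → ∃ K : ℝ, ∀ N : ℕ,
      ∑ n ∈ Finset.range N, O.indicator (fun _ => (1 : ℝ)) (τ + n • γ) ≤ ε * N + K) :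
    (volume : Measure (Fin m → UnitAddCircle)) O = 0 := by
  set g : (Fin m → UnitAddCircle) → ℝ := O.indicator (fun _ => (1 : ℝ)) with hg
  have hgm : Measurable g := measurable_const.indicator hO
  have hg0 : ∀ x, 0 ≤ g x := fun x => Set.indicator_nonneg (fun _ _ => zero_le_one) x
  have hg1 : ∀ x, g x ≤ 1 := fun x => Set.indicator_le_self' (fun _ _ => zero_le_one) x
  have hgi : ∫ x, g x = (volume : Measure (Fin m → UnitAddCircle)).real O := by
    rw [hg, integral_indicator_const _ hO]
    simp
  set f : ℕ → (Fin m → UnitAddCircle) → ℝ := fun N x =>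
    ((N : ℝ))⁻¹ * ∑ n ∈ Finset.range N, g (x + n • γ) with hf
  have hshift : ∀ n : ℕ, ∫ x, g (x + n • γ) = ∫ x, g x := fun n =>
    integral_add_right_eq_self g (n • γ)
  have hint : ∀ n : ℕ, Integrable (fun x => g (x + n • γ))
      (volume : Measure (Fin m → UnitAddCircle)) := by
    intro n
    have hm : Measurable fun x => g (x + n • γ) := hgm.comp (measurable_add_const _)
    exact (integrable_const (1 : ℝ)).mono' hm.aestronglyMeasurable
      (Eventually.of_forall fun x => by
        rw [Real.norm_eq_abs, abs_of_nonneg (hg0 _)]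
        exact hg1 _)
  have hfi : ∀ N : ℕ, 0 < N → ∫ x, f N x = ∫ x, g x := by
    intro N hN
    simp only [hf]
    rw [integral_const_mul, integral_finsetSum _ fun n _ => hint n]
    simp only [hshift]
    rw [Finset.sum_const, Finset.card_range, nsmul_eq_mul]
    field_simp
  have hlim : Tendsto (fun N => ∫ x, f N x) atTop
      (𝓝 (∫ _x : Fin m → UnitAddCircle, (0 : ℝ))) := by
    apply tendsto_integral_of_dominated_convergence (fun _ => (1 : ℝ))
    · intro N
      have hm : Measurable (f N) := by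
        apply Measurable.const_mul
        exact Finset.measurable_sum _ fun n _ => hgm.comp (measurable_add_const _)
      exact hm.aestronglyMeasurable
    · exact integrable_const _
    · intro N
      refine Eventually.of_forall fun x => ?_
      have h0 : 0 ≤ f N x :=
        mul_nonneg (inv_nonneg.2 (Nat.cast_nonneg _)) (Finset.sum_nonneg fun _ _ => hg0 _)
      rw [Real.norm_eq_abs, abs_of_nonneg h0]
      have h1 : ∑ n ∈ Finset.range N, g (x + n • γ) ≤ N := by
        refine (Finset.sum_le_sum fun n _ => hg1 _).trans ?_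
        simp
      calc f N x ≤ ((N : ℝ))⁻¹ * N := by
            simp only [hf]
            gcongr
        _ ≤ 1 := inv_mul_le_one
    · refine Eventually.of_forall fun x => ?_
      rw [Metric.tendsto_atTop]
      intro ε hε
      obtain ⟨K, hK⟩ := h x (ε / 2) (by positivity)
      obtain ⟨N0, hN0⟩ := exists_nat_gt (2 * |K| / ε)
      refine ⟨N0 + 1, fun N hN => ?_⟩
      have hNpos : (0 : ℝ) < N := by
        have : 0 < N := by omega
        exact_mod_cast this
      have h0 : 0 ≤ f N x :=
        mul_nonneg (inv_nonneg.2 (Nat.cast_nonneg _)) (Finset.sum_nonneg fun _ _ => hg0 _)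
      rw [dist_zero_right, Real.norm_eq_abs, abs_of_nonneg h0]
      have h1 := hK N
      simp only [hf]
      rw [inv_mul_lt_iff₀ hNpos]
      have h2 : 2 * |K| / ε < N := by
        have : (N0 : ℝ) ≤ N := by
          have : N0 ≤ N := by omega
          exact_mod_cast this
        linarith
      rw [div_lt_iff₀ hε] at h2
      have h3 := le_abs_self K
      nlinarith
  rw [integral_zero] at hlim
  have hconst : Tendsto (fun N => ∫ x, f N x) atTop (𝓝 (∫ x, g x)) := by
    apply tendsto_const_nhds.congr'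
    filter_upwards [eventually_gt_atTop 0] with N hN
    exact (hfi N hN).symm
  have h4 := tendsto_nhds_unique hconst hlim
  rw [hgi] at h4
  exact (measureReal_eq_zero_iff).1 h4

/-! ### The factor map -/

variable {m : ℕ}

/-- the factor map -/
noncomputable def piMap (f : Fin (m + 1) → ℝ) (x : ℤ → Fin (m + 1)) : Fin m → UnitAddCircle :=
  fun i => ((F f x i.castSucc : ℝ) : UnitAddCircle)

/-- the translation vector -/
noncomputable def gam (f : Fin (m + 1) → ℝ) : Fin m → UnitAddCircle :=
  fun i => ((-f i.castSucc : ℝ) : UnitAddCircle)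

variable {σ : Fin (m + 1) → List (Fin (m + 1))} {M : Matrix (Fin (m + 1)) (Fin (m + 1)) ℤ}
  {r : ℝ} {f l : Fin (m + 1) → ℝ} {C θ : ℝ}

theorem coe_int_circle (k : ℤ) : ((k : ℝ) : UnitAddCircle) = 0 := by
  rw [AddCircle.coe_eq_zero_iff]
  exact ⟨k, by simp⟩

theorem piMap_sh (D : PData σ M r f l C θ) {x : ℤ → Fin (m + 1)} (hx : x ∈ XS σ) (n : ℤ) :
    piMap f (sh n x) = piMap f x + n • gam f := by
  funext i
  simp only [piMap, gam, Pi.add_apply, Pi.smul_apply]
  rw [F_sh D hx]
  simp only [disc]
  rw [show F f x i.castSucc + ((U x n i.castSucc : ℝ) - n * f i.castSucc) =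
    F f x i.castSucc + n • (-f i.castSucc) + (U x n i.castSucc : ℝ) by
      simp only [zsmul_eq_mul]
      ring]
  rw [AddCircle.coe_add, AddCircle.coe_add, coe_int_circle, add_zero, AddCircle.coe_zsmul]

theorem fib_of_piMap_eq (D : PData σ M r f l C θ) {x y : ℤ → Fin (m + 1)} (hx : x ∈ XS σ)
    (hy : y ∈ XS σ) (h : piMap f x = piMap f y) : Fib f x y := by
  have h1 : ∀ i : Fin m, ∃ k : ℤ, F f x i.castSucc - F f y i.castSucc = k := by
    intro i
    have h2 := congrFun h i
    simp only [piMap] at h2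
    have h3 : ((F f x i.castSucc - F f y i.castSucc : ℝ) : UnitAddCircle) = 0 := by
      rw [AddCircle.coe_sub, h2, sub_self]
    rw [AddCircle.coe_eq_zero_iff] at h3
    obtain ⟨n, hn⟩ := h3
    exact ⟨n, by rw [← hn]; simp⟩
  intro a
  refine Fin.lastCases ?_ (fun i => h1 i) a
  choose k hk using h1
  refine ⟨-∑ i, k i, ?_⟩
  have h2 := sumF_const D hx hy
  rw [Fin.sum_univ_castSucc, Fin.sum_univ_castSucc] at h2
  push_cast
  simp only [← hk]
  rw [Finset.sum_sub_distrib]
  linarith

theorem piMap_continuousOn (D : PData σ M r f l C θ) : ContinuousOn (piMap f) (XS σ) := by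
  rw [continuousOn_pi]
  intro i
  have h1 : ContinuousOn (fun x => F f x i.castSucc) (XS σ) := by
    intro x hx
    rw [Metric.continuousWithinAt_iff']
    intro ε hε
    obtain ⟨R, hR⟩ := F_unif D (show 0 < ε / 2 by positivity)
    have hopen : IsOpen {y : ℤ → Fin (m + 1) | ∀ j ∈ Finset.range R, y j = x j} := by
      have h1 : {y : ℤ → Fin (m + 1) | ∀ j ∈ Finset.range R, y j = x j} =
          ⋂ j ∈ Finset.range R, (fun y : ℤ → Fin (m + 1) => y (j : ℤ)) ⁻¹' {x j} := by
        ext y
        simp
      rw [h1]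
      exact isOpen_biInter_finset fun j _ =>
        (isOpen_discrete _).preimage (continuous_apply (j : ℤ))
    have hnh : {y : ℤ → Fin (m + 1) | ∀ j ∈ Finset.range R, y j = x j} ∈ 𝓝 x :=
      hopen.mem_nhds (fun j _ => rfl)
    filter_upwards [nhdsWithin_le_nhds hnh, self_mem_nhdsWithin] with y hy hyX
    rw [Real.dist_eq]
    have := hR y hyX x hx (fun j hj => hy j (Finset.mem_range.2 hj)) i.castSucc
    linarith
  exact (AddCircle.continuous_mk' 1).comp_continuousOn h1

theorem gam_indep (D : PData σ M r f l C θ) (k : Fin m → ℤ) (hk : k ≠ 0) (q : ℤ) :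
    ∑ i, (k i : ℝ) * (-f i.castSucc) ≠ q := by
  intro h
  apply hk
  have hf0 : f ≠ 0 := by
    intro h0
    have := D.per.f_pos 0
    rw [h0] at this
    exact lt_irrefl _ this
  have h1 := indep D.pis.irr D.per.hf hf0 (Fin.snoc (fun i => k i + q) q) (by
    rw [Fin.sum_univ_castSucc]
    simp only [Fin.snoc_castSucc, Fin.snoc_last]
    have h2 := D.per.f_sum
    rw [Fin.sum_univ_castSucc] at h2
    have h3 : ∑ i : Fin m, ((k i + q : ℤ) : ℝ) * f i.castSucc =
        -(∑ i, (k i : ℝ) * (-f i.castSucc)) + q * ∑ i : Fin m, f i.castSucc := by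
      rw [Finset.mul_sum, ← Finset.sum_neg_distrib, ← Finset.sum_add_distrib]
      refine Finset.sum_congr rfl fun i _ => ?_
      push_cast
      ring
    rw [h3, h]
    have h4 : ∑ i : Fin m, f i.castSucc = 1 - f (Fin.last m) := by linarith
    rw [h4]
    ring)
  have hq : q = 0 := by
    have := congrFun h1 (Fin.last m)
    simpa using this
  funext i
  have := congrFun h1 i.castSucc
  simp only [Fin.snoc_castSucc, Pi.zero_apply] at this
  simp only [Pi.zero_apply]
  omega

theorem ham_count (u v : List (Fin (m + 1))) (h : u.length = v.length) :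
    ham u v = ∑ n ∈ Finset.range u.length, if u[n]? = v[n]? then 0 else 1 := by
  induction u generalizing v with
  | nil => simp
  | cons a u ih =>
    cases v with
    | nil => simp at h
    | cons b v =>
      simp only [List.length_cons, Nat.add_right_cancel_iff] at h
      rw [ham_cons_cons, ih v h, List.length_cons, Finset.sum_range_succ']
      simp only [List.getElem?_cons_succ, List.getElem?_cons_zero, Option.some.injEq]
      rw [add_comm]

theorem ham_win_count (x y : ℤ → Fin (m + 1)) (N : ℕ) :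
    ham (win x 0 N) (win y 0 N) = ∑ n ∈ Finset.range N, if x n = y n then 0 else 1 := by
  rw [ham_count _ _ (by simp), win_length]
  refine Finset.sum_congr rfl fun n hn => ?_
  rw [Finset.mem_range] at hn
  rw [List.getElem?_eq_getElem (by simpa using hn), List.getElem?_eq_getElem (by simpa using hn),
    win_getElem, win_getElem]
  simp

/-- the set of points of the torus with two preimages having letters `a`, `b` at the origin -/
def Oset (σ : Fin (m + 1) → List (Fin (m + 1))) (f : Fin (m + 1) → ℝ) (a b : Fin (m + 1)) :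
    Set (Fin m → UnitAddCircle) :=
  (piMap f '' (XS σ ∩ {x | x 0 = a})) ∩ (piMap f '' (XS σ ∩ {x | x 0 = b}))

theorem isClosed_image_cyl (D : PData σ M r f l C θ) (a : Fin (m + 1)) :
    IsClosed (piMap f '' (XS σ ∩ {x | x 0 = a})) := by
  have h1 : IsClosed {x : ℤ → Fin (m + 1) | x 0 = a} := by
    have : {x : ℤ → Fin (m + 1) | x 0 = a} = (fun x : ℤ → Fin (m + 1) => x 0) ⁻¹' {a} := rfl
    rw [this]
    exact (isClosed_discrete _).preimage (continuous_apply 0)
  have h2 : IsCompact (XS σ ∩ {x : ℤ → Fin (m + 1) | x 0 = a}) := isCompact_XS.inter_right h1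
  exact (h2.image_of_continuousOn
    ((piMap_continuousOn D).mono Set.inter_subset_left)).isClosed

theorem volume_Oset (D : PData σ M r f l C θ) (hyp : SwapSmall σ r) {a b : Fin (m + 1)}
    (hab : a ≠ b) : (volume : Measure (Fin m → UnitAddCircle)) (Oset σ f a b) = 0 := by
  classical
  apply null_of_zero_density (gam f)
  · exact ((isClosed_image_cyl D a).inter (isClosed_image_cyl D b)).measurableSet
  intro τ ε hε
  -- the fibre over `τ`
  have hfin : {x | x ∈ XS σ ∧ piMap f x = τ}.Finite := by
    by_cases hne : ∃ x, x ∈ XS σ ∧ piMap f x = τ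
    · obtain ⟨x, hx, hxτ⟩ := hne
      refine (fiber_finite D hx).subset ?_
      rintro y ⟨hy, hyτ⟩
      exact ⟨hy, fib_of_piMap_eq D hx hy (hxτ.trans hyτ.symm)⟩
    · have : {x | x ∈ XS σ ∧ piMap f x = τ} = ∅ := by
        ext x
        simp only [Set.mem_ofPred_eq, Set.mem_empty_iff_false, iff_false]
        exact fun h => hne ⟨x, h⟩
      rw [this]
      exact Set.finite_empty
  set W := hfin.toFinset with hW
  have hWmem : ∀ x, x ∈ W ↔ x ∈ XS σ ∧ piMap f x = τ := by
    intro x
    rw [hW, Set.Finite.mem_toFinset]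
    rfl
  set q : ℝ := (W.card : ℝ) * W.card with hq
  obtain ⟨K, hK⟩ := density D hyp (ε := ε / (q + 1)) (by positivity)
  refine ⟨q * K, fun N => ?_⟩
  -- pointwise bound
  have hpt : ∀ n : ℕ, (Oset σ f a b).indicator (fun _ => (1 : ℝ)) (τ + n • gam f) ≤
      ∑ x ∈ W, ∑ y ∈ W, if x n = y n then (0 : ℝ) else 1 := by
    intro n
    by_cases hmem : τ + n • gam f ∈ Oset σ f a b
    · rw [Set.indicator_of_mem hmem]
      obtain ⟨⟨x, ⟨hx, hxa⟩, hxτ⟩, ⟨y, ⟨hy, hyb⟩, hyτ⟩⟩ := hmem
      have hback : ∀ w : ℤ → Fin (m + 1), w ∈ XS σ → piMap f w = τ + n • gam f →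
          sh (-(n : ℤ)) w ∈ W := by
        intro w hw hwτ
        rw [hWmem]
        refine ⟨sh_mem hw _, ?_⟩
        rw [piMap_sh D hw, hwτ]
        simp
      have hxW := hback x hx hxτ
      have hyW := hback y hy hyτ
      have hne : sh (-(n : ℤ)) x n ≠ sh (-(n : ℤ)) y n := by
        simp only [sh, add_neg_cancel]
        have h1 : x 0 = a := hxa
        have h2 : y 0 = b := hyb
        rw [h1, h2]
        exact hab
      have h1 : (1 : ℝ) ≤ ∑ y ∈ W, if sh (-(n : ℤ)) x n = y n then (0 : ℝ) else 1 := by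
        have := Finset.single_le_sum (f := fun y : ℤ → Fin (m + 1) =>
          if sh (-(n : ℤ)) x n = y n then (0 : ℝ) else 1)
          (fun y _ => by split_ifs <;> norm_num) hyW
        simp only [if_neg hne] at this
        exact this
      refine h1.trans ?_
      exact Finset.single_le_sum (f := fun x : ℤ → Fin (m + 1) =>
          ∑ y ∈ W, if x n = y n then (0 : ℝ) else 1)
          (fun x _ => Finset.sum_nonneg fun y _ => by split_ifs <;> norm_num) hxW
    · rw [Set.indicator_of_notMem hmem]
      exact Finset.sum_nonneg fun x _ => Finset.sum_nonneg fun y _ => by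
        split_ifs <;> norm_num
  calc ∑ n ∈ Finset.range N, (Oset σ f a b).indicator (fun _ => (1 : ℝ)) (τ + n • gam f)
      ≤ ∑ n ∈ Finset.range N, ∑ x ∈ W, ∑ y ∈ W, (if x n = y n then (0 : ℝ) else 1) :=
        Finset.sum_le_sum fun n _ => hpt n
    _ = ∑ x ∈ W, ∑ y ∈ W, ∑ n ∈ Finset.range N, (if x n = y n then (0 : ℝ) else 1) := by
        rw [Finset.sum_comm]
        refine Finset.sum_congr rfl fun x _ => ?_
        rw [Finset.sum_comm]
    _ ≤ ∑ x ∈ W, ∑ y ∈ W, ((ε / (q + 1)) * N + K) := by
        refine Finset.sum_le_sum fun x hx => Finset.sum_le_sum fun y hy => ?_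
        have hx' := (hWmem x).1 hx
        have hy' := (hWmem y).1 hy
        have h1 := hK N x hx'.1 y hy'.1
          (fib_of_piMap_eq D hx'.1 hy'.1 (hx'.2.trans hy'.2.symm))
        rw [ham_win_count] at h1
        push_cast at h1
        exact h1
    _ = q * ((ε / (q + 1)) * N + K) := by
        simp only [Finset.sum_const, nsmul_eq_mul, hq]
        ring
    _ ≤ ε * N + q * K := by
        have hq0 : 0 ≤ q := by positivity
        have h1 : q / (q + 1) ≤ 1 := by
          rw [div_le_one (by positivity)]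
          linarith
        have h2 : q * ((ε / (q + 1)) * N) = (q / (q + 1)) * (ε * N) := by
          field_simp
        rw [mul_add, h2]
        have h3 : 0 ≤ ε * N := by positivity
        nlinarith

theorem main_aux (D : PData σ M r f l C θ) (hyp : SwapSmall σ r) :
    (∀ y : Fin m → UnitAddCircle, Dense (Set.range (fun n : ℤ => y + n • gam f))) ∧
    ContinuousOn (piMap f) (XS σ) ∧ piMap f '' (XS σ) = Set.univ ∧
    (∀ x ∈ XS σ, piMap f (fun n => x (n + 1)) = piMap f x + gam f) ∧
    ∃ N : Set (Fin m → UnitAddCircle), MeasureTheory.volume N = 0 ∧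
      ∀ y ∉ N, ∃! x, x ∈ XS σ ∧ piMap f x = y := by
  have hdense : ∀ y : Fin m → UnitAddCircle,
      Dense (Set.range (fun n : ℤ => y + n • gam f)) := by
    apply orbit_dense
    intro k hk
    exact mFourier_ne_one (fun q => gam_indep D k hk q)
  have hcont := piMap_continuousOn D
  have hsurj : piMap f '' (XS σ) = Set.univ := by
    have hclosed : IsClosed (piMap f '' (XS σ)) :=
      (isCompact_XS.image_of_continuousOn hcont).isClosed
    obtain ⟨x, hx⟩ := XS_nonempty D
    have hsub : Set.range (fun n : ℤ => piMap f x + n • gam f) ⊆ piMap f '' (XS σ) := by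
      rintro _ ⟨n, rfl⟩
      exact ⟨sh n x, sh_mem hx n, piMap_sh D hx n⟩
    have h1 := (hdense (piMap f x)).closure_eq
    have h2 := hclosed.closure_subset_iff.2 hsub
    rw [h1] at h2
    exact Set.univ_subset_iff.1 h2
  refine ⟨hdense, hcont, hsurj, ?_, ?_⟩
  · intro x hx
    have := piMap_sh D hx 1
    rw [one_zsmul] at this
    exact this
  · refine ⟨⋃ (i : ℤ) (a : Fin (m + 1)) (b : Fin (m + 1)) (_ : a ≠ b),
      (fun y => y + i • gam f) ⁻¹' (Oset σ f a b), ?_, ?_⟩
    · rw [measure_iUnion_null_iff]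
      intro i
      rw [measure_iUnion_null_iff]
      intro a
      rw [measure_iUnion_null_iff]
      intro b
      rw [measure_iUnion_null_iff]
      intro hab
      rw [measure_preimage_add_right]
      exact volume_Oset D hyp hab
    · intro y hy
      have hex : y ∈ piMap f '' (XS σ) := by
        rw [hsurj]
        trivial
      obtain ⟨x, hx, hxy⟩ := hex
      refine ⟨x, ⟨hx, hxy⟩, ?_⟩
      rintro w ⟨hw, hwy⟩
      by_contra hne
      obtain ⟨i, hi⟩ := Function.ne_iff.1 hne
      apply hy
      simp only [Set.mem_iUnion]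
      refine ⟨i, w i, x i, hi, ?_⟩
      constructor
      · refine ⟨sh i w, ⟨sh_mem hw i, ?_⟩, ?_⟩
        · simp [sh]
        · rw [piMap_sh D hw, hwy]
      · refine ⟨sh i x, ⟨sh_mem hx i, ?_⟩, ?_⟩
        · simp [sh]
        · rw [piMap_sh D hx, hxy]

/-- **The criterion.** If `σ^J(ab)` and `σ^J(ba)` differ in `o(r^J)` places for all letters `a`,
`b`, then the subshift of `σ` is an almost one-to-one extension of a minimal toral translation. -/
theorem criterion (d : ℕ) (hd : 2 ≤ d) (σ : Fin d → List (Fin d)) (hne : ∀ a, σ a ≠ [])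
    (M : Matrix (Fin d) (Fin d) ℤ) (hM : ∀ i j, M i j = ((σ j).count i : ℤ)) (r : ℝ) (hr : 1 < r)
    (hroot : Polynomial.aeval (r : ℂ) M.charpoly = 0)
    (hother : ∀ μ : ℂ, Polynomial.aeval μ M.charpoly = 0 → μ ≠ (r : ℂ) → ‖μ‖ < 1)
    (hirr : Irreducible (M.charpoly.map (Int.castRingHom ℚ)))
    (hdet : M.det = 1 ∨ M.det = -1) (hyp : SwapSmall σ r)
    (X : Set (ℤ → Fin d))
    (hX : ∀ x : ℤ → Fin d, x ∈ X ↔
        ∀ (i : ℤ) (k : ℕ), ∃ (n : ℕ) (a : Fin d), 1 ≤ n ∧
          List.IsInfix (List.ofFn (fun j : Fin k => x (i + ((j : ℕ) : ℤ))))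
            ((fun w : List (Fin d) => w.flatMap σ)^[n] [a])) :
    ∃ (m : ℕ) (γ : Fin m → UnitAddCircle),
      (∀ y : Fin m → UnitAddCircle, Dense (Set.range (fun n : ℤ => y + n • γ))) ∧
      ∃ π : (ℤ → Fin d) → (Fin m → UnitAddCircle),
        ContinuousOn π X ∧ π '' X = Set.univ ∧
        (∀ x ∈ X, π (fun n => x (n + 1)) = π x + γ) ∧
        ∃ N : Set (Fin m → UnitAddCircle), MeasureTheory.volume N = 0 ∧
          ∀ y ∉ N, ∃! x, x ∈ X ∧ π x = y := by
  obtain ⟨m, rfl⟩ : ∃ m, d = m + 1 := ⟨d - 1, by omega⟩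
  have hXeq : X = XS σ := by
    ext x
    rw [hX]
    rfl
  subst hXeq
  have hpis : PisotMat M r := by
    refine ⟨?_, hr, hroot, hother, hirr, hdet⟩
    intro i j
    rw [hM]
    positivity
  obtain ⟨f, l, C, θ, hper⟩ := perron_exists hpis
  have D : PData σ M r f l C θ := ⟨⟨hne, hM⟩, hpis, hper⟩
  obtain ⟨h1, h2, h3, h4, h5⟩ := main_aux D hyp
  exact ⟨m, gam f, h1, piMap f, h2, h3, h4, h5⟩

end Pool.Agent.Helper94_Pisot
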