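import Mathlib
import Pool.Agent.Helper94_Pisot.Criterion

/-!
# The normalised limsup of Hamming distances, and compositions of substitutions
-/

set_option autoImplicit false

namespace Pool.Agent.Helper94_Pisot

open Filter Topology
open scoped ENNReal

variable {d : ℕ}

theorem ham_symm (u v : List (Fin d)) : ham u v = ham v u := by
  induction u generalizing v with
  | nil => simp
  | cons a u ih =>
    cases v with
    | nil => simp
    | cons b v =>
      rw [ham_cons_cons, ham_cons_cons, ih v]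
      congr 1
      by_cases h : a = b
      · simp [h]
      · simp [h, Ne.symm h]

theorem perm_it_length (σ : Fin d → List (Fin d)) {u v : List (Fin d)} (h : u.Perm v) (J : ℕ) :
    (it σ J u).length = (it σ J v).length := by
  rw [it_eq_flatMap, it_eq_flatMap]
  exact (h.flatMap_right _).length_eq

/-- `limsup` of the normalised Hamming distances, with values in `[0, ∞]` -/
noncomputable def HE (σ : Fin d → List (Fin d)) (r : ℝ) (u v : List (Fin d)) : ℝ≥0∞ :=
  limsup (fun p : ℕ => (ham (it σ p u) (it σ p v) : ℝ≥0∞) * (ENNReal.ofReal (r ^ p))⁻¹) atTop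

theorem HE_self (σ : Fin d → List (Fin d)) (r : ℝ) (u : List (Fin d)) : HE σ r u u = 0 := by
  simp [HE]

theorem HE_symm (σ : Fin d → List (Fin d)) (r : ℝ) (u v : List (Fin d)) :
    HE σ r u v = HE σ r v u := by
  simp only [HE, ham_symm]

theorem limsup_add_le_enn (u v : ℕ → ℝ≥0∞) :
    limsup (fun p => u p + v p) atTop ≤ limsup u atTop + limsup v atTop := by
  apply ENNReal.le_of_forall_pos_le_add
  intro ε hε hlt
  have hu : limsup u atTop < ⊤ := lt_of_le_of_lt le_self_add hlt
  have hv : limsup v atTop < ⊤ := lt_of_le_of_lt le_add_self hlt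
  have hε2 : ((ε / 2 : NNReal) : ℝ≥0∞) ≠ 0 := by
    rw [ENNReal.coe_ne_zero]
    positivity
  have h1 : limsup u atTop < limsup u atTop + ((ε / 2 : NNReal) : ℝ≥0∞) :=
    ENNReal.lt_add_right hu.ne hε2
  have h2 : limsup v atTop < limsup v atTop + ((ε / 2 : NNReal) : ℝ≥0∞) :=
    ENNReal.lt_add_right hv.ne hε2
  refine limsup_le_of_le (by isBoundedDefault) ?_
  filter_upwards [eventually_lt_of_limsup_lt h1, eventually_lt_of_limsup_lt h2] with p hp1 hp2
  refine (add_le_add hp1.le hp2.le).trans ?_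
  have h3 : ((ε : NNReal) : ℝ≥0∞) = ((ε / 2 : NNReal) : ℝ≥0∞) + ((ε / 2 : NNReal) : ℝ≥0∞) := by
    rw [← ENNReal.coe_add, add_halves]
  rw [h3]
  exact le_of_eq (by ring)

theorem HE_tri (σ : Fin d → List (Fin d)) (r : ℝ) {u v w : List (Fin d)} (h1 : u.Perm v)
    (h2 : v.Perm w) : HE σ r u w ≤ HE σ r u v + HE σ r v w := by
  refine le_trans ?_ (limsup_add_le_enn _ _)
  refine limsup_le_limsup (Eventually.of_forall fun p => ?_) (by isBoundedDefault)
    (by isBoundedDefault)
  beta_reduce
  rw [← add_mul]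
  gcongr
  exact_mod_cast ham_triangle _ _ _ (perm_it_length σ h1 p) (perm_it_length σ h2 p)

theorem HE_ctx (σ : Fin d → List (Fin d)) (r : ℝ) {u v : List (Fin d)} (h : u.Perm v)
    (x y : List (Fin d)) : HE σ r (x ++ u ++ y) (x ++ v ++ y) = HE σ r u v := by
  simp only [HE]
  congr 1
  funext p
  rw [it_append, it_append, it_append, it_append, ham_append (by simp [perm_it_length σ h p]),
    ham_append rfl, ham_self, ham_self, zero_add, add_zero]

section data

variable [NeZero d] {σ : Fin d → List (Fin d)} {M : Matrix (Fin d) (Fin d) ℤ} {r : ℝ}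
  {f l : Fin d → ℝ} {C θ : ℝ}

theorem length_it_le (D : PData σ M r f l C θ) :
    ∃ c2 : ℝ, 0 < c2 ∧ ∀ (p : ℕ) (u : List (Fin d)),
      ((it σ p u).length : ℝ) ≤ c2 * u.length * r ^ p := by
  obtain ⟨_, c2, _, hc2, hlen⟩ := length_bounds D
  refine ⟨c2, hc2, fun p u => ?_⟩
  induction u with
  | nil => simp
  | cons a u ih =>
    rw [it_cons, List.length_append, List.length_cons]
    push_cast
    have := (hlen p a).2
    nlinarith

theorem HE_lt_top (D : PData σ M r f l C θ) (u v : List (Fin d)) : HE σ r u v < ⊤ := by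
  obtain ⟨c2, hc2, hlen⟩ := length_it_le D
  have hr : 0 < r := by linarith [D.pis.one_lt]
  refine lt_of_le_of_lt (b := ENNReal.ofReal (c2 * u.length)) ?_ ENNReal.ofReal_lt_top
  refine limsup_le_of_le (by isBoundedDefault) (Eventually.of_forall fun p => ?_)
  have hrp : 0 < r ^ p := by positivity
  rw [← div_eq_mul_inv]
  apply ENNReal.div_le_of_le_mul
  rw [← ENNReal.ofReal_mul (by positivity)]
  have h1 : (ham (it σ p u) (it σ p v) : ℝ≥0∞) =
      ENNReal.ofReal ((ham (it σ p u) (it σ p v) : ℕ) : ℝ) := by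
    rw [ENNReal.ofReal_natCast]
  rw [h1]
  apply ENNReal.ofReal_le_ofReal
  have h2 : (ham (it σ p u) (it σ p v) : ℝ) ≤ (it σ p u).length := by
    exact_mod_cast ham_le_length _ _
  exact h2.trans (hlen p u)

omit [NeZero d] in
theorem HE_flatMap (D : PData σ M r f l C θ) (u v : List (Fin d)) :
    HE σ r (u.flatMap σ) (v.flatMap σ) = ENNReal.ofReal r * HE σ r u v := by
  have hr : 0 < r := by linarith [D.pis.one_lt]
  have h1 := Filter.limsup_nat_add
    (fun p : ℕ => (ham (it σ p u) (it σ p v) : ℝ≥0∞) * (ENNReal.ofReal (r ^ p))⁻¹) 1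
  rw [HE, HE, ← h1, ← ENNReal.limsup_const_mul_of_ne_top ENNReal.ofReal_ne_top]
  congr 1
  funext p
  rw [it_succ, it_succ, pow_succ, ENNReal.ofReal_mul (by positivity),
    ENNReal.mul_inv (Or.inr ENNReal.ofReal_ne_top) (Or.inl ENNReal.ofReal_ne_top)]
  have h2 : ENNReal.ofReal r * (ENNReal.ofReal r)⁻¹ = 1 :=
    ENNReal.mul_inv_cancel (by simpa using hr) ENNReal.ofReal_ne_top
  calc (ham (it σ p (u.flatMap σ)) (it σ p (v.flatMap σ)) : ℝ≥0∞) * (ENNReal.ofReal (r ^ p))⁻¹
      = (ENNReal.ofReal r * (ENNReal.ofReal r)⁻¹) *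
        ((ham (it σ p (u.flatMap σ)) (it σ p (v.flatMap σ)) : ℝ≥0∞) *
          (ENNReal.ofReal (r ^ p))⁻¹) := by rw [h2, one_mul]
    _ = _ := by ring

/-- the real version -/
noncomputable def Hr (σ : Fin d → List (Fin d)) (r : ℝ) (u v : List (Fin d)) : ℝ :=
  (HE σ r u v).toReal

theorem swapSmall_of_zero (D : PData σ M r f l C θ)
    (h : ∀ a b : Fin d, Hr σ r [a, b] [b, a] = 0) : SwapSmall σ r := by
  intro ε hε
  have hr : 0 < r := by linarith [D.pis.one_lt]
  have h1 : ∀ a b : Fin d, ∀ᶠ p : ℕ in atTop,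
      (ham (it σ p [a, b]) (it σ p [b, a]) : ℝ) ≤ ε * r ^ p := by
    intro a b
    have h2 : HE σ r [a, b] [b, a] = 0 := by
      have h3 := (ENNReal.toReal_eq_zero_iff _).1 (h a b)
      exact h3.resolve_right (HE_lt_top D _ _).ne
    have h3 : limsup (fun p : ℕ => (ham (it σ p [a, b]) (it σ p [b, a]) : ℝ≥0∞) *
        (ENNReal.ofReal (r ^ p))⁻¹) atTop < ENNReal.ofReal ε := by
      rw [← HE, h2]
      simpa using hε
    filter_upwards [eventually_lt_of_limsup_lt h3] with p hp
    have hrp : 0 < r ^ p := by positivity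
    rw [← div_eq_mul_inv] at hp
    have h4 := (ENNReal.div_le_iff (by simpa using hrp) ENNReal.ofReal_ne_top).1 hp.le
    rw [← ENNReal.ofReal_mul hε.le] at h4
    have h5 : (ham (it σ p [a, b]) (it σ p [b, a]) : ℝ≥0∞) =
        ENNReal.ofReal ((ham (it σ p [a, b]) (it σ p [b, a]) : ℕ) : ℝ) := by
      rw [ENNReal.ofReal_natCast]
    rw [h5] at h4
    exact (ENNReal.ofReal_le_ofReal_iff (by positivity)).1 h4
  obtain ⟨J, hJ⟩ := (eventually_all.2 fun a => eventually_all.2 fun b => h1 a b).exists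
  exact ⟨J, hJ⟩

end data

/-! ### Swap pseudometrics -/

/-- A pseudometric-like function on pairs of words that are permutations of each other,
invariant under adding a context. -/
structure SwapPre (H : List (Fin d) → List (Fin d) → ℝ) : Prop where
  nonneg : ∀ u v, 0 ≤ H u v
  self : ∀ u, H u u = 0
  symm : ∀ u v, H u v = H v u
  tri : ∀ u v w, u.Perm v → v.Perm w → H u w ≤ H u v + H v w
  ctx : ∀ u v x y, u.Perm v → H (x ++ u ++ y) (x ++ v ++ y) = H u v

theorem Hr_pre [NeZero d] {σ : Fin d → List (Fin d)} {M : Matrix (Fin d) (Fin d) ℤ} {r : ℝ}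
    {f l : Fin d → ℝ} {C θ : ℝ} (D : PData σ M r f l C θ) : SwapPre (Hr σ r) where
  nonneg u v := ENNReal.toReal_nonneg
  self u := by simp [Hr, HE_self]
  symm u v := by rw [Hr, Hr, HE_symm]
  tri u v w h1 h2 := by
    have h3 := HE_tri σ r h1 h2
    rw [Hr, Hr, Hr, ← ENNReal.toReal_add (HE_lt_top D _ _).ne (HE_lt_top D _ _).ne]
    exact ENNReal.toReal_mono (ENNReal.add_ne_top.2 ⟨(HE_lt_top D _ _).ne, (HE_lt_top D _ _).ne⟩) h3
  ctx u v x y h := by rw [Hr, Hr, HE_ctx σ r h]

theorem Hr_flatMap [NeZero d] {σ : Fin d → List (Fin d)} {M : Matrix (Fin d) (Fin d) ℤ} {r : ℝ}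
    {f l : Fin d → ℝ} {C θ : ℝ} (D : PData σ M r f l C θ) (u v : List (Fin d)) :
    Hr σ r (u.flatMap σ) (v.flatMap σ) = r * Hr σ r u v := by
  have hr : 0 < r := by linarith [D.pis.one_lt]
  rw [Hr, HE_flatMap D, ENNReal.toReal_mul, ENNReal.toReal_ofReal hr.le, Hr]

/-- swap function -/
def sw (H : List (Fin d) → List (Fin d) → ℝ) (a b : Fin d) : ℝ := H [a, b] [b, a]

theorem sw_symm {H : List (Fin d) → List (Fin d) → ℝ} (hH : SwapPre H) (a b : Fin d) :
    sw H a b = sw H b a := by
  rw [sw, sw, hH.symm]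

theorem sw_self {H : List (Fin d) → List (Fin d) → ℝ} (hH : SwapPre H) (a : Fin d) :
    sw H a a = 0 := hH.self _

theorem SwapPre.ctx_left {H : List (Fin d) → List (Fin d) → ℝ} (hH : SwapPre H)
    {u v : List (Fin d)} (h : u.Perm v) (x : List (Fin d)) : H (x ++ u) (x ++ v) = H u v := by
  have := hH.ctx u v x [] h
  simpa using this

theorem SwapPre.ctx_right {H : List (Fin d) → List (Fin d) → ℝ} (hH : SwapPre H)
    {u v : List (Fin d)} (h : u.Perm v) (y : List (Fin d)) : H (u ++ y) (v ++ y) = H u v := by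
  have := hH.ctx u v [] y h
  simpa using this

/-- moving a letter across a word -/
theorem move_le {H : List (Fin d) → List (Fin d) → ℝ} (hH : SwapPre H) (z : Fin d)
    (w : List (Fin d)) : H (z :: w) (w ++ [z]) ≤ (w.map fun c => sw H z c).sum := by
  induction w with
  | nil => simp [hH.self]
  | cons c w ih =>
    rw [List.map_cons, List.sum_cons]
    have h1 : (z :: c :: w).Perm (c :: z :: w) := List.Perm.swap _ _ _
    have h2 : (c :: z :: w).Perm (c :: w ++ [z]) := by
      rw [List.cons_append]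
      exact (List.perm_append_singleton z w).symm.cons c
    refine (hH.tri _ _ _ h1 h2).trans ?_
    have h3 : H (z :: c :: w) (c :: z :: w) = sw H z c := by
      have := hH.ctx_right (List.Perm.swap c z []) w
      simpa [sw] using this
    have h4 : H (c :: z :: w) (c :: w ++ [z]) = H (z :: w) (w ++ [z]) := by
      have := hH.ctx_left (List.perm_append_singleton z w).symm [c]
      simpa using this
    rw [h3, h4]
    linarith

/-- exchanging two words -/
theorem cross_le {H : List (Fin d) → List (Fin d) → ℝ} (hH : SwapPre H)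
    (u w : List (Fin d)) :
    H (u ++ w) (w ++ u) ≤ (u.map fun c => (w.map fun c' => sw H c c').sum).sum := by
  induction u with
  | nil => simp [hH.self]
  | cons c u ih =>
    rw [List.map_cons, List.sum_cons]
    have h1 : (c :: u ++ w).Perm (c :: (w ++ u)) := by
      rw [List.cons_append]
      exact (List.perm_append_comm).cons c
    have h2 : (c :: (w ++ u)).Perm (w ++ c :: u) := List.perm_middle.symm
    refine (hH.tri _ _ _ h1 h2).trans ?_
    have h3 : H (c :: u ++ w) (c :: (w ++ u)) = H (u ++ w) (w ++ u) := by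
      have := hH.ctx_left (List.perm_append_comm (l₁ := u) (l₂ := w)) [c]
      simpa using this
    have h4 : H (c :: (w ++ u)) (w ++ c :: u) = H (c :: w) (w ++ [c]) := by
      have := hH.ctx_right (List.perm_append_singleton c w).symm u
      simpa using this
    rw [h3, h4]
    have := move_le hH c w
    linarith

/-! ### Compositions -/

/-- `cp S n` applies first `S (n-1)`, then `S (n-2)`, …, finally `S 0`. -/
def cp (S : ℕ → Fin d → List (Fin d)) : ℕ → List (Fin d) → List (Fin d)
  | 0, w => w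
  | n + 1, w => cp S n (w.flatMap (S n))

@[simp] theorem cp_zero (S : ℕ → Fin d → List (Fin d)) (w : List (Fin d)) : cp S 0 w = w := rfl

theorem cp_succ (S : ℕ → Fin d → List (Fin d)) (n : ℕ) (w : List (Fin d)) :
    cp S (n + 1) w = cp S n (w.flatMap (S n)) := rfl

theorem cp_append (S : ℕ → Fin d → List (Fin d)) (n : ℕ) (u v : List (Fin d)) :
    cp S n (u ++ v) = cp S n u ++ cp S n v := by
  induction n generalizing u v with
  | zero => rfl
  | succ n ih => rw [cp_succ, cp_succ, cp_succ, List.flatMap_append, ih]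

@[simp] theorem cp_nil (S : ℕ → Fin d → List (Fin d)) (n : ℕ) : cp S n [] = [] := by
  induction n with
  | zero => rfl
  | succ n ih => rw [cp_succ]; simpa using ih

theorem cp_perm (S : ℕ → Fin d → List (Fin d)) (n : ℕ) {u v : List (Fin d)} (h : u.Perm v) :
    (cp S n u).Perm (cp S n v) := by
  induction n generalizing u v with
  | zero => exact h
  | succ n ih => exact ih (h.flatMap_right _)

theorem cp_add (S : ℕ → Fin d → List (Fin d)) (n m : ℕ) (w : List (Fin d)) :
    cp S (n + m) w = cp S m (cp (fun i => S (i + m)) n w) := by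
  induction n generalizing w with
  | zero => simp
  | succ n ih =>
    have h1 : n + 1 + m = (n + m) + 1 := by omega
    rw [h1, cp_succ, ih, cp_succ]

theorem cp_eq_flatMap (S : ℕ → Fin d → List (Fin d)) (n : ℕ) (w : List (Fin d)) :
    cp S n w = w.flatMap (fun a => cp S n [a]) := by
  induction w with
  | nil => simp
  | cons a w ih =>
    have h1 : a :: w = [a] ++ w := rfl
    rw [h1, cp_append, List.flatMap_append, ← ih]
    simp

theorem it_flatMap_comm (σ : Fin d → List (Fin d)) (e : ℕ) (w : List (Fin d)) :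
    w.flatMap (fun a => it σ e [a]) = it σ e w := (it_eq_flatMap σ e w).symm

/-- `k` steps of the sequence `S` amount to `σ ^ e`. -/
structure Cyc (S : ℕ → Fin d → List (Fin d)) (σ : Fin d → List (Fin d)) (k e : ℕ) : Prop where
  hk : 1 ≤ k
  he : 1 ≤ e
  per : ∀ n, S (n + k) = S n
  prod : ∀ a, it σ e [a] = cp S k [a]

theorem cp_periodic {S : ℕ → Fin d → List (Fin d)} {σ : Fin d → List (Fin d)} {k e : ℕ}
    (hC : Cyc S σ k e) (n : ℕ) (w : List (Fin d)) :
    cp S (n + k) w = it σ e (cp S n w) := by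
  have h1 : (fun i => S (i + k)) = S := funext hC.per
  rw [cp_add, h1, cp_eq_flatMap S k (cp S n w), it_eq_flatMap σ e]
  congr 1
  funext a
  exact (hC.prod a).symm

theorem cp_mul {S : ℕ → Fin d → List (Fin d)} {σ : Fin d → List (Fin d)} {k e : ℕ}
    (hC : Cyc S σ k e) (n p : ℕ) (w : List (Fin d)) :
    cp S (n + k * p) w = it σ (e * p) (cp S n w) := by
  induction p with
  | zero => simp
  | succ p ih =>
    have h1 : n + k * (p + 1) = (n + k * p) + k := by ring
    have h2 : e * (p + 1) = e + e * p := by ring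
    rw [h1, cp_periodic hC, ih, h2, it_add]

/-- the functional at level `n` -/
noncomputable def Hn (S : ℕ → Fin d → List (Fin d)) (σ : Fin d → List (Fin d)) (r : ℝ) (n : ℕ)
    (u v : List (Fin d)) : ℝ := Hr σ r (cp S n u) (cp S n v)

section data2

variable [NeZero d] {σ : Fin d → List (Fin d)} {M : Matrix (Fin d) (Fin d) ℤ} {r : ℝ}
  {f l : Fin d → ℝ} {C θ : ℝ} {S : ℕ → Fin d → List (Fin d)} {k e : ℕ}

theorem Hr_it (D : PData σ M r f l C θ) (n : ℕ) (u v : List (Fin d)) :
    Hr σ r (it σ n u) (it σ n v) = r ^ n * Hr σ r u v := by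
  induction n with
  | zero => simp
  | succ n ih => rw [it_succ', it_succ', Hr_flatMap D, ih, pow_succ]; ring

theorem Hn_pre (D : PData σ M r f l C θ) (n : ℕ) : SwapPre (Hn S σ r n) where
  nonneg u v := (Hr_pre D).nonneg _ _
  self u := (Hr_pre D).self _
  symm u v := (Hr_pre D).symm _ _
  tri u v w h1 h2 := (Hr_pre D).tri _ _ _ (cp_perm S n h1) (cp_perm S n h2)
  ctx u v x y h := by
    simp only [Hn, cp_append]
    exact (Hr_pre D).ctx _ _ _ _ (cp_perm S n h)

omit [NeZero d] in
theorem Hn_succ (n : ℕ) (u v : List (Fin d)) :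
    Hn S σ r (n + 1) u v = Hn S σ r n (u.flatMap (S n)) (v.flatMap (S n)) := rfl

theorem Hn_periodic (D : PData σ M r f l C θ) (hC : Cyc S σ k e) (n : ℕ) (u v : List (Fin d)) :
    Hn S σ r (n + k) u v = r ^ e * Hn S σ r n u v := by
  rw [Hn, cp_periodic hC, cp_periodic hC, Hr_it D, Hn]

/-- lengths at level `n` -/
noncomputable def Ln (S : ℕ → Fin d → List (Fin d)) (l : Fin d → ℝ) (n : ℕ)
    (w : List (Fin d)) : ℝ := wt l (cp S n w)

omit [NeZero d] in
theorem Ln_append (n : ℕ) (u v : List (Fin d)) : Ln S l n (u ++ v) = Ln S l n u + Ln S l n v := by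
  rw [Ln, cp_append, wt_append, Ln, Ln]

omit [NeZero d] in
@[simp] theorem Ln_nil (n : ℕ) : Ln S l n [] = 0 := by
  simp [Ln]

omit [NeZero d] in
theorem Ln_succ (n : ℕ) (w : List (Fin d)) :
    Ln S l (n + 1) w = Ln S l n (w.flatMap (S n)) := rfl

omit [NeZero d] in
theorem Ln_eq_sum (n : ℕ) (w : List (Fin d)) :
    Ln S l n w = (w.map fun c => Ln S l n [c]).sum := by
  induction w with
  | nil => simp
  | cons a w ih =>
    have h1 : a :: w = [a] ++ w := rfl
    rw [List.map_cons, List.sum_cons, ← ih, h1, Ln_append]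

omit [NeZero d] in
theorem Ln_periodic (D : PData σ M r f l C θ) (hC : Cyc S σ k e) (n : ℕ) (w : List (Fin d)) :
    Ln S l (n + k) w = r ^ e * Ln S l n w := by
  rw [Ln, cp_periodic hC, wt_it D.sub D.per.hl, Ln]

end data2

end Pool.Agent.Helper94_Pisot
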