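import Mathlib
import Pool.Agent.Helper94_Pisot.Limsup

/-!
# Compositions of common-context substitutions
-/

set_option autoImplicit false

namespace Pool.Agent.Helper94_Pisot

open Filter Topology Matrix

variable {d : ℕ}

/-! ### Incidence matrices of compositions -/

/-- incidence matrix of `cp S N` -/
def MN (S : ℕ → Fin d → List (Fin d)) (N : ℕ) : Matrix (Fin d) (Fin d) ℤ :=
  fun i j => ((cp S N [j]).count i : ℤ)

theorem ab_cp (S : ℕ → Fin d → List (Fin d)) (N : ℕ) (w : List (Fin d)) :
    ab (cp S N w) = MN S N *ᵥ ab w := by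
  induction w with
  | nil => simp
  | cons c w ih =>
    have h1 : c :: w = [c] ++ w := rfl
    rw [h1, cp_append, ab_append, ih, ab_append, Matrix.mulVec_add, ab_singleton,
      Matrix.mulVec_single_one]
    rfl

section

variable [NeZero d] {σ : Fin d → List (Fin d)} {M : Matrix (Fin d) (Fin d) ℤ} {r : ℝ}
  {f l : Fin d → ℝ} {C θ : ℝ} {S : ℕ → Fin d → List (Fin d)} {k e : ℕ}

omit [NeZero d] in
theorem det_MN_ne_zero (D : PData σ M r f l C θ) (hC : Cyc S σ k e) (N : ℕ) :
    (MN S N).det ≠ 0 := by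
  -- `M ^ (e * N) = MN S N * B`
  have hk := hC.hk
  obtain ⟨t, ht⟩ : ∃ t, k * N = t + N := ⟨k * N - N, by
    have : N ≤ k * N := Nat.le_mul_of_pos_left N (by omega)
    omega⟩
  have hprod : M ^ (e * N) = MN S N * MN (fun i => S (i + N)) t := by
    ext i j
    have h1 : ab (it σ (e * N) [j]) = ab (cp S N (cp (fun i => S (i + N)) t [j])) := by
      rw [← cp_add, ← ht]
      have := cp_mul hC 0 N [j]
      rw [zero_add, cp_zero] at this
      rw [this]
    rw [ab_it D.sub, ab_cp, ab_cp, Matrix.mulVec_mulVec, ab_singleton,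
      Matrix.mulVec_single_one, Matrix.mulVec_single_one] at h1
    exact congrFun h1 i
  intro h0
  have h1 : (M ^ (e * N)).det = 0 := by rw [hprod, Matrix.det_mul, h0, zero_mul]
  rw [Matrix.det_pow] at h1
  rcases D.pis.det with h | h
  · rw [h] at h1
    simp at h1
  · rw [h] at h1
    exact pow_ne_zero (e * N) (by norm_num) h1

omit [NeZero d] in
theorem cp_ne_nil (D : PData σ M r f l C θ) (hC : Cyc S σ k e) (N : ℕ) (a : Fin d) : cp S N [a] ≠ [] := by
  intro h
  have h1 := ab_cp S N [a]
  rw [h, ab_nil] at h1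
  have h2 := Matrix.eq_zero_of_mulVec_eq_zero (det_MN_ne_zero D hC N) h1.symm
  rw [ab_singleton] at h2
  have := congrFun h2 a
  simp at this

omit [NeZero d] in
theorem Ln_pos (D : PData σ M r f l C θ) (hC : Cyc S σ k e) (N : ℕ) (a : Fin d) : 0 < Ln S l N [a] := by
  have h1 := cp_ne_nil D hC N a
  rw [Ln]
  obtain ⟨c, w, hw⟩ := List.exists_cons_of_ne_nil h1
  rw [hw, wt_cons]
  have h2 := le_wt (fun i => (D.per.l_pos i).le) w
  rw [zero_mul] at h2
  linarith [D.per.l_pos c]

omit [NeZero d] in
theorem Ln_inj (D : PData σ M r f l C θ) (hC : Cyc S σ k e) (N : ℕ) {a b : Fin d} (h : Ln S l N [a] = Ln S l N [b]) :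
    a = b := by
  have hl0 : l ≠ 0 := by
    intro h0
    have := D.per.l_pos a
    rw [h0] at this
    exact lt_irrefl _ this
  have hT : mR Mᵀ *ᵥ l = r • l := by
    have h3 : mR Mᵀ = (mR M)ᵀ := by
      ext i j
      simp [mR]
    rw [h3, Matrix.mulVec_transpose]
    exact D.per.hl
  have h1 := indep (transpose_pisot D.pis).irr hT hl0
    (fun i => ab (cp S N [a]) i - ab (cp S N [b]) i) (by
      have h2 : Ln S l N [a] - Ln S l N [b] = 0 := sub_eq_zero.2 h
      simp only [Ln, wt] at h2
      rw [← Finset.sum_sub_distrib] at h2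
      rw [← h2]
      refine Finset.sum_congr rfl fun i _ => ?_
      push_cast
      ring)
  have h2 : MN S N *ᵥ (Pi.single a 1 - Pi.single b 1) = 0 := by
    rw [Matrix.mulVec_sub, ← ab_singleton, ← ab_singleton, ← ab_cp, ← ab_cp]
    exact h1
  have h3 := Matrix.eq_zero_of_mulVec_eq_zero (det_MN_ne_zero D hC N) h2
  by_contra hne
  have h4 := congrFun h3 a
  simp [hne] at h4

/-! ### Descending composites -/

/-- descending from level `N`, `t` steps -/
def dn (S : ℕ → Fin d → List (Fin d)) (N : ℕ) : ℕ → List (Fin d) → List (Fin d)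
  | 0, w => w
  | t + 1, w => (dn S N t w).flatMap (S (N - 1 - t))

omit [NeZero d] in
@[simp] theorem dn_zero (N : ℕ) (w : List (Fin d)) : dn S N 0 w = w := rfl

omit [NeZero d] in
theorem dn_succ (N t : ℕ) (w : List (Fin d)) :
    dn S N (t + 1) w = (dn S N t w).flatMap (S (N - 1 - t)) := rfl

omit [NeZero d] in
theorem dn_append (N t : ℕ) (u v : List (Fin d)) :
    dn S N t (u ++ v) = dn S N t u ++ dn S N t v := by
  induction t with
  | zero => rfl
  | succ t ih => rw [dn_succ, dn_succ, dn_succ, ih, List.flatMap_append]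

omit [NeZero d] in
theorem dn_add (N s t : ℕ) (w : List (Fin d)) :
    dn S N (s + t) w = dn S (N - s) t (dn S N s w) := by
  induction t with
  | zero => rfl
  | succ t ih =>
    rw [← add_assoc, dn_succ, ih, dn_succ]
    have : N - 1 - (s + t) = N - s - 1 - t := by omega
    rw [this]

omit [NeZero d] in
theorem cp_dn (N t : ℕ) (ht : t ≤ N) (w : List (Fin d)) :
    cp S N w = cp S (N - t) (dn S N t w) := by
  induction t with
  | zero => rfl
  | succ t ih =>
    rw [ih (by omega), dn_succ]
    have h1 : N - t = (N - (t + 1)) + 1 := by omega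
    have h2 : N - 1 - t = N - (t + 1) := by omega
    rw [h1, cp_succ, h2]

omit [NeZero d] in
theorem dn_periodic (hS : ∀ n, S (n + k) = S n) (q N t : ℕ) (ht : t ≤ N) (w : List (Fin d)) :
    dn S (N + k * q) t w = dn S N t w := by
  have hS' : ∀ q n, S (n + k * q) = S n := by
    intro q
    induction q with
    | zero => intro n; rfl
    | succ q ih =>
      intro n
      have : n + k * (q + 1) = (n + k * q) + k := by ring
      rw [this, hS, ih]
  induction t with
  | zero => rfl
  | succ t ih =>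
    rw [dn_succ, dn_succ, ih (by omega)]
    have : N + k * q - 1 - t = (N - 1 - t) + k * q := by omega
    rw [this, hS']

omit [NeZero d] in
theorem Ln_dn (N t : ℕ) (ht : t ≤ N) (w : List (Fin d)) :
    Ln S l N w = Ln S l (N - t) (dn S N t w) := by
  rw [Ln, cp_dn N t ht, Ln]

omit [NeZero d] in
theorem Hn_dn (N t : ℕ) (ht : t ≤ N) (u v : List (Fin d)) :
    Hn S σ r N u v = Hn S σ r (N - t) (dn S N t u) (dn S N t v) := by
  rw [Hn, cp_dn N t ht u, cp_dn N t ht v, Hn]

omit [NeZero d] in
theorem mem_dn (N t : ℕ) (w : List (Fin d)) (z : Fin d) :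
    z ∈ dn S N t w ↔ ∃ c ∈ w, z ∈ dn S N t [c] := by
  induction w with
  | nil =>
    have : dn S N t [] = [] := by
      induction t with
      | zero => rfl
      | succ t ih => rw [dn_succ, ih]; rfl
    simp [this]
  | cons c w ih =>
    have h1 : c :: w = [c] ++ w := rfl
    rw [h1, dn_append, List.mem_append, ih]
    simp

omit [NeZero d] in
theorem Ln_periodic' (D : PData σ M r f l C θ) (hC : Cyc S σ k e) (n q : ℕ)
    (w : List (Fin d)) : Ln S l (n + k * q) w = (r ^ e) ^ q * Ln S l n w := by
  induction q with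
  | zero => simp
  | succ q ih =>
    have : n + k * (q + 1) = (n + k * q) + k := by ring
    rw [this, Ln_periodic D hC, ih, pow_succ (r ^ e) q]
    ring

theorem Hn_periodic' (D : PData σ M r f l C θ) (hC : Cyc S σ k e) (n q : ℕ)
    (u v : List (Fin d)) : Hn S σ r (n + k * q) u v = (r ^ e) ^ q * Hn S σ r n u v := by
  induction q with
  | zero => simp
  | succ q ih =>
    have : n + k * (q + 1) = (n + k * q) + k := by ring
    rw [this, Hn_periodic D hC, ih, pow_succ (r ^ e) q]
    ring

omit [NeZero d] in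
/-- equality case of a termwise inequality of sums over a list -/
theorem eq_of_sum_le {w : List (Fin d)} {g h : Fin d → ℝ} (hle : ∀ c ∈ w, g c ≤ h c)
    (hs : (w.map h).sum ≤ (w.map g).sum) : ∀ c ∈ w, g c = h c := by
  induction w with
  | nil => simp
  | cons c w ih =>
    rw [List.map_cons, List.map_cons, List.sum_cons, List.sum_cons] at hs
    have h1 : g c ≤ h c := hle c List.mem_cons_self
    have h2 : ∀ c ∈ w, g c ≤ h c := fun e he => hle e (List.mem_cons_of_mem c he)
    have h3 : (w.map g).sum ≤ (w.map h).sum := List.sum_le_sum h2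
    have h4 : g c = h c := by linarith
    have h5 := ih h2 (by linarith)
    intro e he
    rcases List.mem_cons.1 he with rfl | he
    · exact h4
    · exact h5 e he

/-! ### Survivors -/

/-- the letter into which `b` at level `N` has evolved after `t` steps -/
def sv (τ : ℕ → Fin d → Option (Fin d)) (N : ℕ) : ℕ → Fin d → Option (Fin d)
  | 0, b => some b
  | t + 1, b => (sv τ N t b).bind (τ (N - 1 - t))

/-- left context -/
def UU (S : ℕ → Fin d → List (Fin d)) (W1 : ℕ → List (Fin d)) (N : ℕ) : ℕ → List (Fin d)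
  | 0 => []
  | t + 1 => (UU S W1 N t).flatMap (S (N - 1 - t)) ++ W1 (N - 1 - t)

/-- right context -/
def VV (S : ℕ → Fin d → List (Fin d)) (W2 : ℕ → List (Fin d)) (N : ℕ) : ℕ → List (Fin d)
  | 0 => []
  | t + 1 => W2 (N - 1 - t) ++ (VV S W2 N t).flatMap (S (N - 1 - t))

variable {τ : ℕ → Fin d → Option (Fin d)} {W1 W2 : ℕ → List (Fin d)}

omit [NeZero d] in
theorem sv_some (hctx : ∀ n a, S n a = W1 n ++ (τ n a).toList ++ W2 n) (N t : ℕ) {b c : Fin d}
    (h : sv τ N t b = some c) :
    dn S N t [b] = UU S W1 N t ++ [c] ++ VV S W2 N t := by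
  induction t generalizing c with
  | zero =>
    simp only [sv, Option.some.injEq] at h
    subst h
    simp [UU, VV]
  | succ t ih =>
    rw [sv, Option.bind_eq_some_iff] at h
    obtain ⟨e, he, hτ⟩ := h
    rw [dn_succ, ih he, List.flatMap_append, List.flatMap_append, UU, VV]
    simp only [List.flatMap_cons, List.flatMap_nil, List.append_nil]
    rw [hctx _ e, hτ]
    simp

omit [NeZero d] in
theorem sv_none (hctx : ∀ n a, S n a = W1 n ++ (τ n a).toList ++ W2 n) (N t : ℕ) {b c : Fin d}
    (h : sv τ N t b = some c) (h' : sv τ N (t + 1) b = none) :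
    dn S N (t + 1) [b] = UU S W1 N (t + 1) ++ VV S W2 N (t + 1) := by
  rw [sv, h, Option.bind_some] at h'
  rw [dn_succ, sv_some hctx N t h, List.flatMap_append, List.flatMap_append, UU, VV]
  simp only [List.flatMap_cons, List.flatMap_nil, List.append_nil]
  rw [hctx _ c, h']
  simp

omit [NeZero d] in
theorem sv_add (N s t : ℕ) (b : Fin d) :
    sv τ N (s + t) b = (sv τ N s b).bind (sv τ (N - s) t) := by
  induction t with
  | zero =>
    simp only [Nat.add_zero]
    cases h : sv τ N s b with
    | none => rfl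
    | some c => rfl
  | succ t ih =>
    rw [← add_assoc, sv, ih]
    cases h : sv τ N s b with
    | none => rfl
    | some c =>
      simp only [Option.bind_some]
      have : N - 1 - (s + t) = N - s - 1 - t := by omega
      rw [sv, this]

omit [NeZero d] in
theorem sv_periodic (hτ : ∀ n, τ (n + k) = τ n) (q N t : ℕ) (ht : t ≤ N) (b : Fin d) :
    sv τ (N + k * q) t b = sv τ N t b := by
  have hτ' : ∀ q n, τ (n + k * q) = τ n := by
    intro q
    induction q with
    | zero => intro n; rfl
    | succ q ih =>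
      intro n
      have : n + k * (q + 1) = (n + k * q) + k := by ring
      rw [this, hτ, ih]
  induction t with
  | zero => rfl
  | succ t ih =>
    rw [sv, sv, ih (by omega)]
    have : N + k * q - 1 - t = (N - 1 - t) + k * q := by omega
    rw [this, hτ']

omit [NeZero d] in
/-- the survivor occurs in the image -/
theorem sv_mem (hctx : ∀ n a, S n a = W1 n ++ (τ n a).toList ++ W2 n) (N t : ℕ) {b c : Fin d}
    (h : sv τ N t b = some c) : c ∈ dn S N t [b] := by
  rw [sv_some hctx N t h]
  simp

omit [NeZero d] in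
/-- the shorter letter dies first, eventually -/
theorem event (D : PData σ M r f l C θ) (hC : Cyc S σ k e) (hctx : ∀ n a, S n a = W1 n ++ (τ n a).toList ++ W2 n)
    (n : ℕ) {a b : Fin d} (hab : Ln S l n [a] < Ln S l n [b]) :
    ∃ q t : ℕ, t + 1 ≤ n + k * q ∧ (∃ c, sv τ (n + k * q) t a = some c) ∧
      sv τ (n + k * q) (t + 1) a = none ∧ ∃ z, sv τ (n + k * q) (t + 1) b = some z := by
  classical
  have hr : 1 < r ^ e := one_lt_pow₀ D.pis.one_lt (by have := hC.he; omega)
  set Bd : ℝ := ∑ c, Ln S l n [c] with hBd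
  obtain ⟨q, hq⟩ : ∃ q : ℕ, Bd < (r ^ e) ^ q * (Ln S l n [b] - Ln S l n [a]) := by
    have h1 : Tendsto (fun q : ℕ => (r ^ e) ^ q * (Ln S l n [b] - Ln S l n [a])) atTop atTop :=
      (tendsto_pow_atTop_atTop_of_one_lt hr).atTop_mul_const (by linarith)
    exact (h1.eventually (eventually_gt_atTop Bd)).exists
  set N := n + k * q with hN
  have hLN : ∀ c, Ln S l N [c] = (r ^ e) ^ q * Ln S l n [c] := fun c => Ln_periodic' D hC n q [c]
  have hLlt : Ln S l N [a] < Ln S l N [b] := by
    rw [hLN, hLN]
    have : 0 < (r ^ e) ^ q := by positivity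
    nlinarith
  -- both cannot survive `k * q` steps
  have hex : ∃ t, t ≤ N ∧ (sv τ N t a = none ∨ sv τ N t b = none) := by
    by_contra hcon
    push Not at hcon
    obtain ⟨h1, h2⟩ := hcon (k * q) (by omega)
    obtain ⟨c, hc⟩ := Option.ne_none_iff_exists'.1 h1
    obtain ⟨c', hc'⟩ := Option.ne_none_iff_exists'.1 h2
    have h3 := sv_some hctx N (k * q) hc
    have h4 := sv_some hctx N (k * q) hc'
    have h5 : Ln S l N [a] = Ln S l n (dn S N (k * q) [a]) := by
      rw [Ln_dn N (k * q) (by omega)]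
      congr 1
      omega
    have h6 : Ln S l N [b] = Ln S l n (dn S N (k * q) [b]) := by
      rw [Ln_dn N (k * q) (by omega)]
      congr 1
      omega
    rw [h3, Ln_append, Ln_append] at h5
    rw [h4, Ln_append, Ln_append] at h6
    have h7 : Ln S l n [c'] ≤ Bd :=
      Finset.single_le_sum (f := fun c => Ln S l n [c])
        (fun c _ => (Ln_pos D hC n c).le) (Finset.mem_univ c')
    have h8 := Ln_pos D hC n c
    have h9 := hLN a
    have h10 := hLN b
    rw [mul_sub, ← h9, ← h10, h5, h6] at hq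
    linarith
  -- first time
  have hmin := Nat.find_spec hex
  set T := Nat.find hex with hT
  have hTpos : T ≠ 0 := by
    intro h0
    rw [h0] at hmin
    simp [sv] at hmin
  obtain ⟨t, ht⟩ := Nat.exists_eq_succ_of_ne_zero hTpos
  have hprev : ¬ (t ≤ N ∧ (sv τ N t a = none ∨ sv τ N t b = none)) :=
    Nat.find_min hex (by omega)
  push Not at hprev
  rw [ht] at hmin
  obtain ⟨htN, hor⟩ := hmin
  have htN' : t + 1 ≤ N := htN
  obtain ⟨hp1, hp2⟩ := hprev (by omega)
  obtain ⟨c, hc⟩ := Option.ne_none_iff_exists'.1 hp1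
  obtain ⟨c', hc'⟩ := Option.ne_none_iff_exists'.1 hp2
  refine ⟨q, t, htN', ⟨c, hc⟩, ?_⟩
  rcases ha : sv τ N (t + 1) a with _ | e
  · rcases hb : sv τ N (t + 1) b with _ | z
    · exfalso
      have h3 := sv_none hctx N t hc ha
      have h4 := sv_none hctx N t hc' hb
      have h5 := Ln_dn (S := S) (l := l) N (t + 1) htN' [a]
      have h6 := Ln_dn (S := S) (l := l) N (t + 1) htN' [b]
      rw [h3] at h5
      rw [h4] at h6
      linarith
    · exact ⟨rfl, z, rfl⟩
  · exfalso
    rcases hb : sv τ N (t + 1) b with _ | z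
    · have h3 := sv_some hctx N (t + 1) ha
      have h4 := sv_none hctx N t hc' hb
      have h5 := Ln_dn (S := S) (l := l) N (t + 1) htN' [a]
      have h6 := Ln_dn (S := S) (l := l) N (t + 1) htN' [b]
      rw [h3, Ln_append, Ln_append] at h5
      rw [h4, Ln_append] at h6
      have := Ln_pos D hC (N - (t + 1)) e
      linarith
    · rw [Nat.succ_eq_add_one, ha, hb] at hor
      simp at hor

theorem familyI_core (D : PData σ M r f l C θ) (hC : Cyc S σ k e)
    (hτ : ∀ n, τ (n + k) = τ n) (hctx : ∀ n a, S n a = W1 n ++ (τ n a).toList ++ W2 n) :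
    ∀ a b, sw (Hr σ r) a b = 0 := by
  classical
  have hr : 1 < r ^ e := one_lt_pow₀ D.pis.one_lt (by have := hC.he; omega)
  have hr0 : 0 < r ^ e := by linarith
  have hk := hC.hk
  have hpos := Ln_pos D hC
  -- maximal ratio
  set ratio : Fin k × Fin d × Fin d → ℝ := fun p =>
    sw (Hn S σ r p.1) p.2.1 p.2.2 / min (Ln S l p.1 [p.2.1]) (Ln S l p.1 [p.2.2]) with hratio
  have hminpos : ∀ n a b, 0 < min (Ln S l n [a]) (Ln S l n [b]) :=
    fun n a b => lt_min (hpos n a) (hpos n b)
  have hne : (Finset.univ : Finset (Fin k × Fin d × Fin d)).Nonempty := by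
    refine ⟨(⟨0, by omega⟩, 0, 0), Finset.mem_univ _⟩
  obtain ⟨p0, _, hp0⟩ := Finset.exists_max_image Finset.univ ratio hne
  set κ := ratio p0 with hκ
  have hdivmod : ∀ n, n = n % k + k * (n / k) := fun n => (Nat.mod_add_div n k).symm
  have hbound : ∀ n a b, sw (Hn S σ r n) a b ≤ κ * min (Ln S l n [a]) (Ln S l n [b]) := by
    intro n a b
    have h1 := hp0 (⟨n % k, Nat.mod_lt _ (by omega)⟩, a, b) (Finset.mem_univ _)
    simp only [hratio] at h1
    rw [div_le_iff₀ (hminpos _ _ _)] at h1
    have h2 : sw (Hn S σ r n) a b = (r ^ e) ^ (n / k) * sw (Hn S σ r (n % k)) a b := by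
      conv_lhs => rw [hdivmod n]
      exact Hn_periodic' D hC _ _ _ _
    have h3 : ∀ c, Ln S l n [c] = (r ^ e) ^ (n / k) * Ln S l (n % k) [c] := by
      intro c
      conv_lhs => rw [hdivmod n]
      exact Ln_periodic' D hC _ _ _
    rw [h2, h3, h3, ← mul_min_of_nonneg _ _ (by positivity)]
    have h4 : 0 ≤ (r ^ e) ^ (n / k) := by positivity
    calc (r ^ e) ^ (n / k) * sw (Hn S σ r (n % k)) a b
        ≤ (r ^ e) ^ (n / k) * (κ * min (Ln S l (n % k) [a]) (Ln S l (n % k) [b])) :=
          mul_le_mul_of_nonneg_left h1 h4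
      _ = _ := by ring
  have hnn : ∀ n a b, 0 ≤ sw (Hn S σ r n) a b := fun n a b => (Hn_pre D n).nonneg _ _
  -- if `κ ≤ 0` we are done
  rcases le_or_gt κ 0 with hκ0 | hκpos
  · intro a b
    have h1 := hbound 0 a b
    have h2 := hnn 0 a b
    have h3 : sw (Hn S σ r 0) a b = sw (Hr σ r) a b := rfl
    rw [h3] at h1 h2
    have h4 := hminpos 0 a b
    nlinarith
  exfalso
  -- maximizing pairs
  set Mx : ℕ → Fin d → Fin d → Prop := fun n a b =>
    sw (Hn S σ r n) b a = κ * Ln S l n [a] ∧ Ln S l n [a] < Ln S l n [b] with hMx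
  have hMxper : ∀ n q a b, Mx n a b → Mx (n + k * q) a b := by
    intro n q a b h
    refine ⟨?_, ?_⟩
    · have h1 : sw (Hn S σ r (n + k * q)) b a = (r ^ e) ^ q * sw (Hn S σ r n) b a :=
        Hn_periodic' D hC _ _ _ _
      rw [h1, h.1, Ln_periodic' D hC]
      ring
    · rw [Ln_periodic' D hC, Ln_periodic' D hC]
      exact mul_lt_mul_of_pos_left h.2 (by positivity)
  obtain ⟨n0, a0, b0, hM0⟩ : ∃ n a b, Mx n a b := by
    obtain ⟨m, a, b⟩ := p0
    have hab : sw (Hn S σ r m) a b = κ * min (Ln S l m [a]) (Ln S l m [b]) := by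
      rw [hκ]
      simp only [hratio]
      rw [div_mul_cancel₀ _ (hminpos _ _ _).ne']
    have hne : a ≠ b := by
      rintro rfl
      rw [sw_self (Hn_pre D _)] at hab
      have := mul_pos hκpos (hminpos m a a)
      linarith
    rcases lt_trichotomy (Ln S l m [a]) (Ln S l m [b]) with h | h | h
    · refine ⟨m, a, b, ?_, h⟩
      rw [sw_symm (Hn_pre D _), hab, min_eq_left h.le]
    · exact absurd (Ln_inj D hC _ h) hne
    · refine ⟨m, b, a, ?_, h⟩
      rw [hab, min_eq_right h.le]
  -- one event
  have hstep : ∀ N t a b c z, Mx N a b → t + 1 ≤ N → sv τ N t a = some c →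
      sv τ N (t + 1) a = none → sv τ N (t + 1) b = some z →
      ∀ e ∈ dn S N (t + 1) [a], Mx (N - (t + 1)) e z := by
    intro N t a b c z hM ht hc ha hb
    set n' := N - (t + 1) with hn'
    set Uw := UU S W1 N (t + 1) with hUw
    set Vw := VV S W2 N (t + 1) with hVw
    have hda : dn S N (t + 1) [a] = Uw ++ Vw := sv_none hctx N t hc ha
    have hdb : dn S N (t + 1) [b] = Uw ++ [z] ++ Vw := sv_some hctx N (t + 1) hb
    have hpre := Hn_pre D (S := S) n'
    have h1 : sw (Hn S σ r N) b a = Hn S σ r n' ([z] ++ (Vw ++ Uw)) ((Vw ++ Uw) ++ [z]) := by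
      rw [sw, Hn_dn N (t + 1) ht]
      have e1 : dn S N (t + 1) [b, a] = Uw ++ ([z] ++ (Vw ++ Uw)) ++ Vw := by
        have : [b, a] = [b] ++ [a] := rfl
        rw [this, dn_append, hda, hdb]
        simp
      have e2 : dn S N (t + 1) [a, b] = Uw ++ ((Vw ++ Uw) ++ [z]) ++ Vw := by
        have : [a, b] = [a] ++ [b] := rfl
        rw [this, dn_append, hda, hdb]
        simp
      rw [e1, e2]
      exact hpre.ctx _ _ _ _ List.perm_append_comm
    have h2 := move_le hpre z (Vw ++ Uw)
    have h3 : [z] ++ (Vw ++ Uw) = z :: (Vw ++ Uw) := rfl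
    rw [h3] at h1
    rw [← h1, hM.1] at h2
    have h4 : Ln S l N [a] = ((Vw ++ Uw).map fun e => Ln S l n' [e]).sum := by
      rw [← Ln_eq_sum, Ln_append, Ln_dn N (t + 1) ht, hda, Ln_append]
      ring
    have hle : ∀ e ∈ Vw ++ Uw, sw (Hn S σ r n') z e ≤ κ * Ln S l n' [e] := by
      intro e _
      refine (hbound n' z e).trans ?_
      exact mul_le_mul_of_nonneg_left (min_le_right _ _) hκpos.le
    have heq := eq_of_sum_le (g := fun e => sw (Hn S σ r n') z e)
      (h := fun e => κ * Ln S l n' [e]) hle (by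
        rw [List.sum_map_mul_left, ← h4]
        exact h2)
    intro e he
    have he' : e ∈ Vw ++ Uw := by
      rw [hda] at he
      rw [List.mem_append] at he ⊢
      exact he.symm
    have h5 : sw (Hn S σ r n') z e = κ * Ln S l n' [e] := heq e he'
    refine ⟨h5, ?_⟩
    have hez : e ≠ z := by
      rintro rfl
      rw [sw_self hpre] at h5
      have := mul_pos hκpos (hpos n' e)
      linarith
    have h6 := hbound n' z e
    rw [h5] at h6
    have h7 : Ln S l n' [e] ≤ Ln S l n' [z] :=
      (le_of_mul_le_mul_left h6 hκpos).trans (min_le_left _ _)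
    exact lt_of_le_of_ne h7 fun h => hez (Ln_inj D hC _ h)
  -- the survivor never occurs in the image of the other letter
  have hP : ∀ t N a b, t ≤ N → Mx N a b → ∃ z, sv τ N t b = some z ∧ z ∉ dn S N t [a] := by
    intro t
    induction t using Nat.strong_induction_on with
    | _ t ih =>
      intro N a b htN hM
      obtain ⟨q, te, hte, ⟨c, hc⟩, ha, z, hb⟩ := event D hC hctx N hM.2
      set N' := N + k * q with hN'
      have hM' : Mx N' a b := hMxper N q a b hM
      have hper1 : sv τ N' t b = sv τ N t b := sv_periodic hτ q N t htN b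
      have hper2 : dn S N' t [a] = dn S N t [a] := dn_periodic hC.per q N t htN [a]
      rw [← hper1, ← hper2]
      have hall := hstep N' te a b c z hM' hte hc ha hb
      rcases le_or_gt (te + 1) t with hcase | hcase
      · -- after the event
        have hne : dn S N' (te + 1) [a] ≠ [] := by
          intro h
          have h1 := hpos N' a
          rw [Ln_dn N' (te + 1) hte, h, Ln_nil] at h1
          exact lt_irrefl _ h1
        obtain ⟨s, hs⟩ := Nat.exists_eq_add_of_le hcase
        have hIH : ∀ e ∈ dn S N' (te + 1) [a], ∃ z', sv τ (N' - (te + 1)) s z = some z' ∧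
            z' ∉ dn S (N' - (te + 1)) s [e] := by
          intro e he
          exact ih s (by omega) _ e z (by omega) (hall e he)
        obtain ⟨e0, w0, hw0⟩ := List.exists_cons_of_ne_nil hne
        obtain ⟨z', hz', _⟩ := hIH e0 (by rw [hw0]; exact List.mem_cons_self)
        refine ⟨z', ?_, ?_⟩
        · rw [hs, sv_add, hb, Option.bind_some]
          exact hz'
        · rw [hs, dn_add, mem_dn]
          rintro ⟨e, he, hze⟩
          obtain ⟨z'', hz'', hn⟩ := hIH e he
          rw [hz'] at hz''
          rw [Option.some.injEq] at hz''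
          subst hz''
          exact hn hze
      · -- before the event
        obtain ⟨s, hs⟩ := Nat.exists_eq_add_of_le hcase.le
        have hb' := hb
        rw [hs, sv_add] at hb'
        rw [Option.bind_eq_some_iff] at hb'
        obtain ⟨bt, hbt, hbz⟩ := hb'
        refine ⟨bt, hbt, fun hmem => ?_⟩
        have h1 : z ∈ dn S (N' - t) s [bt] := sv_mem hctx (N' - t) s hbz
        have h2 : z ∈ dn S N' (te + 1) [a] := by
          rw [hs, dn_add, mem_dn]
          exact ⟨bt, hmem, h1⟩
        exact lt_irrefl _ (hall z h2).2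
  -- contradiction with primitivity
  obtain ⟨p, hp⟩ := primitive D
  have hep : p ≤ e * p := Nat.le_mul_of_pos_left p (by have := hC.he; omega)
  have hM1 := hMxper n0 p a0 b0 hM0
  obtain ⟨z, _, hz⟩ := hP (n0 + k * p) (n0 + k * p) a0 b0 le_rfl hM1
  apply hz
  have h1 := cp_dn (S := S) (n0 + k * p) (n0 + k * p) le_rfl [a0]
  rw [Nat.sub_self, cp_zero] at h1
  rw [← h1, cp_mul hC]
  obtain ⟨c, w, hw⟩ := List.exists_cons_of_ne_nil (cp_ne_nil D hC n0 a0)
  rw [hw, it_cons, List.mem_append]
  exact Or.inl (hp _ hep z c)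

end

end Pool.Agent.Helper94_Pisot
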