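import Mathlib
import Pool.Agent.Helper94_Pisot.FamilyI

/-!
# Packaging
-/

set_option autoImplicit false

namespace Pool.Agent.Helper94_Pisot

open Filter Topology Matrix

/-- The criterion, with the hypotheses packaged as in the problem. -/
theorem criterion_Hr (d : ℕ) (hd : 2 ≤ d) [NeZero d] (σ : Fin d → List (Fin d))
    (hne : ∀ a, σ a ≠ [])
    (M : Matrix (Fin d) (Fin d) ℤ) (hM : ∀ i j, M i j = ((σ j).count i : ℤ))
    (hP : ∃ r : ℝ, 1 < r ∧ Polynomial.aeval (r : ℂ) M.charpoly = 0 ∧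
      ∀ μ : ℂ, Polynomial.aeval μ M.charpoly = 0 → μ ≠ (r : ℂ) → 0 < ‖μ‖ ∧ ‖μ‖ < 1)
    (hirr : Irreducible (M.charpoly.map (Int.castRingHom ℚ)))
    (hdet : M.det = 1 ∨ M.det = -1)
    (hyp : ∀ (r : ℝ) (f l : Fin d → ℝ) (C θ : ℝ), PData σ M r f l C θ →
      ∀ a b : Fin d, sw (Hr σ r) a b = 0)
    (X : Set (ℤ → Fin d))
    (hX : ∀ x : ℤ → Fin d, x ∈ X ↔
        ∀ (i : ℤ) (k : ℕ), ∃ (n : ℕ) (a : Fin d), 1 ≤ n ∧
          List.IsInfix (List.ofFn (fun j : Fin k => x (i + ((j : ℕ) : ℤ))))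
            ((fun w : List (Fin d) => w.flatMap σ)^[n] [a])) :
    ∃ (m : ℕ) (γ : Fin m → UnitAddCircle),
      (∀ y : Fin m → UnitAddCircle, Dense (Set.range (fun n : ℤ => y + n • γ))) ∧
      ∃ π : (ℤ → Fin d) → (Fin m → UnitAddCircle),
        ContinuousOn π X ∧ π '' X = Set.univ ∧
        (∀ x ∈ X, π (fun n => x (n + 1)) = π x + γ) ∧
        ∃ N : Set (Fin m → UnitAddCircle), MeasureTheory.volume N = 0 ∧
          ∀ y ∉ N, ∃! x, x ∈ X ∧ π x = y := by
  obtain ⟨r, hr, hroot, hother⟩ := hP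
  have hother' : ∀ μ : ℂ, Polynomial.aeval μ M.charpoly = 0 → μ ≠ (r : ℂ) → ‖μ‖ < 1 :=
    fun μ h1 h2 => (hother μ h1 h2).2
  have hpis : PisotMat M r := by
    refine ⟨?_, hr, hroot, hother', hirr, hdet⟩
    intro i j
    rw [hM]
    positivity
  obtain ⟨f, l, C, θ, hper⟩ := perron_exists hpis
  have D : PData σ M r f l C θ := ⟨⟨hne, hM⟩, hpis, hper⟩
  exact criterion d hd σ hne M hM r hr hroot hother' hirr hdet
    (swapSmall_of_zero D (hyp r f l C θ D)) X hX

variable {d : ℕ}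

theorem cp_list (L : List (Fin d → List (Fin d))) (S : ℕ → Fin d → List (Fin d))
    (h : ∀ (i : ℕ) (hi : i < L.reverse.length), S i = L.reverse[i]) (w : List (Fin d)) :
    cp S L.length w = L.foldl (fun w τ => w.flatMap τ) w := by
  induction L generalizing w with
  | nil => simp
  | cons τ L ih =>
    rw [List.length_cons, cp_succ, List.foldl_cons, ih]
    · have h1 := h L.length (by simp)
      rw [h1]
      congr 2
      simp
    · intro i hi
      have hi' : i < L.length := by simpa using hi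
      rw [h i (by simp; omega)]
      simp only [List.reverse_cons]
      rw [List.getElem_append_left]

/-- the periodic sequence attached to a nonempty list of substitutions -/
def seqOf (L : List (Fin d → List (Fin d))) (hL : 1 ≤ L.length) (n : ℕ) :
    Fin d → List (Fin d) :=
  L.reverse[n % L.length]'(by rw [List.length_reverse]; exact Nat.mod_lt _ hL)

theorem seqOf_per (L : List (Fin d → List (Fin d))) (hL : 1 ≤ L.length) (n : ℕ) :
    seqOf L hL (n + L.length) = seqOf L hL n := by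
  simp [seqOf]

theorem seqOf_mem (L : List (Fin d → List (Fin d))) (hL : 1 ≤ L.length) (n : ℕ) :
    seqOf L hL n ∈ L := by
  have h : seqOf L hL n ∈ L.reverse := List.getElem_mem _
  simpa using h

theorem seqOf_cp (L : List (Fin d → List (Fin d))) (hL : 1 ≤ L.length) (w : List (Fin d)) :
    cp (seqOf L hL) L.length w = L.foldl (fun w τ => w.flatMap τ) w := by
  apply cp_list
  intro i hi
  have hi' : i < L.length := by simpa using hi
  simp only [seqOf, Nat.mod_eq_of_lt hi']

/-- the list is nonempty if some power of `σ` is its composition -/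
theorem list_pos {σ : Fin d → List (Fin d)} {M : Matrix (Fin d) (Fin d) ℤ} {r : ℝ}
    {f l : Fin d → ℝ} {C θ : ℝ} [NeZero d] (D : PData σ M r f l C θ)
    (L : List (Fin d → List (Fin d))) {e : ℕ} (he : 1 ≤ e)
    (hσ : ∀ a, it σ e [a] = L.foldl (fun w τ => w.flatMap τ) [a]) : 1 ≤ L.length := by
  by_contra hcon
  have h0 : L = [] := List.eq_nil_of_length_eq_zero (by omega)
  subst h0
  have h1 := hσ 0
  simp only [List.foldl_nil] at h1
  have h2 := wt_it D.sub D.per.hl e [(0 : Fin d)]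
  rw [h1, wt_singleton] at h2
  have h3 : 1 < r ^ e := one_lt_pow₀ D.pis.one_lt (by omega)
  have h4 := D.per.l_pos 0
  nlinarith

/-- **Family I.** Compositions of common-context substitutions. -/
theorem familyI [NeZero d] {σ : Fin d → List (Fin d)} {M : Matrix (Fin d) (Fin d) ℤ} {r : ℝ}
    {f l : Fin d → ℝ} {C θ : ℝ} (D : PData σ M r f l C θ)
    (L : List (Fin d → List (Fin d)))
    (hL : ∀ τ ∈ L, ∃ W₁ W₂ : List (Fin d), ∀ a, τ a = W₁ ++ W₂ ∨ ∃ c, τ a = W₁ ++ [c] ++ W₂)
    {e : ℕ} (he : 1 ≤ e)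
    (hσ : ∀ a, it σ e [a] = L.foldl (fun w τ => w.flatMap τ) [a]) :
    ∀ a b : Fin d, sw (Hr σ r) a b = 0 := by
  classical
  have hk := list_pos D L he hσ
  have hex : ∀ i : Fin L.length, ∃ (W₁ W₂ : List (Fin d)) (t : Fin d → Option (Fin d)),
      ∀ a, seqOf L hk i a = W₁ ++ (t a).toList ++ W₂ := by
    intro i
    obtain ⟨W₁, W₂, h⟩ := hL _ (seqOf_mem L hk i)
    refine ⟨W₁, W₂, fun a => if h' : ∃ c, seqOf L hk i a = W₁ ++ [c] ++ W₂ then
      some h'.choose else none, fun a => ?_⟩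
    beta_reduce
    by_cases h' : ∃ c, seqOf L hk i a = W₁ ++ [c] ++ W₂
    · rw [dif_pos h']
      exact h'.choose_spec
    · rw [dif_neg h']
      rcases h a with h1 | h1
      · simpa using h1
      · exact absurd h1 h'
  choose W₁ W₂ t ht using hex
  have hmod : ∀ n : ℕ, n % L.length < L.length := fun n => Nat.mod_lt _ hk
  refine familyI_core (S := seqOf L hk) (k := L.length) (e := e)
    (τ := fun n => t ⟨n % L.length, hmod n⟩) (W1 := fun n => W₁ ⟨n % L.length, hmod n⟩)
    (W2 := fun n => W₂ ⟨n % L.length, hmod n⟩) D ⟨hk, he, seqOf_per L hk, ?_⟩ ?_ ?_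
  · intro a
    rw [seqOf_cp, hσ]
  · intro n
    simp
  · intro n a
    have h1 := ht ⟨n % L.length, hmod n⟩ a
    have h2 : seqOf L hk (n % L.length) = seqOf L hk n := by
      simp [seqOf]
    rw [← h2]
    exact h1

end Pool.Agent.Helper94_Pisot
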