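import Mathlib
import Pool.Agent.Helper94_Pisot.Final

/-!
# Compositions of substitutions with a dominant letter
-/

set_option autoImplicit false
set_option linter.unusedSectionVars false

namespace Pool.Agent.Helper94_Pisot

open Filter Topology Matrix

variable {d : ℕ} [NeZero d]

section

variable {σ : Fin d → List (Fin d)} {M : Matrix (Fin d) (Fin d) ℤ} {r : ℝ}
  {f l : Fin d → ℝ} {C θ : ℝ} {S : ℕ → Fin d → List (Fin d)} {k e : ℕ} {w : Fin d → ℕ} {o : Fin d}

/-- weight of a word -/
def wl (w : Fin d → ℕ) (u : List (Fin d)) : ℕ := (u.map w).sum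

omit [NeZero d] in
@[simp] theorem wl_nil (w : Fin d → ℕ) : wl w [] = 0 := rfl

omit [NeZero d] in
@[simp] theorem wl_cons (w : Fin d → ℕ) (a : Fin d) (u : List (Fin d)) :
    wl w (a :: u) = w a + wl w u := by simp [wl]

omit [NeZero d] in
theorem le_wl (w : Fin d → ℕ) {c : Fin d} {u : List (Fin d)} (h : c ∈ u) : w c ≤ wl w u := by
  induction u with
  | nil => simp at h
  | cons a u ih =>
    rw [wl_cons]
    rcases List.mem_cons.1 h with rfl | h
    · omega
    · have := ih h
      omega

omit [NeZero d] in
theorem eq_singleton_of_wl (w : Fin d → ℕ) (hw : ∀ i, 1 ≤ w i) {c : Fin d} {u : List (Fin d)}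
    (h : c ∈ u) (h' : wl w u ≤ w c) : u = [c] := by
  cases u with
  | nil => simp at h
  | cons a u =>
    rw [wl_cons] at h'
    rcases List.mem_cons.1 h with rfl | h
    · cases u with
      | nil => rfl
      | cons b u =>
        rw [wl_cons] at h'
        have := hw b
        omega
    · have := le_wl w h
      have := hw a
      omega

/-- signed weight of a letter -/
def sg (o : Fin d) (w : Fin d → ℕ) (c : Fin d) : ℝ := if c = o then -1 else (w c : ℝ)

/-- signed weight of a word -/
noncomputable def sgw (o : Fin d) (w : Fin d → ℕ) (u : List (Fin d)) : ℝ :=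
  (u.map (sg o w)).sum

theorem sgw_eq (o : Fin d) (w : Fin d → ℕ) (hw0 : w o = 1) (u : List (Fin d)) :
    sgw o w u = wl w u - 2 * (u.count o : ℝ) := by
  induction u with
  | nil => simp [sgw]
  | cons a u ih =>
    have h1 : sgw o w (a :: u) = sg o w a + sgw o w u := by simp [sgw]
    rw [h1, ih, wl_cons, List.count_cons]
    by_cases h : a = o
    · subst h
      simp only [sg, if_true, hw0, beq_self_eq_true]
      push_cast
      ring
    · simp only [sg, if_neg h, beq_iff_eq]
      push_cast
      ring

/-- the potential -/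
noncomputable def Pot (S : ℕ → Fin d → List (Fin d)) (l : Fin d → ℝ) (o : Fin d) (w : Fin d → ℕ) (n : ℕ)
    (a b : Fin d) : ℝ := sg o w b * Ln S l n [a] + sg o w a * Ln S l n [b]

theorem Pot_symm (n : ℕ) (a b : Fin d) : Pot S l o w n a b = Pot S l o w n b a := by
  rw [Pot, Pot]
  ring

omit [NeZero d] in
theorem sum_map_mul_right' {α : Type*} (u : List α) (g : α → ℝ) (x : ℝ) :
    (u.map fun c => g c * x).sum = (u.map g).sum * x := by
  induction u with
  | nil => simp
  | cons a u ih => simp only [List.map_cons, List.sum_cons, ih]; ring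

omit [NeZero d] in
theorem sum_map_mul_left' {α : Type*} (u : List α) (g : α → ℝ) (x : ℝ) :
    (u.map fun c => x * g c).sum = x * (u.map g).sum := by
  induction u with
  | nil => simp
  | cons a u ih => simp only [List.map_cons, List.sum_cons, ih]; ring

omit [NeZero d] in
theorem sum_map_add' {α : Type*} (u : List α) (g h : α → ℝ) :
    (u.map fun c => g c + h c).sum = (u.map g).sum + (u.map h).sum := by
  induction u with
  | nil => simp
  | cons a u ih => simp only [List.map_cons, List.sum_cons, ih]; ring

/-- the potential, set to `0` on the diagonal -/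
noncomputable def Pot0 (S : ℕ → Fin d → List (Fin d)) (l : Fin d → ℝ) (o : Fin d) (w : Fin d → ℕ) (n : ℕ)
    (a b : Fin d) : ℝ := if a = b then 0 else Pot S l o w n a b

/-- comparison of the double sum with the bilinear expression -/
theorem sum_Pot0_le (hLpos : ∀ n a, 0 < Ln S l n [a]) (n : ℕ)
    (u v : List (Fin d)) :
    (u.map fun c => (v.map fun c' => Pot0 S l o w n c c').sum).sum ≤
      sgw o w v * Ln S l n u + sgw o w u * Ln S l n v +
        2 * (u.count o : ℝ) * (v.count o : ℝ) * Ln S l n [o] := by
  -- pointwise comparison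
  have hpt : ∀ c c' : Fin d, Pot0 S l o w n c c' ≤ sg o w c' * Ln S l n [c] + sg o w c * Ln S l n [c'] +
      2 * (if c = o then 1 else 0) * (if c' = o then 1 else 0) * Ln S l n [o] := by
    intro c c'
    have h1 := hLpos n c
    have h0 := hLpos n o
    by_cases h : c = c'
    · subst h
      rw [Pot0, if_pos rfl]
      by_cases hc : c = o
      · subst hc
        simp only [sg, if_true]
        linarith
      · simp only [sg, if_neg hc]
        have : (0 : ℝ) ≤ w c := Nat.cast_nonneg _
        nlinarith
    · rw [Pot0, if_neg h, Pot]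
      have h2 : (0 : ℝ) ≤ 2 * (if c = o then 1 else 0) * (if c' = o then 1 else 0) *
          Ln S l n [o] := by
        split_ifs <;> simp [h0.le]
      linarith
  have hcount : ∀ u : List (Fin d), (u.count o : ℝ) =
      (u.map fun c => if c = o then (1 : ℝ) else 0).sum := by
    intro u
    induction u with
    | nil => simp
    | cons a u ih =>
      rw [List.count_cons, List.map_cons, List.sum_cons, ← ih]
      by_cases h : a = o
      · simp [h]; ring
      · simp [h]
  calc (u.map fun c => (v.map fun c' => Pot0 S l o w n c c').sum).sum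
      ≤ (u.map fun c => (v.map fun c' => sg o w c' * Ln S l n [c] + sg o w c * Ln S l n [c'] +
      2 * (if c = o then 1 else 0) * (if c' = o then 1 else 0) *
        Ln S l n [o]).sum).sum := by
        apply List.sum_le_sum
        intro c _
        apply List.sum_le_sum
        intro c' _
        exact hpt c c'
    _ = (u.map fun c => sgw o w v * Ln S l n [c] + sg o w c * Ln S l n v +
          2 * (if c = o then 1 else 0) * (v.count o : ℝ) * Ln S l n [o]).sum := by
        congr 1
        apply List.map_congr_left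
        intro c _
        rw [sum_map_add', sum_map_add', sum_map_mul_right', sum_map_mul_left', ← Ln_eq_sum,
          sum_map_mul_right', sum_map_mul_left', ← hcount]
        rfl
    _ = _ := by
        rw [sum_map_add', sum_map_add', sum_map_mul_left', sum_map_mul_right', ← Ln_eq_sum]
        have h3 : (fun c : Fin d => 2 * (if c = o then (1 : ℝ) else 0) * (v.count o : ℝ) *
            Ln S l n [o]) = fun c => (2 * (v.count o : ℝ) * Ln S l n [o]) *
              (if c = o then (1 : ℝ) else 0) := by
          funext c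
          ring
        rw [h3, sum_map_mul_left', ← hcount]
        rw [← sgw]
        ring

omit [NeZero d] in
theorem eq_of_double_sum_le {u v : List (Fin d)} {g h : Fin d → Fin d → ℝ}
    (hle : ∀ c c', g c c' ≤ h c c')
    (hs : (u.map fun c => (v.map fun c' => h c c').sum).sum ≤
      (u.map fun c => (v.map fun c' => g c c').sum).sum) :
    ∀ c ∈ u, ∀ c' ∈ v, g c c' = h c c' := by
  have h1 : ∀ c ∈ u, (v.map fun c' => g c c').sum ≤ (v.map fun c' => h c c').sum := by
    intro c _
    apply List.sum_le_sum
    intro c' _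
    exact hle c c'
  have h2 := eq_of_sum_le (w := u) (g := fun c => (v.map fun c' => g c c').sum)
    (h := fun c => (v.map fun c' => h c c').sum) h1 hs
  intro c hc
  exact eq_of_sum_le (w := v) (g := fun c' => g c c') (h := fun c' => h c c')
    (fun c' _ => hle c c') (h2 c hc).ge

omit [NeZero d] in
theorem count_mul_le (hLpos : ∀ n a, 0 < Ln S l n [a]) (n : ℕ) (z : Fin d) (u : List (Fin d)) :
    (u.count z : ℝ) * Ln S l n [z] ≤ Ln S l n u := by
  induction u with
  | nil => simp
  | cons a u ih =>
    have h1 : a :: u = [a] ++ u := rfl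
    rw [h1, Ln_append, List.count_append]
    have h2 : (([a] : List (Fin d)).count z : ℝ) * Ln S l n [z] ≤ Ln S l n [a] := by
      by_cases h : a = z
      · simp [h]
      · have : ([a] : List (Fin d)).count z = 0 := by
          rw [List.count_eq_zero]
          simp [Ne.symm h]
        rw [this]
        simp [(hLpos n a).le]
    push_cast
    linarith

omit [NeZero d] in
/-- letters do not keep images of length one forever -/
theorem no_long_chain (D : PData σ M r f l C θ) (hC : Cyc S σ k e)
    (P : ℕ → Fin d → Prop) (hper : ∀ n q b, P n b → P (n + k * q) b)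
    (hstep : ∀ n b, P (n + 1) b → ∃ c, S n b = [c] ∧ P n c) : ∀ n b, ¬ P n b := by
  classical
  intro n b hP
  have hr : 1 < r ^ e := one_lt_pow₀ D.pis.one_lt (by have := hC.he; omega)
  have hpos := Ln_pos D hC
  set Bd : ℝ := ∑ c, Ln S l 0 [c] with hBd
  obtain ⟨q, hq⟩ : ∃ q : ℕ, Bd < (r ^ e) ^ q * Ln S l n [b] := by
    have h1 : Tendsto (fun q : ℕ => (r ^ e) ^ q * Ln S l n [b]) atTop atTop :=
      (tendsto_pow_atTop_atTop_of_one_lt hr).atTop_mul_const (hpos n b)
    exact (h1.eventually (eventually_gt_atTop Bd)).exists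
  have hdesc : ∀ N b, P N b → ∃ c, Ln S l N [b] = Ln S l 0 [c] := by
    intro N
    induction N with
    | zero => intro b _; exact ⟨b, rfl⟩
    | succ N ih =>
      intro b hb
      obtain ⟨c, hc, hPc⟩ := hstep N b hb
      obtain ⟨c', hc'⟩ := ih c hPc
      refine ⟨c', ?_⟩
      rw [← hc', Ln_succ]
      simp [hc]
  obtain ⟨c, hc⟩ := hdesc _ b (hper n q b hP)
  rw [Ln_periodic' D hC] at hc
  have h1 : Ln S l 0 [c] ≤ Bd :=
    Finset.single_le_sum (f := fun c => Ln S l 0 [c]) (fun c _ => (hpos 0 c).le)
      (Finset.mem_univ c)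
  linarith

/-- lengths are dominated by the length of the letter `0` -/
theorem Ln_le_zero (D : PData σ M r f l C θ) (hC : Cyc S σ k e) (hw1 : ∀ i, 1 ≤ w i)
    (hw0 : w o = 1)
    (hβ : ∀ n b, b ≠ o → wl w (S n b) ≤ w b) (h0mem : ∀ n, o ∈ S n o)
    (n : ℕ) (b : Fin d) : Ln S l n [b] ≤ w b * Ln S l n [o] := by
  classical
  have hpos := Ln_pos D hC
  have hr : 1 < r ^ e := one_lt_pow₀ D.pis.one_lt (by have := hC.he; omega)
  set R : ℝ := ∑ c, Ln S l n [c] with hR
  have hRpos : ∀ c, Ln S l n [c] ≤ R := fun c =>
    Finset.single_le_sum (f := fun c => Ln S l n [c]) (fun c _ => (hpos n c).le)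
      (Finset.mem_univ c)
  have hword : ∀ (m : ℕ) (X : ℝ), (∀ c, Ln S l m [c] ≤ w c * X) → ∀ u : List (Fin d),
      Ln S l m u ≤ wl w u * X := by
    intro m X h u
    induction u with
    | nil => simp
    | cons a u ih =>
      have h1 : a :: u = [a] ++ u := rfl
      rw [wl_cons, h1, Ln_append]
      push_cast
      have := h a
      linarith
  have hmono : ∀ m, Ln S l m [o] ≤ Ln S l (m + 1) [o] := by
    intro m
    rw [Ln_succ]
    simp only [List.flatMap_cons, List.flatMap_nil, List.append_nil]
    have h1 := count_mul_le (S := S) (l := l) hpos m o (S m o)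
    have h2 : (1 : ℝ) ≤ ((S m o).count o : ℝ) := by
      have : 0 < (S m o).count o := List.count_pos_iff.2 (h0mem m)
      exact_mod_cast this
    have h3 := hpos m o
    nlinarith
  have hmain : ∀ t c, Ln S l (n + t) [c] ≤ w c * max R (Ln S l (n + t) [o]) := by
    intro t
    induction t with
    | zero =>
      intro c
      have h1 : (1 : ℝ) ≤ w c := by exact_mod_cast hw1 c
      have h2 : Ln S l n [c] ≤ max R (Ln S l n [o]) := (hRpos c).trans (le_max_left _ _)
      have h3 := hpos n c
      simp only [Nat.add_zero]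
      nlinarith
    | succ t ih =>
      intro c
      by_cases hc : c = o
      · subst hc
        rw [hw0]
        simp
      · have h1 := hword (n + t) _ ih (S (n + t) c)
        have h2 : Ln S l (n + (t + 1)) [c] = Ln S l (n + t) (S (n + t) c) := by
          rw [← add_assoc, Ln_succ]
          simp
        rw [h2]
        refine h1.trans ?_
        have h3 : ((wl w (S (n + t) c) : ℕ) : ℝ) ≤ w c := by exact_mod_cast hβ (n + t) c hc
        have h4 : max R (Ln S l (n + t) [o]) ≤
            max R (Ln S l (n + (t + 1)) [o]) :=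
          max_le_max le_rfl (by rw [← add_assoc]; exact hmono (n + t))
        have h5 : 0 ≤ max R (Ln S l (n + t) [o]) :=
          (hpos (n + t) o).le.trans (le_max_right _ _)
        exact mul_le_mul h3 h4 h5 (Nat.cast_nonneg _)
  obtain ⟨q, hq⟩ : ∃ q : ℕ, R < (r ^ e) ^ q * Ln S l n [o] := by
    have h1 : Tendsto (fun q : ℕ => (r ^ e) ^ q * Ln S l n [o]) atTop atTop :=
      (tendsto_pow_atTop_atTop_of_one_lt hr).atTop_mul_const (hpos n o)
    exact (h1.eventually (eventually_gt_atTop R)).exists
  have h1 := hmain (k * q) b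
  rw [Ln_periodic' D hC, Ln_periodic' D hC, max_eq_right hq.le] at h1
  have h2 : 0 < (r ^ e) ^ q := by positivity
  have h3 : (r ^ e) ^ q * Ln S l n [b] ≤ (r ^ e) ^ q * (w b * Ln S l n [o]) := by
    linarith
  exact le_of_mul_le_mul_left h3 h2

omit [NeZero d] in
/-- rational independence in the form needed -/
theorem Ln_ne_mul (D : PData σ M r f l C θ) (hC : Cyc S σ k e) (n : ℕ) {a b : Fin d}
    (hab : a ≠ b) (m : ℕ) : Ln S l n [b] ≠ m * Ln S l n [a] := by
  intro h
  have hl0 : l ≠ 0 := by
    intro h0
    have := D.per.l_pos a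
    rw [h0] at this
    exact lt_irrefl _ this
  have hT : mR Mᵀ *ᵥ l = r • l := by
    have h3 : mR Mᵀ = (mR M)ᵀ := by
      ext i j
      simp [mR]
    rw [h3, Matrix.mulVec_transpose]
    exact D.per.hl
  have h1 := indep (transpose_pisot D.pis).irr hT hl0
    (fun i => ab (cp S n [b]) i - m * ab (cp S n [a]) i) (by
      have h2 : Ln S l n [b] - m * Ln S l n [a] = 0 := sub_eq_zero.2 h
      simp only [Ln, wt] at h2
      rw [Finset.mul_sum, ← Finset.sum_sub_distrib] at h2
      rw [← h2]
      refine Finset.sum_congr rfl fun i _ => ?_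
      push_cast
      ring)
  have h2 : MN S n *ᵥ (Pi.single b 1 - (m : ℤ) • Pi.single a 1) = 0 := by
    rw [Matrix.mulVec_sub, Matrix.mulVec_smul, ← ab_singleton, ← ab_singleton, ← ab_cp, ← ab_cp]
    funext i
    have := congrFun h1 i
    simpa using this
  have h3 := Matrix.eq_zero_of_mulVec_eq_zero (det_MN_ne_zero D hC n) h2
  have h4 := congrFun h3 b
  simp [hab.symm] at h4

theorem familyII_core (D : PData σ M r f l C θ) (hC : Cyc S σ k e) (hw1 : ∀ i, 1 ≤ w i)
    (hw0 : w o = 1) (hβ : ∀ n b, b ≠ o → wl w (S n b) ≤ w b)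
    (hα : ∀ n, wl w (S n o) < 2 * (S n o).count o) :
    ∀ a b, sw (Hr σ r) a b = 0 := by
  classical
  have hr : 1 < r ^ e := one_lt_pow₀ D.pis.one_lt (by have := hC.he; omega)
  have hr0 : 0 < r ^ e := by linarith
  have hk := hC.hk
  have hpos := Ln_pos D hC
  have h0mem : ∀ n, o ∈ S n o := by
    intro n
    have := hα n
    exact List.count_pos_iff.1 (by omega)
  have hdom := Ln_le_zero D hC hw1 hw0 hβ h0mem
  have hwpos : ∀ i, (1 : ℝ) ≤ w i := fun i => by exact_mod_cast hw1 i
  -- positivity of the potential
  have hPot0b : ∀ n b, b ≠ o → 0 < Pot S l o w n o b := by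
    intro n b hb
    have h1 := hdom n b
    have h2 := Ln_ne_mul D hC n (Ne.symm hb) (w b)
    rw [Pot, sg, sg, if_neg hb, if_pos rfl]
    have h3 := lt_of_le_of_ne h1 h2
    linarith
  have hPotpos : ∀ n a b, a ≠ b → 0 < Pot S l o w n a b := by
    intro n a b hab
    by_cases ha : a = o
    · subst ha
      exact hPot0b n b (Ne.symm hab)
    · by_cases hb : b = o
      · subst hb
        rw [Pot_symm]
        exact hPot0b n a ha
      · rw [Pot, sg, sg, if_neg ha, if_neg hb]
        have h1 := hpos n a
        have h2 := hpos n b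
        have h3 := hwpos a
        have h4 := hwpos b
        positivity
  have hPotper : ∀ n q a b, Pot S l o w (n + k * q) a b = (r ^ e) ^ q * Pot S l o w n a b := by
    intro n q a b
    rw [Pot, Pot, Ln_periodic' D hC, Ln_periodic' D hC]
    ring
  have hnn : ∀ n a b, 0 ≤ sw (Hn S σ r n) a b := fun n a b => (Hn_pre D n).nonneg _ _
  -- maximal ratio
  set ratio : Fin k × Fin d × Fin d → ℝ := fun p =>
    if p.2.1 = p.2.2 then 0 else sw (Hn S σ r p.1) p.2.1 p.2.2 / Pot S l o w p.1 p.2.1 p.2.2
    with hratio
  have hne : (Finset.univ : Finset (Fin k × Fin d × Fin d)).Nonempty := by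
    refine ⟨(⟨0, by omega⟩, 0, 0), Finset.mem_univ _⟩
  obtain ⟨p0, _, hp0⟩ := Finset.exists_max_image Finset.univ ratio hne
  set κ := ratio p0 with hκ
  have hdivmod : ∀ n, n = n % k + k * (n / k) := fun n => (Nat.mod_add_div n k).symm
  have hbound : ∀ n a b, a ≠ b → sw (Hn S σ r n) a b ≤ κ * Pot S l o w n a b := by
    intro n a b hab
    have h1 := hp0 (⟨n % k, Nat.mod_lt _ (by omega)⟩, a, b) (Finset.mem_univ _)
    simp only [hratio, if_neg hab] at h1
    rw [div_le_iff₀ (hPotpos _ _ _ hab)] at h1
    have h2 : sw (Hn S σ r n) a b = (r ^ e) ^ (n / k) * sw (Hn S σ r (n % k)) a b := by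
      conv_lhs => rw [hdivmod n]
      exact Hn_periodic' D hC _ _ _ _
    have h3 : Pot S l o w n a b = (r ^ e) ^ (n / k) * Pot S l o w (n % k) a b := by
      conv_lhs => rw [hdivmod n]
      exact hPotper _ _ _ _
    rw [h2, h3]
    have h4 : 0 ≤ (r ^ e) ^ (n / k) := by positivity
    calc (r ^ e) ^ (n / k) * sw (Hn S σ r (n % k)) a b
        ≤ (r ^ e) ^ (n / k) * (κ * Pot S l o w (n % k) a b) :=
          mul_le_mul_of_nonneg_left h1 h4
      _ = _ := by ring
  rcases le_or_gt κ 0 with hκ0 | hκpos
  · intro a b
    by_cases hab : a = b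
    · subst hab
      exact sw_self (Hr_pre D) a
    · have h1 := hbound 0 a b hab
      have h2 := hnn 0 a b
      have h3 : sw (Hn S σ r 0) a b = sw (Hr σ r) a b := rfl
      rw [h3] at h1 h2
      have h4 := hPotpos 0 a b hab
      nlinarith
  exfalso
  have hbound0 : ∀ n a b, sw (Hn S σ r n) a b ≤ κ * Pot0 S l o w n a b := by
    intro n a b
    by_cases hab : a = b
    · subst hab
      rw [sw_self (Hn_pre D n), Pot0, if_pos rfl, mul_zero]
    · rw [Pot0, if_neg hab]
      exact hbound n a b hab
  set Mx : ℕ → Fin d → Fin d → Prop := fun n a b =>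
    a ≠ b ∧ sw (Hn S σ r n) a b = κ * Pot S l o w n a b with hMx
  have hMxsymm : ∀ n a b, Mx n a b → Mx n b a := by
    intro n a b h
    exact ⟨h.1.symm, by rw [sw_symm (Hn_pre D n), Pot_symm]; exact h.2⟩
  have hMxper : ∀ n q a b, Mx n a b → Mx (n + k * q) a b := by
    intro n q a b h
    refine ⟨h.1, ?_⟩
    have h1 : sw (Hn S σ r (n + k * q)) a b = (r ^ e) ^ q * sw (Hn S σ r n) a b :=
      Hn_periodic' D hC _ _ _ _
    rw [h1, h.2, hPotper]
    ring
  obtain ⟨n0, a0, b0, hM0⟩ : ∃ n a b, Mx n a b := by
    obtain ⟨m, a, b⟩ := p0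
    have hab : a ≠ b := by
      intro h
      rw [hκ] at hκpos
      simp only [hratio, if_pos h] at hκpos
      exact lt_irrefl _ hκpos
    refine ⟨m, a, b, hab, ?_⟩
    rw [hκ]
    simp only [hratio, if_neg hab]
    rw [div_mul_cancel₀ _ (hPotpos _ _ _ hab).ne']
  -- one descent step: consequences of equality
  have hdescent : ∀ n a b, Mx (n + 1) a b →
      (∀ c ∈ S n a, ∀ c' ∈ S n b, sw (Hn S σ r n) c c' = κ * Pot0 S l o w n c c') ∧
      Pot S l o w (n + 1) a b ≤ sgw o w (S n b) * Ln S l n (S n a) + sgw o w (S n a) * Ln S l n (S n b) +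
        2 * ((S n a).count o : ℝ) * ((S n b).count o : ℝ) * Ln S l n [o] ∧
      ∃ c ∈ S n a, ∃ c' ∈ S n b, c ≠ c' := by
    intro n a b hM
    have h1 : sw (Hn S σ r (n + 1)) a b ≤
        ((S n a).map fun c => ((S n b).map fun c' => sw (Hn S σ r n) c c').sum).sum := by
      have h2 := cross_le (Hn_pre D (S := S) n) (S n a) (S n b)
      refine le_trans (le_of_eq ?_) h2
      rw [sw, Hn_succ]
      simp
    have h2 : ((S n a).map fun c => ((S n b).map fun c' => sw (Hn S σ r n) c c').sum).sum ≤
        ((S n a).map fun c => ((S n b).map fun c' => κ * Pot0 S l o w n c c').sum).sum := by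
      apply List.sum_le_sum
      intro c _
      apply List.sum_le_sum
      intro c' _
      exact hbound0 n c c'
    have h3 : ((S n a).map fun c => ((S n b).map fun c' => κ * Pot0 S l o w n c c').sum).sum =
        κ * ((S n a).map fun c => ((S n b).map fun c' => Pot0 S l o w n c c').sum).sum := by
      simp only [sum_map_mul_left']
    have h4 := sum_Pot0_le (w := w) (o := o) hpos n (S n a) (S n b)
    -- upper bound by the potential at level `n + 1`
    have hLa : Ln S l (n + 1) [a] = Ln S l n (S n a) := by rw [Ln_succ]; simp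
    have hLb : Ln S l (n + 1) [b] = Ln S l n (S n b) := by rw [Ln_succ]; simp
    set u := S n a with hu
    set v := S n b with hv
    have hLu : (0 : ℝ) < Ln S l n u := by rw [← hLa]; exact hpos _ _
    have hLv : (0 : ℝ) < Ln S l n v := by rw [← hLb]; exact hpos _ _
    have hL0 := hpos n o
    have hcu := count_mul_le (S := S) (l := l) hpos n o u
    have hcv := count_mul_le (S := S) (l := l) hpos n o v
    have hzu : (0 : ℝ) ≤ u.count o := Nat.cast_nonneg _
    have hzv : (0 : ℝ) ≤ v.count o := Nat.cast_nonneg _
    have hB : sgw o w v * Ln S l n u + sgw o w u * Ln S l n v +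
        2 * (u.count o : ℝ) * (v.count o : ℝ) * Ln S l n [o] ≤
        Pot S l o w (n + 1) a b := by
      rw [Pot, hLa, hLb, sgw_eq o w hw0, sgw_eq o w hw0]
      -- key inequality `2 z(v) L(u) ≥ 2 z(u) z(v) L_0`
      have key1 : (v.count o : ℝ) * ((u.count o : ℝ) * Ln S l n [o]) ≤
          (v.count o : ℝ) * Ln S l n u := mul_le_mul_of_nonneg_left hcu hzv
      have key2 : (u.count o : ℝ) * ((v.count o : ℝ) * Ln S l n [o]) ≤
          (u.count o : ℝ) * Ln S l n v := mul_le_mul_of_nonneg_left hcv hzu
      by_cases ha : a = o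
      · have hb : b ≠ o := fun h => hM.1 (ha.trans h.symm)
        have h5 : ((wl w v : ℕ) : ℝ) ≤ w b := by exact_mod_cast hβ n b hb
        have h6 : ((wl w u : ℕ) : ℝ) + 1 ≤ 2 * (u.count o : ℝ) := by
          have h7 := hα n
          have h8 : S n o = u := by rw [hu, ha]
          rw [h8] at h7
          exact_mod_cast h7
        rw [sg, sg, if_neg hb, if_pos ha]
        nlinarith
      · by_cases hb : b = o
        · have h5 : ((wl w u : ℕ) : ℝ) ≤ w a := by exact_mod_cast hβ n a ha
          have h6 : ((wl w v : ℕ) : ℝ) + 1 ≤ 2 * (v.count o : ℝ) := by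
            have h7 := hα n
            have h8 : S n o = v := by rw [hv, hb]
            rw [h8] at h7
            exact_mod_cast h7
          rw [sg, sg, if_neg ha, if_pos hb]
          nlinarith
        · have h5 : ((wl w u : ℕ) : ℝ) ≤ w a := by exact_mod_cast hβ n a ha
          have h6 : ((wl w v : ℕ) : ℝ) ≤ w b := by exact_mod_cast hβ n b hb
          rw [sg, sg, if_neg ha, if_neg hb]
          nlinarith
    have hlow : κ * Pot S l o w (n + 1) a b ≤
        ((u).map fun c => ((v).map fun c' => sw (Hn S σ r n) c c').sum).sum := by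
      rw [← hM.2]
      exact h1
    have hup : ((u).map fun c => ((v).map fun c' => κ * Pot0 S l o w n c c').sum).sum ≤
        κ * Pot S l o w (n + 1) a b := by
      rw [h3]
      exact mul_le_mul_of_nonneg_left (h4.trans hB) hκpos.le
    refine ⟨?_, ?_, ?_⟩
    · exact eq_of_double_sum_le (hbound0 n) (hup.trans hlow)
    · have h5 := hlow.trans (h2.trans h3.le)
      exact (le_of_mul_le_mul_left h5 hκpos).trans h4
    · by_contra hcon
      push Not at hcon
      have h5 : ((u).map fun c => ((v).map fun c' => sw (Hn S σ r n) c c').sum).sum = 0 := by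
        apply List.sum_eq_zero
        intro x hx
        rw [List.mem_map] at hx
        obtain ⟨c, hc, rfl⟩ := hx
        apply List.sum_eq_zero
        intro y hy
        rw [List.mem_map] at hy
        obtain ⟨c', hc', rfl⟩ := hy
        rw [hcon c hc c' hc']
        exact sw_self (Hn_pre D n) c'
      rw [h5] at hlow
      have := mul_pos hκpos (hPotpos (n + 1) a b hM.1)
      linarith
  -- no maximizing pair contains the letter `0`
  have hno0 : ∀ n b, ¬ Mx n o b := by
    by_contra hcon
    push Not at hcon
    -- minimal weight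
    have hex : ∃ m : ℕ, ∃ n b, Mx n o b ∧ w b = m := by
      obtain ⟨n, b, h⟩ := hcon
      exact ⟨w b, n, b, h, rfl⟩
    set m := Nat.find hex with hm
    have hmin : ∀ n b, Mx n o b → m ≤ w b := by
      intro n b h
      exact Nat.find_min' hex ⟨n, b, h, rfl⟩
    obtain ⟨n1, b1, hM1, hwb1⟩ := Nat.find_spec hex
    refine no_long_chain D hC (fun n b => Mx n o b ∧ w b = m)
      (fun n q b h => ⟨hMxper n q o b h.1, h.2⟩) ?_ n1 b1 ⟨hM1, hwb1⟩
    rintro n b ⟨hM, hwb⟩
    obtain ⟨hterm, hPot, c0, hc0, c0', hc0', hcc⟩ := hdescent n o b hM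
    have hb : b ≠ o := hM.1.symm
    set u := S n o with hu
    set v := S n b with hv
    have hLa : Ln S l (n + 1) [o] = Ln S l n u := by rw [Ln_succ]; simp [hu]
    have hLb : Ln S l (n + 1) [b] = Ln S l n v := by rw [Ln_succ]; simp [hv]
    have hLu : (0 : ℝ) < Ln S l n u := by rw [← hLa]; exact hpos _ _
    have hLv : (0 : ℝ) < Ln S l n v := by rw [← hLb]; exact hpos _ _
    have hcu := count_mul_le (S := S) (l := l) hpos n o u
    have hwv := hβ n b hb
    rw [← hv, hwb] at hwv
    have h0u : o ∈ u := h0mem n
    -- every nonzero letter of `v` is maximizing with `0`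
    have hmax : ∀ c' ∈ v, c' ≠ o → Mx n o c' := by
      intro c' hc' hne
      refine ⟨hne.symm, ?_⟩
      rw [hterm o h0u c' hc', Pot0, if_neg hne.symm]
    by_cases hzv : o ∈ v
    · -- then `u` consists of zeros only
      exfalso
      have hz1 : (1 : ℝ) ≤ v.count o := by
        have : 0 < v.count o := List.count_pos_iff.2 hzv
        exact_mod_cast this
      rw [Pot, hLa, hLb, sgw_eq o w hw0, sgw_eq o w hw0, sg, sg, if_neg hb, if_pos rfl] at hPot
      have h5 : ((wl w v : ℕ) : ℝ) ≤ w b := by exact_mod_cast hβ n b hb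
      have h6 : ((wl w u : ℕ) : ℝ) + 1 ≤ 2 * (u.count o : ℝ) := by exact_mod_cast hα n
      have key : (v.count o : ℝ) * (Ln S l n u - (u.count o : ℝ) * Ln S l n [o]) ≤ 0 := by
        nlinarith
      have hall : Ln S l n u ≤ (u.count o : ℝ) * Ln S l n [o] := by
        nlinarith
      have hzero : ∀ c ∈ u, c = o := by
        intro c hc
        by_contra hne
        have h7 : ∀ u : List (Fin d), c ∈ u →
            (u.count o : ℝ) * Ln S l n [o] + Ln S l n [c] ≤ Ln S l n u := by
          intro u
          induction u with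
          | nil => intro h; simp at h
          | cons x u ih =>
            intro h
            have e1 : x :: u = [x] ++ u := rfl
            rw [e1, Ln_append, List.count_append]
            push_cast
            rcases List.mem_cons.1 h with rfl | h
            · have e2 : ([c] : List (Fin d)).count o = 0 := by
                rw [List.count_eq_zero]
                simp [Ne.symm hne]
              rw [e2]
              have := count_mul_le (S := S) (l := l) hpos n o u
              push_cast
              linarith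
            · have := ih h
              have e3 := count_mul_le (S := S) (l := l) hpos n o [x]
              linarith
        have := h7 u hc
        have := hpos n c
        linarith
      have hc00 : c0 = o := hzero c0 hc0
      have hne' : c0' ≠ o := fun h => hcc (hc00.trans h.symm)
      have h8 := hmin n c0' (hmax c0' hc0' hne')
      -- weight of `c0'` is smaller than `m`
      have h9 : w c0' + w o ≤ wl w v := by
        have haux : ∀ y : List (Fin d), c0' ∈ y → o ∈ y → w c0' + w o ≤ wl w y := by
          intro y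
          induction y with
          | nil => intro h; simp at h
          | cons x y ih =>
            intro h1 h2
            rw [wl_cons]
            rcases List.mem_cons.1 h1 with h3 | h3
            · rcases List.mem_cons.1 h2 with h4 | h4
              · exact absurd (h3.trans h4.symm) hne'
              · have h5 := le_wl w h4
                rw [h3]
                omega
            · rcases List.mem_cons.1 h2 with h4 | h4
              · have h5 := le_wl w h3
                rw [← h4]
                omega
              · have h5 := ih h3 h4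
                omega
        exact haux v hc0' hzv
      rw [hw0] at h9
      omega
    · have hne' : c0' ≠ o := fun h => hzv (h ▸ hc0')
      have hM' := hmax c0' hc0' hne'
      have h8 := hmin n c0' hM'
      have h9 := le_wl w hc0'
      refine ⟨c0', ?_, hM', by omega⟩
      exact eq_singleton_of_wl w hw1 hc0' (by omega)
  -- no maximizing pair at all
  have hno : ∀ n a b, ¬ Mx n a b := by
    by_contra hcon
    push Not at hcon
    have hex : ∃ m : ℕ, ∃ n a b, Mx n a b ∧ w a + w b = m := by
      obtain ⟨n, a, b, h⟩ := hcon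
      exact ⟨w a + w b, n, a, b, h, rfl⟩
    set m := Nat.find hex with hm
    have hmin : ∀ n a b, Mx n a b → m ≤ w a + w b := by
      intro n a b h
      exact Nat.find_min' hex ⟨n, a, b, h, rfl⟩
    obtain ⟨n1, a1, b1, hM1, hwb1⟩ := Nat.find_spec hex
    refine no_long_chain D hC (fun n b => ∃ a, Mx n a b ∧ w a + w b = m)
      (fun n q b h => by
        obtain ⟨a, h1, h2⟩ := h
        exact ⟨a, hMxper n q a b h1, h2⟩) ?_ n1 b1 ⟨a1, hM1, hwb1⟩
    rintro n b ⟨a, hM, hwab⟩
    obtain ⟨hterm, _, c0, hc0, c0', hc0', hcc⟩ := hdescent n a b hM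
    have ha : a ≠ o := by
      rintro rfl
      exact hno0 _ _ hM
    have hb : b ≠ o := by
      rintro rfl
      exact hno0 _ _ (hMxsymm _ _ _ hM)
    have hM' : Mx n c0 c0' := ⟨hcc, by rw [hterm c0 hc0 c0' hc0', Pot0, if_neg hcc]⟩
    have h1 := hmin n c0 c0' hM'
    have h2 := le_wl w hc0
    have h3 := le_wl w hc0'
    have h4 := hβ n a ha
    have h5 := hβ n b hb
    refine ⟨c0', ?_, c0, hM', by omega⟩
    exact eq_singleton_of_wl w hw1 hc0' (by omega)
  exact hno n0 a0 b0 hM0

/-- **Family II.** Compositions of substitutions with a dominant letter. -/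
theorem familyII (D : PData σ M r f l C θ)
    (L : List (Fin d → List (Fin d))) (o : Fin d) (w : Fin d → ℕ) (hw1 : ∀ i, 1 ≤ w i) (hw0 : w o = 1)
    (hL : ∀ τ ∈ L, (∀ b, b ≠ o → ((τ b).map w).sum ≤ w b) ∧
      ((τ o).map w).sum < 2 * (τ o).count o)
    {e : ℕ} (he : 1 ≤ e)
    (hσ : ∀ a, it σ e [a] = L.foldl (fun w τ => w.flatMap τ) [a]) :
    ∀ a b : Fin d, sw (Hr σ r) a b = 0 := by
  have hk := list_pos D L he hσ
  refine familyII_core (S := seqOf L hk) (k := L.length) (e := e) (w := w) D
    ⟨hk, he, seqOf_per L hk, ?_⟩ hw1 hw0 ?_ ?_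
  · intro a
    rw [seqOf_cp, hσ]
  · intro n b hb
    exact (hL _ (seqOf_mem L hk n)).1 b hb
  · intro n
    exact (hL _ (seqOf_mem L hk n)).2

end

end Pool.Agent.Helper94_Pisot
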